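import Mathlib

set_option autoImplicit false

namespace Pool.Agent.H277R2.Dowling

abbrev Edge := {p : Fin 3 × Fin 3 // p.1 < p.2}

abbrev Pt (A : Type) := Fin 3 ⊕ (A × Edge)

def V {A : Type} (e : Pt A) : Finset (Fin 3) :=
  Sum.elim (fun i => ({i} : Finset (Fin 3)))
    (fun x => ({x.2.1.1, x.2.1.2} : Finset (Fin 3))) e

def QI (A : Type) [Group A] (S : Set (Pt A)) : Prop :=
  ∀ T : Finset (Pt A), (↑T ⊆ S) → T.Nonempty →
    (T.card ≤ (T.biUnion V).card ∧
      (((∀ i : Fin 3, Sum.inl i ∉ T) ∧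
        ∃ φ : Fin 3 → A, ∀ x : A × Edge, Sum.inr x ∈ T → x.1 = φ x.2.1.1 * (φ x.2.1.2)⁻¹) →
        T.card + 1 ≤ (T.biUnion V).card))

/-- balanced triple of internal points -/
def Bal {A : Type} [Group A] (x y z : Pt A) : Prop :=
  ∃ φ : Fin 3 → A, ∃ x' y' z' : A × Edge, x = Sum.inr x' ∧ y = Sum.inr y' ∧ z = Sum.inr z' ∧
    x'.1 = φ x'.2.1.1 * (φ x'.2.1.2)⁻¹ ∧ y'.1 = φ y'.2.1.1 * (φ y'.2.1.2)⁻¹ ∧
    z'.1 = φ z'.2.1.1 * (φ z'.2.1.2)⁻¹

def Dep3 {A : Type} [Group A] (x y z : Pt A) : Prop :=
  (∃ i : Fin 3, i ∉ V x ∧ i ∉ V y ∧ i ∉ V z) ∨ Bal x y z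

theorem Bal.perm1 {A : Type} [Group A] {x y z : Pt A} (h : Bal x y z) : Bal y x z := by
  obtain ⟨φ, x', y', z', h1, h2, h3, h4, h5, h6⟩ := h
  exact ⟨φ, y', x', z', h2, h1, h3, h5, h4, h6⟩

theorem Bal.perm2 {A : Type} [Group A] {x y z : Pt A} (h : Bal x y z) : Bal x z y := by
  obtain ⟨φ, x', y', z', h1, h2, h3, h4, h5, h6⟩ := h
  exact ⟨φ, x', z', y', h1, h3, h2, h4, h6, h5⟩

theorem Dep3.perm1 {A : Type} [Group A] {x y z : Pt A} (h : Dep3 x y z) : Dep3 y x z := by
  rcases h with ⟨i, h1, h2, h3⟩ | h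
  · exact Or.inl ⟨i, h2, h1, h3⟩
  · exact Or.inr h.perm1

theorem Dep3.perm2 {A : Type} [Group A] {x y z : Pt A} (h : Dep3 x y z) : Dep3 x z y := by
  rcases h with ⟨i, h1, h2, h3⟩ | h
  · exact Or.inl ⟨i, h1, h3, h2⟩
  · exact Or.inr h.perm2

/-- two distinct internal points of a balanced set lie on different edges -/
theorem edge_ne {A : Type} [Group A] {φ : Fin 3 → A} {x y : A × Edge} (hne : x ≠ y)
    (hx : x.1 = φ x.2.1.1 * (φ x.2.1.2)⁻¹) (hy : y.1 = φ y.2.1.1 * (φ y.2.1.2)⁻¹) :
    x.2 ≠ y.2 := by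
  intro h
  apply hne
  refine Prod.ext ?_ h
  rw [hx, hy, h]

theorem edge_cover : ∀ e f : Edge, e ≠ f →
    (({e.1.1, e.1.2} : Finset (Fin 3)) ∪ {f.1.1, f.1.2}) = Finset.univ := by decide

theorem edge_card : ∀ e : Edge, ({e.1.1, e.1.2} : Finset (Fin 3)).card = 2 := by decide

theorem edge_third : ∀ e f g h : Edge, e ≠ f → g ≠ e → g ≠ f → h ≠ e → h ≠ f → g = h := by
  intro e f g h
  fin_cases e <;> fin_cases f <;> fin_cases g <;> fin_cases h <;> simp

theorem two_le {A : Type} [Group A] {x y : Pt A} (hne : x ≠ y) : 2 ≤ (V x ∪ V y).card := by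
  rcases x with i | x <;> rcases y with j | y
  · have h1 : i ≠ j := fun h => hne (by rw [h])
    simp only [V, Sum.elim_inl]
    have h2 : ∀ i j : Fin 3, i ≠ j → 2 ≤ ({i} ∪ {j} : Finset (Fin 3)).card := by decide
    exact h2 i j h1
  · refine le_trans (le_of_eq (edge_card y.2).symm) (Finset.card_le_card ?_)
    exact Finset.subset_union_right
  · refine le_trans (le_of_eq (edge_card x.2).symm) (Finset.card_le_card ?_)
    exact Finset.subset_union_left
  · refine le_trans (le_of_eq (edge_card x.2).symm) (Finset.card_le_card ?_)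
    exact Finset.subset_union_left

theorem fin3_unique : ∀ S : Finset (Fin 3), 2 ≤ S.card → ∀ i j, i ∉ S → j ∉ S → i = j := by decide

theorem fin3_full : ∀ S : Finset (Fin 3), (¬ ∃ i, i ∉ S) → S.card = 3 := by decide

/-- If `a ≠ b` lie on a common coordinate line, a balanced triple containing them is impossible. -/
theorem not_bal {A : Type} [Group A] {a b x : Pt A} (hne : a ≠ b) {i : Fin 3} (ha : i ∉ V a)
    (hb : i ∉ V b) : ¬ Bal a b x := by
  rintro ⟨φ, a', b', x', rfl, rfl, rfl, h4, h5, h6⟩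
  have h1 : a'.2 ≠ b'.2 := edge_ne (fun h => hne (by rw [h])) h4 h5
  have h2 := edge_cover _ _ h1
  have h3 : i ∈ (({a'.2.1.1, a'.2.1.2} : Finset (Fin 3)) ∪ {b'.2.1.1, b'.2.1.2}) := by
    rw [h2]; exact Finset.mem_univ _
  rcases Finset.mem_union.mp h3 with h | h
  · exact ha h
  · exact hb h

theorem line_coord {A : Type} [Group A] {a b x : Pt A} (hne : a ≠ b) {i : Fin 3} (ha : i ∉ V a)
    (hb : i ∉ V b) (h : Dep3 a b x) : i ∉ V x := by
  rcases h with ⟨j, h1, h2, h3⟩ | h
  · have : i = j := fin3_unique (V a ∪ V b) (two_le hne) i j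
      (by simp [ha, hb]) (by simp [h1, h2])
    rw [this]; exact h3
  · exact absurd h (not_bal hne ha hb)

theorem bal_unique {A : Type} [Group A] {a b x y : Pt A} (hab : a ≠ b) (hxa : x ≠ a) (hxb : x ≠ b)
    (hya : y ≠ a) (hyb : y ≠ b) (hx : Bal a b x) (hy : Bal a b y) : x = y := by
  obtain ⟨φ, a', b', x', rfl, rfl, rfl, h4, h5, h6⟩ := hx
  obtain ⟨ψ, a'', b'', y', e1, e2, rfl, k4, k5, k6⟩ := hy
  have e1' : a' = a'' := Sum.inr.inj e1
  have e2' : b' = b'' := Sum.inr.inj e2
  subst e1' e2'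
  have n1 : a'.2 ≠ b'.2 := edge_ne (fun h => hab (by rw [h])) h4 h5
  have n2 : x'.2 ≠ a'.2 := edge_ne (fun h => hxa (by rw [h])) h6 h4
  have n3 : x'.2 ≠ b'.2 := edge_ne (fun h => hxb (by rw [h])) h6 h5
  have n4 : y'.2 ≠ a'.2 := edge_ne (fun h => hya (by rw [h])) k6 k4
  have n5 : y'.2 ≠ b'.2 := edge_ne (fun h => hyb (by rw [h])) k6 k5
  have n6 : x'.2 = y'.2 := edge_third _ _ _ _ n1 n2 n3 n4 n5
  obtain ⟨α, ea⟩ := a'
  obtain ⟨β, eb⟩ := b'
  obtain ⟨ξ, ex⟩ := x'
  obtain ⟨η, ey⟩ := y'
  simp only at n1 n2 n3 n4 n5 n6 h4 h5 h6 k4 k5 k6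
  subst n6
  congr 2
  -- potentials agree up to right translation
  have key : ∀ (ea eb ex : Edge), ea ≠ eb → ex ≠ ea → ex ≠ eb →
      ∀ (φ ψ : Fin 3 → A), φ ea.1.1 * (φ ea.1.2)⁻¹ = ψ ea.1.1 * (ψ ea.1.2)⁻¹ →
      φ eb.1.1 * (φ eb.1.2)⁻¹ = ψ eb.1.1 * (ψ eb.1.2)⁻¹ →
      φ ex.1.1 * (φ ex.1.2)⁻¹ = ψ ex.1.1 * (ψ ex.1.2)⁻¹ := by
    intro ea eb ex h1 h2 h3 φ ψ h4 h5
    have conv : ∀ i j : Fin 3, φ i * (φ j)⁻¹ = ψ i * (ψ j)⁻¹ ↔ (ψ i)⁻¹ * φ i = (ψ j)⁻¹ * φ j := by
      intro i j
      constructor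
      · intro h
        have : φ i = ψ i * (ψ j)⁻¹ * φ j := by rw [← h]; group
        rw [this]; group
      · intro h
        have : φ i = ψ i * ((ψ j)⁻¹ * φ j) := by rw [← h]; group
        rw [this]; group
    rw [conv] at *
    fin_cases ea <;> fin_cases eb <;> fin_cases ex <;> simp at h1 h2 h3 h4 h5 ⊢ <;>
      simp_all
  have := key ea eb ex n1 n2 n3 φ ψ (h4.symm.trans k4) (h5.symm.trans k5)
  rw [h6, k6, this]

/-- all points of a line are dependent -/
theorem line_dep {A : Type} [Group A] {a b x y z : Pt A} (hab : a ≠ b)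
    (hx : x = a ∨ x = b ∨ Dep3 a b x) (hy : y = a ∨ y = b ∨ Dep3 a b y)
    (hz : z = a ∨ z = b ∨ Dep3 a b z) (hxy : x ≠ y) (hyz : y ≠ z) (hxz : x ≠ z) :
    Dep3 x y z := by
  by_cases hi : ∃ i, i ∉ V a ∧ i ∉ V b
  · obtain ⟨i, ha, hb⟩ := hi
    have aux : ∀ w, (w = a ∨ w = b ∨ Dep3 a b w) → i ∉ V w := by
      rintro w (rfl | rfl | h)
      · exact ha
      · exact hb
      · exact line_coord hab ha hb h
    exact Or.inl ⟨i, aux x hx, aux y hy, aux z hz⟩
  · have hb : ∀ w, Dep3 a b w → Bal a b w := by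
      rintro w (⟨j, h1, h2, _⟩ | h)
      · exact absurd ⟨j, h1, h2⟩ hi
      · exact h
    have uniq : ∀ w w', w ≠ a → w ≠ b → w' ≠ a → w' ≠ b → Dep3 a b w → Dep3 a b w' → w = w' :=
      fun w w' h1 h2 h3 h4 h5 h6 => bal_unique hab h1 h2 h3 h4 (hb _ h5) (hb _ h6)
    by_cases x1 : x = a
    · subst x1
      by_cases y1 : y = b
      · subst y1
        rcases hz with h | h | h
        · exact absurd h.symm hxz
        · exact absurd h.symm hyz
        · exact h
      · have y2 : Dep3 x b y := by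
          rcases hy with h | h | h
          · exact absurd h.symm hxy
          · exact absurd h y1
          · exact h
        rcases hz with h | h | h
        · exact absurd h.symm hxz
        · subst h; exact y2.perm2
        · by_cases z1 : z = b
          · subst z1; exact y2.perm2
          · exact absurd (uniq y z hxy.symm y1 hxz.symm z1 y2 h) hyz
    · by_cases x2 : x = b
      · subst x2
        by_cases y1 : y = a
        · subst y1
          rcases hz with h | h | h
          · exact absurd h.symm hyz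
          · exact absurd h.symm hxz
          · exact h.perm1
        · have y2 : Dep3 a x y := by
            rcases hy with h | h | h
            · exact absurd h y1
            · exact absurd h.symm hxy
            · exact h
          by_cases z1 : z = a
          · subst z1; exact y2.perm1.perm2
          · have z2 : Dep3 a x z := by
              rcases hz with h | h | h
              · exact absurd h z1
              · exact absurd h.symm hxz
              · exact h
            exact absurd (uniq y z y1 hxy.symm z1 hxz.symm y2 z2) hyz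
      · have x3 : Dep3 a b x := by
          rcases hx with h | h | h
          · exact absurd h x1
          · exact absurd h x2
          · exact h
        by_cases y1 : y = a
        · subst y1
          by_cases z1 : z = b
          · subst z1; exact x3.perm2.perm1
          · have z2 : Dep3 y b z := by
              rcases hz with h | h | h
              · exact absurd h.symm hyz
              · exact absurd h z1
              · exact h
            exact absurd (uniq x z x1 x2 hyz.symm z1 x3 z2) hxz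
        · by_cases y2 : y = b
          · subst y2
            by_cases z1 : z = a
            · subst z1
              exact x3.perm2.perm1.perm2
            · have z2 : Dep3 a y z := by
                rcases hz with h | h | h
                · exact absurd h z1
                · exact absurd h.symm hyz
                · exact h
              exact absurd (uniq x z x1 x2 z1 hyz.symm x3 z2) hxz
          · have y3 : Dep3 a b y := by
              rcases hy with h | h | h
              · exact absurd h y1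
              · exact absurd h y2
              · exact h
            exact absurd (uniq x y x1 x2 y1 y2 x3 y3) hxy

end Pool.Agent.H277R2.Dowling
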