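import Mathlib
import Pool.Agent.H277R2.Dowling

set_option autoImplicit false

namespace Pool.Agent.H277R2.Dowling

open Set

variable {A : Type} [Group A]

theorem V_card_pos (x : Pt A) : 1 ≤ (V x).card := by
  rcases x with i | x
  · simp [V]
  · have := edge_card x.2
    show 1 ≤ ({x.2.1.1, x.2.1.2} : Finset (Fin 3)).card
    omega

theorem biUnion_le (T : Finset (Pt A)) : (T.biUnion V).card ≤ 3 := by
  have := Finset.card_le_univ (T.biUnion V)
  simpa using this

theorem QI_iff (S : Set (Pt A)) :
    QI A S ↔ S.encard ≤ 3 ∧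
      ∀ x ∈ S, ∀ y ∈ S, ∀ z ∈ S, x ≠ y → y ≠ z → x ≠ z → ¬ Dep3 x y z := by
  classical
  constructor
  · intro h
    constructor
    · by_contra hc
      push Not at hc
      have h4 : (4 : ℕ∞) ≤ S.encard := by
        have h34 : (3 : ℕ∞) + 1 = 4 := by norm_num
        rw [← h34]
        exact Order.add_one_le_of_lt hc
      obtain ⟨T, hT, hTc⟩ := Set.exists_subset_encard_eq h4
      have hfin : T.Finite := Set.finite_of_encard_eq_coe (k := 4) (by simpa using hTc)
      have hcard : hfin.toFinset.card = 4 := by
        have := hfin.encard_eq_coe_toFinset_card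
        rw [hTc] at this
        exact_mod_cast this.symm
      have h1 := (h hfin.toFinset (by simpa using hT) (by
        rw [← Finset.card_pos]; omega)).1
      have h2 := biUnion_le hfin.toFinset
      omega
    · intro x hx y hy z hz hxy hyz hxz hd
      have hT := h {x, y, z} (by
        intro w hw
        simp only [Finset.coe_insert, Finset.coe_singleton, mem_insert_iff, mem_singleton_iff] at hw
        rcases hw with rfl | rfl | rfl <;> assumption) ⟨x, by simp⟩
      have hc : ({x, y, z} : Finset (Pt A)).card = 3 := by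
        rw [Finset.card_eq_three]; exact ⟨x, y, z, hxy, hxz, hyz, rfl⟩
      rw [hc] at hT
      rcases hd with ⟨i, h1, h2, h3⟩ | ⟨φ, x', y', z', rfl, rfl, rfl, h4, h5, h6⟩
      · have h7 : (({x, y, z} : Finset (Pt A)).biUnion V) ⊆ Finset.univ.erase i := by
          intro j hj
          simp only [Finset.mem_biUnion, Finset.mem_insert, Finset.mem_singleton] at hj
          obtain ⟨w, hw, hj⟩ := hj
          refine Finset.mem_erase.mpr ⟨?_, Finset.mem_univ _⟩
          rintro rfl
          rcases hw with rfl | rfl | rfl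
          · exact h1 hj
          · exact h2 hj
          · exact h3 hj
        have h8 := Finset.card_le_card h7
        rw [Finset.card_erase_of_mem (Finset.mem_univ _), Finset.card_univ, Fintype.card_fin] at h8
        have h9 := hT.1
        omega
      · have h7 := hT.2 ⟨by simp, φ, by
          intro w hw
          simp only [Finset.mem_insert, Finset.mem_singleton, Sum.inr.injEq] at hw
          rcases hw with rfl | rfl | rfl <;> assumption⟩
        have h8 := biUnion_le ({Sum.inr x', Sum.inr y', Sum.inr z'} : Finset (Pt A))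
        omega
  · rintro ⟨hcard, hdep⟩ T hTS hne
    have hT3 : T.card ≤ 3 := by
      have h1 : (T : Set (Pt A)).encard ≤ 3 := (Set.encard_le_encard hTS).trans hcard
      rw [Set.encard_coe_eq_coe_finsetCard] at h1
      exact_mod_cast h1
    have hT1 : 1 ≤ T.card := hne.card_pos
    have cases3 : T.card = 1 ∨ T.card = 2 ∨ T.card = 3 := by omega
    rcases cases3 with h | h | h
    · obtain ⟨x, rfl⟩ := Finset.card_eq_one.mp h
      rw [Finset.singleton_biUnion, h]
      refine ⟨V_card_pos x, ?_⟩
      rintro ⟨h1, φ, _⟩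
      rcases x with i | x
      · exact absurd (by simp) (h1 i)
      · show 1 + 1 ≤ ({x.2.1.1, x.2.1.2} : Finset (Fin 3)).card
        rw [edge_card]
    · obtain ⟨x, y, hxy, rfl⟩ := Finset.card_eq_two.mp h
      have hb : (({x, y} : Finset (Pt A)).biUnion V) = V x ∪ V y := by
        rw [Finset.biUnion_insert, Finset.singleton_biUnion]
      rw [hb, h]
      refine ⟨two_le hxy, ?_⟩
      rintro ⟨h1, φ, h2⟩
      rcases x with i | x
      · exact absurd (by simp) (h1 i)
      rcases y with i | y
      · exact absurd (by simp) (h1 i)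
      have hx := h2 x (by simp)
      have hy := h2 y (by simp)
      have hne' := edge_ne (fun h => hxy (by rw [h])) hx hy
      have := edge_cover _ _ hne'
      show 2 + 1 ≤ (({x.2.1.1, x.2.1.2} : Finset (Fin 3)) ∪ {y.2.1.1, y.2.1.2}).card
      rw [this]; simp
    · obtain ⟨x, y, z, hxy, hxz, hyz, rfl⟩ := Finset.card_eq_three.mp h
      have hx : x ∈ S := hTS (by simp)
      have hy : y ∈ S := hTS (by simp)
      have hz : z ∈ S := hTS (by simp)
      have hnd := hdep x hx y hy z hz hxy hyz hxz
      have hb : (({x, y, z} : Finset (Pt A)).biUnion V).card = 3 := by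
        apply fin3_full
        rintro ⟨i, hi⟩
        apply hnd
        left
        refine ⟨i, ?_, ?_, ?_⟩ <;> intro hc <;> apply hi <;> rw [Finset.mem_biUnion]
        · exact ⟨x, by simp, hc⟩
        · exact ⟨y, by simp, hc⟩
        · exact ⟨z, by simp, hc⟩
      rw [hb, h]
      refine ⟨le_refl _, ?_⟩
      rintro ⟨h1, φ, h2⟩
      exfalso
      rcases x with i | x
      · exact absurd (by simp) (h1 i)
      rcases y with i | y
      · exact absurd (by simp) (h1 i)
      rcases z with i | z
      · exact absurd (by simp) (h1 i)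
      exact hnd (Or.inr ⟨φ, x, y, z, rfl, rfl, rfl, h2 x (by simp), h2 y (by simp), h2 z (by simp)⟩)

theorem QI_mono {S T : Set (Pt A)} (h : S ⊆ T) (hT : QI A T) : QI A S :=
  fun U hU hne => hT U (hU.trans h) hne

theorem QI_empty : QI A ∅ := by
  rintro T hT ⟨x, hx⟩
  exact absurd (hT hx) (by simp)

theorem encard_pair_le' {α : Type} (a b : α) : ({a, b} : Set α).encard ≤ 2 := by
  refine (Set.encard_insert_le _ _).trans ?_
  rw [Set.encard_singleton]
  norm_num

theorem QI_pair (a b : Pt A) : QI A {a, b} := by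
  rw [QI_iff]
  constructor
  · exact (encard_pair_le' a b).trans (by norm_num)
  · intro x hx y hy z hz hxy hyz hxz
    exfalso
    simp only [mem_insert_iff, mem_singleton_iff] at hx hy hz
    rcases hx with rfl | rfl <;> rcases hy with rfl | rfl <;> rcases hz with rfl | rfl <;> simp_all

theorem QI_triple {a b c : Pt A} (hab : a ≠ b) (hbc : b ≠ c) (hac : a ≠ c) :
    QI A {a, b, c} ↔ ¬ Dep3 a b c := by
  rw [QI_iff]
  constructor
  · rintro ⟨_, h⟩
    exact h a (by simp) b (by simp) c (by simp) hab hbc hac
  · intro h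
    constructor
    · refine (Set.encard_insert_le _ _).trans ?_
      have := encard_pair_le' b c
      calc _ ≤ (2 : ℕ∞) + 1 := by gcongr
        _ = 3 := by norm_num
    · intro x hx y hy z hz hxy hyz hxz hd
      apply h
      simp only [mem_insert_iff, mem_singleton_iff] at hx hy hz
      have key : (x = a ∧ y = b ∧ z = c) ∨ (x = a ∧ y = c ∧ z = b) ∨ (x = b ∧ y = a ∧ z = c) ∨
          (x = b ∧ y = c ∧ z = a) ∨ (x = c ∧ y = a ∧ z = b) ∨ (x = c ∧ y = b ∧ z = a) := by
        rcases hx with h | h | h <;> rcases hy with h' | h' | h' <;>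
          rcases hz with h'' | h'' | h'' <;> simp_all
      rcases key with ⟨rfl, rfl, rfl⟩ | ⟨rfl, rfl, rfl⟩ | ⟨rfl, rfl, rfl⟩ | ⟨rfl, rfl, rfl⟩ |
        ⟨rfl, rfl, rfl⟩ | ⟨rfl, rfl, rfl⟩
      · exact hd
      · exact hd.perm2
      · exact hd.perm1
      · exact hd.perm2.perm1
      · exact hd.perm1.perm2
      · exact hd.perm1.perm2.perm1

/-- The matroid on `Fin n` obtained from points of the rank-three Dowling geometry. -/
theorem exists_matroid {n : ℕ} (f : Fin n → Pt A) (hf : Function.Injective f) :
    ∃ M : Matroid (Fin n), M.E = univ ∧ ∀ X, M.Indep X ↔ QI A (f '' X) := by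
  classical
  refine ⟨(IndepMatroid.ofFinite (E := (univ : Set (Fin n))) finite_univ
    (fun X => QI A (f '' X)) (by simpa using QI_empty) (fun I J hJ hIJ => QI_mono (image_mono hIJ) hJ)
    ?_ (fun I _ => subset_univ _)).matroid, rfl, fun X => Iff.rfl⟩
  intro I J hI hJ hlt
  have hI' := (QI_iff _).1 hI
  have hJ' := (QI_iff _).1 hJ
  have hJ3 : J.ncard ≤ 3 := by
    have h1 := hJ'.1
    rw [hf.encard_image, ← (Set.toFinite J).cast_ncard_eq] at h1
    exact_mod_cast h1
  have cases3 : I.ncard = 0 ∨ I.ncard = 1 ∨ I.ncard = 2 := by omega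
  rcases cases3 with h | h | h
  · have hIe : I = ∅ := (Set.ncard_eq_zero (Set.toFinite I)).mp h
    subst hIe
    obtain ⟨e, he⟩ : J.Nonempty := by
      rw [← Set.ncard_pos (Set.toFinite J)]; omega
    refine ⟨e, he, by simp, ?_⟩
    have : f '' insert e ∅ = {f e, f e} := by simp
    rw [this]
    exact QI_pair _ _
  · obtain ⟨a, rfl⟩ := Set.ncard_eq_one.mp h
    obtain ⟨e, he, hea⟩ : ∃ e ∈ J, e ∉ ({a} : Set (Fin n)) :=
      Set.exists_mem_notMem_of_ncard_lt_ncard hlt
    refine ⟨e, he, hea, ?_⟩
    have : f '' insert e {a} = {f e, f a} := by simp [image_insert_eq]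
    rw [this]
    exact QI_pair _ _
  · obtain ⟨a, b, hab, rfl⟩ := Set.ncard_eq_two.mp h
    by_contra hcon
    push Not at hcon
    have hJc : J.ncard = 3 := by omega
    obtain ⟨x, y, z, hxy, hxz, hyz, rfl⟩ := Set.ncard_eq_three.mp hJc
    have hab' : f a ≠ f b := hf.ne hab
    have aux : ∀ e ∈ ({x, y, z} : Set (Fin n)), f e = f a ∨ f e = f b ∨ Dep3 (f a) (f b) (f e) := by
      intro e he
      by_cases h1 : e = a
      · left; rw [h1]
      by_cases h2 : e = b
      · right; left; rw [h2]
      right; right
      have h3 := hcon e he (by simp [h1, h2])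
      have h4 : f '' insert e {a, b} = {f e, f a, f b} := by
        simp [image_insert_eq]
      rw [h4, QI_triple (hf.ne h1) hab' (hf.ne h2), not_not] at h3
      exact h3.perm1.perm2
    have h5 := line_dep hab' (aux x (by simp)) (aux y (by simp)) (aux z (by simp))
      (hf.ne hxy) (hf.ne hyz) (hf.ne hxz)
    exact hJ'.2 (f x) (mem_image_of_mem _ (by simp)) (f y) (mem_image_of_mem _ (by simp)) (f z)
      (mem_image_of_mem _ (by simp)) (hf.ne hxy) (hf.ne hyz) (hf.ne hxz) h5

end Pool.Agent.H277R2.Dowling
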