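import Mathlib
import Pool.Agent.H277R2.Dowling2

set_option autoImplicit false

namespace Pool.Agent.H277R2.Dowling

open Set

theorem finite_contra {G : Type} [Group G] [Finite G] (a b c t : G) (h1 : a * a = c)
    (h2 : t * a = c * t) (h3 : b * c = c * b) : b * a = a * b := by
  have hc : c = t * a * t⁻¹ := by rw [h2]; group
  have ho : orderOf c = orderOf a := by
    rw [hc]
    have : t * a * t⁻¹ = MulAut.conj t a := by simp
    rw [this]
    exact orderOf_injective (MulAut.conj t).toMonoidHom (MulAut.conj t).injective a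
  have hc2 : c = a ^ 2 := by rw [← h1, sq]
  have hpos : 0 < orderOf a := orderOf_pos a
  have hgcd : Nat.Coprime 2 (orderOf a) := by
    rw [hc2, orderOf_pow] at ho
    have h4 : Nat.gcd (orderOf a) 2 = 1 := by
      have hd : Nat.gcd (orderOf a) 2 ∣ orderOf a := Nat.gcd_dvd_left _ _
      obtain ⟨k, hk⟩ := hd
      have hg : 0 < Nat.gcd (orderOf a) 2 := Nat.gcd_pos_of_pos_left _ hpos
      rw [Nat.div_eq_of_eq_mul_right hg hk] at ho
      rw [ho] at hk
      have : (Nat.gcd (orderOf a) 2) * orderOf a = 1 * orderOf a := by omega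
      exact Nat.eq_of_mul_eq_mul_right hpos this
    rw [Nat.coprime_comm]; exact h4
  obtain ⟨m, hm⟩ := exists_pow_eq_self_of_coprime hgcd
  have hcomm : Commute b (a ^ 2) := by
    rw [← hc2]; exact h3
  have := hcomm.pow_right m
  rw [hm] at this
  exact this

/-- gain of a point read from the vertex `i` -/
noncomputable def gain {A : Type} [Group A] (x : Pt A) (i : Fin 3) : A := by
  classical
  exact Sum.elim (fun _ => 1) (fun x => if x.2.1.1 = i then x.1 else x.1⁻¹) x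

theorem edge_cases : ∀ (e : Edge) (i j : Fin 3), i ≠ j →
    ({e.1.1, e.1.2} : Finset (Fin 3)) = {i, j} →
    (e.1.1 = i ∧ e.1.2 = j) ∨ (e.1.1 = j ∧ e.1.2 = i) := by
  intro e i j
  fin_cases e <;> fin_cases i <;> fin_cases j <;> simp <;> decide

theorem gain_eq {A : Type} [Group A] {φ : Fin 3 → A} {x : A × Edge} {i j : Fin 3} (hij : i ≠ j)
    (hV : V (Sum.inr x : Pt A) = {i, j}) (hx : x.1 = φ x.2.1.1 * (φ x.2.1.2)⁻¹) :
    gain (Sum.inr x : Pt A) i = φ i * (φ j)⁻¹ := by
  unfold gain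
  simp only [Sum.elim_inr]
  rcases edge_cases x.2 i j hij hV with ⟨h1, h2⟩ | ⟨h1, h2⟩
  · rw [if_pos h1, hx, h1, h2]
  · rw [if_neg (by rw [h1]; exact hij.symm), hx, h1, h2]
    group

theorem tri {A : Type} [Group A] {x y z : Pt A} {i j k : Fin 3} (hij : i ≠ j) (hjk : j ≠ k)
    (hik : i ≠ k) (hx : V x = {i, j}) (hy : V y = {j, k}) (hz : V z = {i, k})
    (h : Dep3 x y z) : gain x i * gain y j = gain z i := by
  rcases h with ⟨l, h1, h2, h3⟩ | ⟨φ, x', y', z', rfl, rfl, rfl, h4, h5, h6⟩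
  · exfalso
    rw [hx] at h1
    rw [hy] at h2
    revert hij hjk hik h1 h2
    revert i j k l
    simp only [Finset.mem_insert, Finset.mem_singleton, not_or]
    intro i j k _ _ _ l
    intro h1 h2 h3 h4 h5 h6
    omega
  · rw [gain_eq hij hx h4, gain_eq hjk hy h5, gain_eq hik hz h6]
    group

theorem gain_inj {A : Type} [Group A] {x y : A × Edge} {i j : Fin 3} (hij : i ≠ j)
    (hx : V (Sum.inr x : Pt A) = {i, j}) (hy : V (Sum.inr y : Pt A) = {i, j})
    (h : gain (Sum.inr x : Pt A) i = gain (Sum.inr y : Pt A) i) : x = y := by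
  unfold gain at h
  simp only [Sum.elim_inr] at h
  rcases edge_cases x.2 i j hij hx with ⟨h1, h2⟩ | ⟨h1, h2⟩ <;>
    rcases edge_cases y.2 i j hij hy with ⟨h3, h4⟩ | ⟨h3, h4⟩
  · rw [if_pos h1, if_pos h3] at h
    refine Prod.ext h (Subtype.ext (Prod.ext ?_ ?_))
    · rw [h1, h3]
    · rw [h2, h4]
  · exfalso
    have := x.2.2; have := y.2.2
    rw [h1, h2] at *
    rw [h3, h4] at *
    omega
  · exfalso
    have := x.2.2; have := y.2.2
    rw [h1, h2] at *
    rw [h3, h4] at *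
    omega
  · rw [if_neg (by rw [h1]; exact hij.symm), if_neg (by rw [h3]; exact hij.symm)] at h
    refine Prod.ext (inv_injective h) (Subtype.ext (Prod.ext ?_ ?_))
    · rw [h1, h3]
    · rw [h2, h4]

theorem fin3_three : ∀ i j k l : Fin 3, i ≠ j → j ≠ k → i ≠ k → l ≠ k → l = i ∨ l = j := by decide

theorem fin3_edge : ∀ (i j k : Fin 3) (e : Edge), i ≠ j → j ≠ k → i ≠ k →
    k ∉ ({e.1.1, e.1.2} : Finset (Fin 3)) → ({e.1.1, e.1.2} : Finset (Fin 3)) = {i, j} := by
  intro i j k e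
  fin_cases e <;> fin_cases i <;> fin_cases j <;> fin_cases k <;> simp <;> decide

theorem internal_of {A : Type} {i j k : Fin 3} (hij : i ≠ j) (hjk : j ≠ k) (hik : i ≠ k)
    {w : Pt A} (h : k ∉ V w) (h1 : w ≠ Sum.inl i) (h2 : w ≠ Sum.inl j) :
    ∃ x, w = Sum.inr x ∧ V w = {i, j} := by
  rcases w with l | x
  · exfalso
    have h3 : l ≠ k := by
      rintro rfl
      exact h (by simp [V])
    rcases fin3_three i j k l hij hjk hik h3 with rfl | rfl
    · exact h1 rfl
    · exact h2 rfl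
  · exact ⟨x, rfl, fin3_edge i j k x.2 hij hjk hik h⟩

theorem joint_of {A : Type} {i j k : Fin 3} (hij : i ≠ j) (hjk : j ≠ k) (hik : i ≠ k)
    {w : Pt A} (hj : j ∉ V w) (hk : k ∉ V w) : w = Sum.inl i := by
  rcases w with l | x
  · congr 1
    have h3 : l ≠ k := by
      rintro rfl
      exact hk (by simp [V])
    have h4 : l ≠ j := by
      rintro rfl
      exact hj (by simp [V])
    rcases fin3_three i j k l hij hjk hik h3 with rfl | rfl
    · rfl
    · exact absurd rfl h4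
  · exfalso
    have h5 := fin3_edge i j k x.2 hij hjk hik hk
    apply hj
    show j ∈ ({x.2.1.1, x.2.1.2} : Finset (Fin 3))
    rw [h5]; simp

theorem L4 {A : Type} [Group A] {a b c d : Pt A} (hab : a ≠ b) (hcd : c ≠ d) (hca : c ≠ a)
    (hcb : c ≠ b) (hda : d ≠ a) (hdb : d ≠ b) (h1 : Dep3 a b c) (h2 : Dep3 a b d) :
    ∃ i, i ∉ V a ∧ i ∉ V b := by
  by_contra hcon
  apply hcd
  refine bal_unique hab hca hcb hda hdb ?_ ?_
  · rcases h1 with ⟨i, h3, h4, _⟩ | h
    · exact absurd ⟨i, h3, h4⟩ hcon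
    · exact h
  · rcases h2 with ⟨i, h3, h4, _⟩ | h
    · exact absurd ⟨i, h3, h4⟩ hcon
    · exact h

theorem alg {G : Type} [Group G] [Finite G] {P Q R a3 b3 c3 t3 u v y z la lb lc lt ra rb rc rt : G}
    (e11 : P * Q = R) (e1a : P * ra = a3) (ea1 : la * Q = a3) (e1b : P * rb = b3)
    (eb1 : lb * Q = b3) (e1c : P * rc = c3) (ec1 : lc * Q = c3) (e1t : P * rt = t3)
    (et1 : lt * Q = t3) (eaa : la * ra = c3) (eta : lt * ra = u) (ect : lc * rt = u)
    (ebc : lb * rc = v) (ecb : lc * rb = v) (eba : lb * ra = y) (eab : la * rb = z) : y = z := by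
  have hla : la = a3 * Q⁻¹ := by rw [← ea1]; group
  have hlb : lb = b3 * Q⁻¹ := by rw [← eb1]; group
  have hlc : lc = c3 * Q⁻¹ := by rw [← ec1]; group
  have hlt : lt = t3 * Q⁻¹ := by rw [← et1]; group
  have hra : ra = P⁻¹ * a3 := by rw [← e1a]; group
  have hrb : rb = P⁻¹ * b3 := by rw [← e1b]; group
  have hrc : rc = P⁻¹ * c3 := by rw [← e1c]; group
  have hrt : rt = P⁻¹ * t3 := by rw [← e1t]; group
  rw [hla, hra] at eaa
  rw [hlt, hra] at eta
  rw [hlc, hrt] at ect
  rw [hlb, hrc] at ebc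
  rw [hlc, hrb] at ecb
  rw [hlb, hra] at eba
  rw [hla, hrb] at eab
  have hR' : R⁻¹ = Q⁻¹ * P⁻¹ := by rw [← e11]; group
  have g : ∀ p q : G, (p * R⁻¹) * (q * R⁻¹) = (p * Q⁻¹ * (P⁻¹ * q)) * R⁻¹ := by
    intro p q; rw [hR']; group
  have k1 : (a3 * R⁻¹) * (a3 * R⁻¹) = c3 * R⁻¹ := by rw [g, eaa]
  have k2 : (t3 * R⁻¹) * (a3 * R⁻¹) = (c3 * R⁻¹) * (t3 * R⁻¹) := by rw [g, g, eta, ect]
  have k3 : (b3 * R⁻¹) * (c3 * R⁻¹) = (c3 * R⁻¹) * (b3 * R⁻¹) := by rw [g, g, ebc, ecb]
  have k4 := finite_contra (a3 * R⁻¹) (b3 * R⁻¹) (c3 * R⁻¹) (t3 * R⁻¹) k1 k2 k3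
  rw [g, g, eba, eab] at k4
  exact mul_right_cancel k4

/-- Main combinatorial lemma: the indexed configuration cannot be realised over a finite group.
Indices: `0,1,2` joints; `3..7` left copies of `1,a,b,c,t`; `8..12` right copies;
`13..21` copies of `1,a,b,c,t,u,v,y,z`. -/
theorem no_finite {G : Type} [Group G] [Finite G] (F : Fin 22 → Pt G) (hF : Function.Injective F)
    (hJ : ¬ Dep3 (F 0) (F 1) (F 2))
    (hL : ∀ p : Fin 22, 3 ≤ p → p ≤ 7 → Dep3 (F 0) (F 1) (F p))
    (hR : ∀ p : Fin 22, 8 ≤ p → p ≤ 12 → Dep3 (F 1) (F 2) (F p))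
    (hP : ∀ p : Fin 22, 13 ≤ p → Dep3 (F 0) (F 2) (F p))
    (t11 : Dep3 (F 3) (F 8) (F 13))
    (t1a : Dep3 (F 3) (F 9) (F 14)) (ta1 : Dep3 (F 4) (F 8) (F 14))
    (t1b : Dep3 (F 3) (F 10) (F 15)) (tb1 : Dep3 (F 5) (F 8) (F 15))
    (t1c : Dep3 (F 3) (F 11) (F 16)) (tc1 : Dep3 (F 6) (F 8) (F 16))
    (t1t : Dep3 (F 3) (F 12) (F 17)) (tt1 : Dep3 (F 7) (F 8) (F 17))
    (taa : Dep3 (F 4) (F 9) (F 16))
    (tta : Dep3 (F 7) (F 9) (F 18)) (tct : Dep3 (F 6) (F 12) (F 18))
    (tbc : Dep3 (F 5) (F 11) (F 19)) (tcb : Dep3 (F 6) (F 10) (F 19))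
    (tba : Dep3 (F 5) (F 9) (F 20)) (tab : Dep3 (F 4) (F 10) (F 21)) : False := by
  have ne : ∀ p q : Fin 22, p ≠ q → F p ≠ F q := fun p q h => hF.ne h
  obtain ⟨i2, h20, h21⟩ := L4 (ne 0 1 (by decide)) (ne 3 4 (by decide)) (ne 3 0 (by decide))
    (ne 3 1 (by decide)) (ne 4 0 (by decide)) (ne 4 1 (by decide)) (hL 3 (by decide) (by decide))
    (hL 4 (by decide) (by decide))
  obtain ⟨i0, h01, h02⟩ := L4 (ne 1 2 (by decide)) (ne 8 9 (by decide)) (ne 8 1 (by decide))
    (ne 8 2 (by decide)) (ne 9 1 (by decide)) (ne 9 2 (by decide)) (hR 8 (by decide) (by decide))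
    (hR 9 (by decide) (by decide))
  obtain ⟨i1, h10, h12⟩ := L4 (ne 0 2 (by decide)) (ne 13 14 (by decide)) (ne 13 0 (by decide))
    (ne 13 2 (by decide)) (ne 14 0 (by decide)) (ne 14 2 (by decide)) (hP 13 (by decide))
    (hP 14 (by decide))
  have hall : ∀ i, i ∈ V (F 0) ∨ i ∈ V (F 1) ∨ i ∈ V (F 2) := by
    intro i
    by_contra hc
    push Not at hc
    exact hJ (Or.inl ⟨i, hc.1, hc.2.1, hc.2.2⟩)
  have m0 : i0 ∈ V (F 0) := by
    rcases hall i0 with h | h | h
    · exact h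
    · exact absurd h h01
    · exact absurd h h02
  have m1 : i1 ∈ V (F 1) := by
    rcases hall i1 with h | h | h
    · exact absurd h h10
    · exact h
    · exact absurd h h12
  have m2 : i2 ∈ V (F 2) := by
    rcases hall i2 with h | h | h
    · exact absurd h h20
    · exact absurd h h21
    · exact h
  have n01 : i0 ≠ i1 := by rintro rfl; exact h10 m0
  have n02 : i0 ≠ i2 := by rintro rfl; exact h20 m0
  have n12 : i1 ≠ i2 := by rintro rfl; exact h21 m1
  have F0 : F 0 = Sum.inl i0 := joint_of n01 n12 n02 h10 h20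
  have F1 : F 1 = Sum.inl i1 := joint_of n01.symm n02 n12 h01 h21
  have F2 : F 2 = Sum.inl i2 := joint_of n02.symm n01 n12.symm h02 h12
  have iL : ∀ p : Fin 22, 3 ≤ p → p ≤ 7 → ∃ x, F p = Sum.inr x ∧ V (F p) = {i0, i1} := by
    intro p hp hp'
    refine internal_of n01 n12 n02 (line_coord (ne 0 1 (by decide)) h20 h21 (hL p hp hp')) ?_ ?_
    · rw [← F0]; exact ne _ _ (by rintro rfl; revert hp; decide)
    · rw [← F1]; exact ne _ _ (by rintro rfl; revert hp; decide)
  have iR : ∀ p : Fin 22, 8 ≤ p → p ≤ 12 → ∃ x, F p = Sum.inr x ∧ V (F p) = {i1, i2} := by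
    intro p hp hp'
    refine internal_of n12 n02.symm n01.symm (line_coord (ne 1 2 (by decide)) h01 h02
      (hR p hp hp')) ?_ ?_
    · rw [← F1]; exact ne _ _ (by rintro rfl; revert hp; decide)
    · rw [← F2]; exact ne _ _ (by rintro rfl; revert hp; decide)
  have iP : ∀ p : Fin 22, 13 ≤ p → ∃ x, F p = Sum.inr x ∧ V (F p) = {i0, i2} := by
    intro p hp
    refine internal_of n02 n12.symm n01 (line_coord (ne 0 2 (by decide)) h10 h12 (hP p hp)) ?_ ?_
    · rw [← F0]; exact ne _ _ (by rintro rfl; revert hp; decide)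
    · rw [← F2]; exact ne _ _ (by rintro rfl; revert hp; decide)
  have T : ∀ p q r : Fin 22, 3 ≤ p → p ≤ 7 → 8 ≤ q → q ≤ 12 → 13 ≤ r → Dep3 (F p) (F q) (F r) →
      gain (F p) i0 * gain (F q) i1 = gain (F r) i0 := by
    intro p q r h1 h2 h3 h4 h5 h6
    obtain ⟨x, _, hx⟩ := iL p h1 h2
    obtain ⟨y, _, hy⟩ := iR q h3 h4
    obtain ⟨z, _, hz⟩ := iP r h5
    exact tri n01 n12 n02 hx hy hz h6
  have e11 := T 3 8 13 (by decide) (by decide) (by decide) (by decide) (by decide) t11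
  have e1a := T 3 9 14 (by decide) (by decide) (by decide) (by decide) (by decide) t1a
  have ea1 := T 4 8 14 (by decide) (by decide) (by decide) (by decide) (by decide) ta1
  have e1b := T 3 10 15 (by decide) (by decide) (by decide) (by decide) (by decide) t1b
  have eb1 := T 5 8 15 (by decide) (by decide) (by decide) (by decide) (by decide) tb1
  have e1c := T 3 11 16 (by decide) (by decide) (by decide) (by decide) (by decide) t1c
  have ec1 := T 6 8 16 (by decide) (by decide) (by decide) (by decide) (by decide) tc1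
  have e1t := T 3 12 17 (by decide) (by decide) (by decide) (by decide) (by decide) t1t
  have et1 := T 7 8 17 (by decide) (by decide) (by decide) (by decide) (by decide) tt1
  have eaa := T 4 9 16 (by decide) (by decide) (by decide) (by decide) (by decide) taa
  have eta := T 7 9 18 (by decide) (by decide) (by decide) (by decide) (by decide) tta
  have ect := T 6 12 18 (by decide) (by decide) (by decide) (by decide) (by decide) tct
  have ebc := T 5 11 19 (by decide) (by decide) (by decide) (by decide) (by decide) tbc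
  have ecb := T 6 10 19 (by decide) (by decide) (by decide) (by decide) (by decide) tcb
  have eba := T 5 9 20 (by decide) (by decide) (by decide) (by decide) (by decide) tba
  have eab := T 4 10 21 (by decide) (by decide) (by decide) (by decide) (by decide) tab
  have k5 : gain (F 20) i0 = gain (F 21) i0 :=
    alg e11 e1a ea1 e1b eb1 e1c ec1 e1t et1 eaa eta ect ebc ecb eba eab
  obtain ⟨x, hx, hxV⟩ := iP 20 (by decide)
  obtain ⟨y, hy, hyV⟩ := iP 21 (by decide)
  have h20' : F 20 ≠ F 21 := ne _ _ (by decide)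
  rw [hx] at hxV k5 h20'
  rw [hy] at hyV k5 h20'
  exact h20' (by rw [gain_inj n02 hxV hyV k5])

end Pool.Agent.H277R2.Dowling
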