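import Mathlib
import Pool.Agent.H277R2.Dowling3

set_option autoImplicit false

namespace Pool.Agent.H277R2.Dowling

open Set

def pa : Equiv.Perm ℚ := Equiv.addRight 1

def pt : Equiv.Perm ℚ := Equiv.mulRight₀ (2 : ℚ) (by norm_num)

theorem floor_add_ten (x : ℚ) : ⌊x + 10⌋ = ⌊x⌋ + 10 := by
  exact_mod_cast Int.floor_add_intCast x 10

theorem floor_add_twenty (x : ℚ) : ⌊x + 20⌋ = ⌊x⌋ + 20 := by
  exact_mod_cast Int.floor_add_intCast x 20

theorem floor_sub_ten (x : ℚ) : ⌊x - 10⌋ = ⌊x⌋ - 10 := by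
  exact_mod_cast Int.floor_sub_intCast x 10

theorem floor_sub_twenty (x : ℚ) : ⌊x - 20⌋ = ⌊x⌋ - 20 := by
  exact_mod_cast Int.floor_sub_intCast x 20

theorem floor_add_two (x : ℚ) : ⌊x + 2⌋ = ⌊x⌋ + 2 := by
  exact_mod_cast Int.floor_add_intCast x 2

def pb : Equiv.Perm ℚ where
  toFun x := if Even ⌊x⌋ then x + 10 else x + 20
  invFun x := if Even ⌊x⌋ then x - 10 else x - 20
  left_inv := by
    intro x
    by_cases h : Even ⌊x⌋
    · have h2 : Even ⌊x + 10⌋ := by
        rw [floor_add_ten]; exact h.add (by decide)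
      simp only [h, h2, if_true]; ring
    · have h2 : ¬ Even ⌊x + 20⌋ := by
        rw [floor_add_twenty, Int.even_add]
        intro hc
        exact h (hc.mpr (by decide))
      simp only [h, h2, if_false]; ring
  right_inv := by
    intro x
    by_cases h : Even ⌊x⌋
    · have h2 : Even ⌊x - 10⌋ := by
        rw [floor_sub_ten]; exact h.sub (by decide)
      simp only [h, h2, if_true]; ring
    · have h2 : ¬ Even ⌊x - 20⌋ := by
        rw [floor_sub_twenty, Int.even_sub]
        intro hc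
        exact h (hc.mpr (by decide))
      simp only [h, h2, if_false]; ring

theorem pa_apply (x : ℚ) : pa x = x + 1 := rfl
theorem pt_apply (x : ℚ) : pt x = x * 2 := rfl
theorem pb_apply (x : ℚ) : pb x = if Even ⌊x⌋ then x + 10 else x + 20 := rfl

theorem rel_t : pt * pa = (pa * pa) * pt := by
  ext x
  simp only [Equiv.Perm.mul_apply, pa_apply, pt_apply]
  ring

theorem rel_b : pb * (pa * pa) = (pa * pa) * pb := by
  ext x
  simp only [Equiv.Perm.mul_apply, pa_apply, pb_apply]
  have e : x + 1 + 1 = x + 2 := by ring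
  rw [e, floor_add_two]
  have h2 : Even (⌊x⌋ + 2) ↔ Even ⌊x⌋ := by
    rw [Int.even_add]
    constructor
    · intro h; exact h.mpr (by decide)
    · intro h; exact ⟨fun _ => by decide, fun _ => h⟩
  by_cases h : Even ⌊x⌋
  · rw [if_pos (h2.mpr h), if_pos h]; ring
  · rw [if_neg (fun hc => h (h2.mp hc)), if_neg h]; ring

def e01 : Edge := ⟨(0, 1), by decide⟩
def e12 : Edge := ⟨(1, 2), by decide⟩
def e02 : Edge := ⟨(0, 2), by decide⟩

def f : Fin 22 → Pt (Equiv.Perm ℚ) :=
  ![Sum.inl 0, Sum.inl 1, Sum.inl 2,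
    Sum.inr (1, e01), Sum.inr (pa, e01), Sum.inr (pb, e01), Sum.inr (pa * pa, e01),
    Sum.inr (pt, e01),
    Sum.inr (1, e12), Sum.inr (pa, e12), Sum.inr (pb, e12), Sum.inr (pa * pa, e12),
    Sum.inr (pt, e12),
    Sum.inr (1, e02), Sum.inr (pa, e02), Sum.inr (pb, e02), Sum.inr (pa * pa, e02),
    Sum.inr (pt, e02), Sum.inr (pt * pa, e02), Sum.inr (pb * (pa * pa), e02),
    Sum.inr (pb * pa, e02), Sum.inr (pa * pb, e02)]

def code (x : Pt (Equiv.Perm ℚ)) : Fin 3 ⊕ (Edge × ℚ) :=
  Sum.map id (fun y => (y.2, y.1 100)) x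

def fv : Fin 22 → Fin 3 ⊕ (Edge × ℚ) :=
  ![Sum.inl 0, Sum.inl 1, Sum.inl 2,
    Sum.inr (e01, 100), Sum.inr (e01, 101), Sum.inr (e01, 110), Sum.inr (e01, 102),
    Sum.inr (e01, 200),
    Sum.inr (e12, 100), Sum.inr (e12, 101), Sum.inr (e12, 110), Sum.inr (e12, 102),
    Sum.inr (e12, 200),
    Sum.inr (e02, 100), Sum.inr (e02, 101), Sum.inr (e02, 110), Sum.inr (e02, 102),
    Sum.inr (e02, 200), Sum.inr (e02, 202), Sum.inr (e02, 112),
    Sum.inr (e02, 121), Sum.inr (e02, 111)]

theorem fv_inj : Function.Injective fv := by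
  decide +kernel

theorem v1 : pb 100 = 110 := by
  rw [pb_apply]
  have h : ⌊(100 : ℚ)⌋ = 100 := by norm_num
  rw [h, if_pos (by decide)]; norm_num
theorem v2 : pb 102 = 112 := by
  rw [pb_apply]
  have h : ⌊(102 : ℚ)⌋ = 102 := by norm_num
  rw [h, if_pos (by decide)]; norm_num
theorem v3 : pb 101 = 121 := by
  rw [pb_apply]
  have h : ⌊(101 : ℚ)⌋ = 101 := by norm_num
  rw [h, if_neg (by decide)]; norm_num
theorem v4 : pa 100 = 101 := by rw [pa_apply]; norm_num
theorem v5 : pa 101 = 102 := by rw [pa_apply]; norm_num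
theorem v6 : pa 110 = 111 := by rw [pa_apply]; norm_num
theorem v7 : pt 100 = 200 := by rw [pt_apply]; norm_num
theorem v8 : pt 101 = 202 := by rw [pt_apply]; norm_num

theorem code_f : ∀ i, code (f i) = fv i := by
  intro i
  fin_cases i <;> simp [code, f, fv, v1, v2, v3, v4, v5, v6, v7, v8]

theorem f_inj : Function.Injective f := by
  intro i j h
  apply fv_inj
  rw [← code_f, ← code_f, h]

theorem depT {A : Type} [Group A] {s s' m : A} (h : s * s' = m) :
    Dep3 (Sum.inr (s, e01) : Pt A) (Sum.inr (s', e12)) (Sum.inr (m, e02)) := by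
  right
  refine ⟨![s, 1, s'⁻¹], (s, e01), (s', e12), (m, e02), rfl, rfl, rfl, ?_, ?_, ?_⟩
  · simp [e01]
  · simp [e12]
  · simp [e02, h]

theorem dep01 {A : Type} [Group A] {x y z : Pt A} (hx : (2 : Fin 3) ∉ V x) (hy : (2 : Fin 3) ∉ V y)
    (hz : (2 : Fin 3) ∉ V z) : Dep3 x y z := Or.inl ⟨2, hx, hy, hz⟩

/-- main contradiction -/
theorem main {G : Type} [Group G] [Finite G] (F : Fin 22 → Pt G) (hF : Function.Injective F)
    (H : ∀ X : Set (Fin 22), QI (Equiv.Perm ℚ) (f '' X) ↔ QI G (F '' X)) : False := by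
  have H3 : ∀ p q r : Fin 22, p ≠ q → q ≠ r → p ≠ r →
      (Dep3 (f p) (f q) (f r) ↔ Dep3 (F p) (F q) (F r)) := by
    intro p q r h1 h2 h3
    have h4 := H {p, q, r}
    rw [image_insert_eq, image_pair, image_insert_eq, image_pair,
      QI_triple (f_inj.ne h1) (f_inj.ne h2) (f_inj.ne h3),
      QI_triple (hF.ne h1) (hF.ne h2) (hF.ne h3)] at h4
    exact not_iff_not.mp h4
  have D : ∀ p q r : Fin 22, p ≠ q → q ≠ r → p ≠ r → Dep3 (f p) (f q) (f r) →
      Dep3 (F p) (F q) (F r) := fun p q r h1 h2 h3 h => (H3 p q r h1 h2 h3).mp h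
  refine no_finite F hF ?_ ?_ ?_ ?_
    (D 3 8 13 (by decide) (by decide) (by decide) (depT (by simp)))
    (D 3 9 14 (by decide) (by decide) (by decide) (depT (by simp)))
    (D 4 8 14 (by decide) (by decide) (by decide) (depT (by simp)))
    (D 3 10 15 (by decide) (by decide) (by decide) (depT (by simp)))
    (D 5 8 15 (by decide) (by decide) (by decide) (depT (by simp)))
    (D 3 11 16 (by decide) (by decide) (by decide) (depT (by simp)))
    (D 6 8 16 (by decide) (by decide) (by decide) (depT (by simp)))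
    (D 3 12 17 (by decide) (by decide) (by decide) (depT (by simp)))
    (D 7 8 17 (by decide) (by decide) (by decide) (depT (by simp)))
    (D 4 9 16 (by decide) (by decide) (by decide) (depT rfl))
    (D 7 9 18 (by decide) (by decide) (by decide) (depT rfl))
    (D 6 12 18 (by decide) (by decide) (by decide) (depT rel_t.symm))
    (D 5 11 19 (by decide) (by decide) (by decide) (depT rfl))
    (D 6 10 19 (by decide) (by decide) (by decide) (depT rel_b.symm))
    (D 5 9 20 (by decide) (by decide) (by decide) (depT rfl))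
    (D 4 10 21 (by decide) (by decide) (by decide) (depT rfl))
  · rw [← H3 0 1 2 (by decide) (by decide) (by decide)]
    rintro (⟨i, h1, h2, h3⟩ | ⟨φ, x, y, z, h1, _⟩)
    · simp only [f, V] at h1 h2 h3
      fin_cases i <;> simp at h1 h2 h3
    · simp [f] at h1
  · intro p hp hp'
    refine D 0 1 p (by decide) (by rintro rfl; revert hp; decide) (by rintro rfl; revert hp; decide)
      (Or.inl ⟨2, ?_, ?_, ?_⟩)
    · simp [f, V]
    · simp [f, V]
    · fin_cases p <;> first | (exfalso; revert hp hp'; decide) | simp [f, V, e01]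
  · intro p hp hp'
    refine D 1 2 p (by decide) (by rintro rfl; revert hp; decide) (by rintro rfl; revert hp; decide)
      (Or.inl ⟨0, ?_, ?_, ?_⟩)
    · simp [f, V]
    · simp [f, V]
    · fin_cases p <;> first | (exfalso; revert hp hp'; decide) | simp [f, V, e12]
  · intro p hp
    refine D 0 2 p (by decide) (by rintro rfl; revert hp; decide) (by rintro rfl; revert hp; decide)
      (Or.inl ⟨1, ?_, ?_, ?_⟩)
    · simp [f, V]
    · simp [f, V]
    · fin_cases p <;> first | (exfalso; revert hp; decide) | simp [f, V, e02]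

theorem perm_infinite : Infinite (Equiv.Perm ℚ) := by
  refine Infinite.of_injective (fun q : ℚ => (Equiv.addRight q : Equiv.Perm ℚ)) ?_
  intro p q h
  have := congrArg (fun g : Equiv.Perm ℚ => g 0) h
  simpa using this

end Pool.Agent.H277R2.Dowling
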