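import Mathlib

set_option autoImplicit false

namespace Pool.Agent.H277R2.OM

variable {α : Type*}

/-- composition of sign vectors -/
def cmp (X Y : α → SignType) : α → SignType := fun e => if X e = 0 then Y e else X e

theorem cmp_zero_iff (X Y : α → SignType) (e : α) : cmp X Y e = 0 ↔ X e = 0 ∧ Y e = 0 := by
  unfold cmp; split_ifs with h <;> simp [h]

theorem cmp_of_ne {X Y : α → SignType} {e : α} (h : X e ≠ 0) : cmp X Y e = X e := by
  simp [cmp, h]

theorem cmp_of_eq {X Y : α → SignType} {e : α} (h : X e = 0) : cmp X Y e = Y e := by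
  simp [cmp, h]

/-- covector axioms -/
structure IsOM (L : Set (α → SignType)) : Prop where
  zero : (0 : α → SignType) ∈ L
  neg : ∀ X ∈ L, -X ∈ L
  comp : ∀ X ∈ L, ∀ Y ∈ L, cmp X Y ∈ L
  elim : ∀ X ∈ L, ∀ Y ∈ L, ∀ e, X e ≠ 0 → X e = -Y e →
    ∃ Z ∈ L, Z e = 0 ∧ ∀ f, (X f = 0 ∨ X f ≠ -Y f) → Z f = cmp X Y f

/-- the order of sign vectors -/
def Le (X Y : α → SignType) : Prop := ∀ e, X e ≠ 0 → Y e = X e

theorem Le.refl (X : α → SignType) : Le X X := fun _ _ => rfl

theorem Le.trans {X Y Z : α → SignType} (h1 : Le X Y) (h2 : Le Y Z) : Le X Z := by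
  intro e he
  have := h1 e he
  rw [h2 e (by rw [this]; exact he), this]

theorem Le.antisymm {X Y : α → SignType} (h1 : Le X Y) (h2 : Le Y X) : X = Y := by
  funext e
  by_cases h : X e = 0
  · by_contra hne
    have hY : Y e ≠ 0 := fun h' => hne (by rw [h, h'])
    have := h2 e hY
    rw [h] at this
    exact hY this.symm
  · exact (h1 e h).symm

theorem Le.zero_of {X Y : α → SignType} (h : Le X Y) {e : α} (hY : Y e = 0) : X e = 0 := by
  by_contra hX
  have := h e hX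
  rw [hY] at this
  exact hX this.symm

theorem Le.zero (X : α → SignType) : Le 0 X := fun e he => absurd rfl he

theorem Le.neg {X Y : α → SignType} (h : Le X Y) : Le (-X) (-Y) := by
  intro e he
  have : X e ≠ 0 := by
    intro h0; apply he; simp [h0]
  simp [h e this]

/-- if `X ≤ Y`, `X ≠ Y` there is an element in the support of `Y` but not of `X` -/
theorem Le.exists_of_ne {X Y : α → SignType} (h : Le X Y) (hne : X ≠ Y) :
    ∃ e, X e = 0 ∧ Y e ≠ 0 := by
  by_contra hcon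
  push Not at hcon
  apply hne
  apply Le.antisymm h
  intro e he
  by_contra hne'
  have hX : X e = 0 := by
    by_contra h0
    exact hne' (h e h0).symm
  exact he (hcon e hX)

theorem le_cmp (X Y : α → SignType) : Le X (cmp X Y) := fun e he => cmp_of_ne he

theorem cmp_le {X Y Z : α → SignType} (h1 : Le X Z) (h2 : Le Y Z) : Le (cmp X Y) Z := by
  intro e he
  by_cases h : X e = 0
  · rw [cmp_of_eq h] at he ⊢; exact h2 e he
  · rw [cmp_of_ne h]; exact h1 e h

theorem le_cmp_of_le {X Y Z : α → SignType} (h1 : Le X Y) (h2 : Le X Z) : Le X (cmp Y Z) := by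
  intro e he
  rw [cmp_of_ne (by rw [h1 e he]; exact he)]
  exact h1 e he

variable {L : Set (α → SignType)}

theorem sg1 : ∀ a b : SignType, a ≠ 0 → a = -b → b ≠ 0 := by decide
theorem sg2 : ∀ a : SignType, a ≠ 0 → a ≠ -a := by decide
theorem sg3 : ∀ a b : SignType, b ≠ 0 → a ≠ -b → a = 0 ∨ a = b := by decide
theorem sg4 : ∀ a b : SignType, a ≠ 0 → b ≠ 0 → a = -b ∨ a = b := by decide
theorem sg5 : ∀ a b : SignType, a = -b → b = -a := by decide
theorem sg6 : ∀ a : SignType, a = 0 ∨ a = 1 ∨ a = -1 := by decide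
theorem sg7 : ∀ a b : SignType, (a = 0 ∨ a ≠ -b) → (b ≠ 0 → (a = 0 ∨ a = b)) := by decide

/-- conformal elimination -/
theorem conf [Fintype α] (hL : IsOM L) {X Y : α → SignType} (hX : X ∈ L) (hY : Y ∈ L)
    (hS : ∃ e, X e ≠ 0 ∧ X e = -Y e) :
    ∃ Z ∈ L, (∀ f, (X f = 0 ∨ X f ≠ -Y f) → Z f = cmp X Y f) ∧
      (∀ f, X f ≠ 0 → X f = -Y f → Z f = 0 ∨ Z f = X f) ∧
      (∃ f, X f ≠ 0 ∧ X f = -Y f ∧ Z f = 0) := by
  classical
  have key : ∀ k : ℕ, ∀ W ∈ L, (Finset.univ.filter (fun f => X f ≠ 0 ∧ X f = - W f)).card = k →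
      (∀ f, (X f = 0 ∨ X f ≠ -Y f) → W f = cmp X Y f) →
      (∃ f, X f ≠ 0 ∧ X f = -Y f ∧ W f ≠ X f) →
      ∃ Z ∈ L, (∀ f, (X f = 0 ∨ X f ≠ -Y f) → Z f = cmp X Y f) ∧
      (∀ f, X f ≠ 0 → X f = -Y f → Z f = 0 ∨ Z f = X f) ∧
      (∃ f, X f ≠ 0 ∧ X f = -Y f ∧ Z f = 0) := by
    intro k
    induction k using Nat.strong_induction_on with
    | _ k ih =>
      intro W hW hk hoff hne
      by_cases hemp : ∃ e, X e ≠ 0 ∧ X e = - W e
      · obtain ⟨e, he0, he⟩ := hemp
        obtain ⟨V, hV, hVe, hVf⟩ := hL.elim X hX W hW e he0 he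
        have heS : X e = -Y e := by
          by_contra hcon
          have := hoff e (Or.inr hcon)
          rw [cmp_of_ne he0] at this
          rw [this] at he
          exact sg2 _ he0 he
        refine ih _ ?_ V hV rfl ?_ ?_
        · rw [← hk]
          apply Finset.card_lt_card
          rw [Finset.ssubset_iff_of_subset]
          · refine ⟨e, ?_, ?_⟩
            · simp only [Finset.mem_filter, Finset.mem_univ, true_and]; exact ⟨he0, he⟩
            · simp only [Finset.mem_filter, Finset.mem_univ, true_and, hVe]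
              rintro ⟨h1, h2⟩
              exact h1 (by simpa using h2)
          · intro f hf
            simp only [Finset.mem_filter, Finset.mem_univ, true_and] at hf ⊢
            refine ⟨hf.1, ?_⟩
            by_contra hcon
            have := hVf f (Or.inr hcon)
            rw [cmp_of_ne hf.1] at this
            rw [this] at hf
            exact sg2 _ hf.1 hf.2
        · intro f hf
          by_cases h0 : X f = 0
          · rw [hVf f (Or.inl h0), cmp_of_eq h0, hoff f hf]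
          · have h1 : W f = X f := by
              rw [hoff f hf, cmp_of_ne h0]
            rw [hVf f (Or.inr (by rw [h1]; exact sg2 _ h0)), cmp_of_ne h0, cmp_of_ne h0]
        · exact ⟨e, he0, heS, by rw [hVe]; exact fun h => he0 h.symm⟩
      · push Not at hemp
        have hle : ∀ f, X f ≠ 0 → X f = -Y f → W f = 0 ∨ W f = X f := by
          intro f hf _
          exact sg3 _ _ hf (fun h => hemp f hf (sg5 _ _ h))
        refine ⟨W, hW, hoff, hle, ?_⟩
        obtain ⟨f, hf1, hf2, hf3⟩ := hne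
        exact ⟨f, hf1, hf2, (hle f hf1 hf2).resolve_right hf3⟩
  refine key _ (cmp Y X) (hL.comp Y hY X hX) rfl ?_ ?_
  · intro f hf
    by_cases hY0 : Y f = 0
    · rw [cmp_of_eq hY0]
      by_cases hX0 : X f = 0
      · rw [cmp_of_eq hX0, hX0, hY0]
      · rw [cmp_of_ne hX0]
    · rw [cmp_of_ne hY0]
      rcases sg7 _ _ hf hY0 with h | h
      · rw [cmp_of_eq h]
      · rw [cmp_of_ne (by rw [h]; exact hY0), h]
  · obtain ⟨e, he0, he⟩ := hS
    refine ⟨e, he0, he, ?_⟩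
    have hYe : Y e ≠ 0 := sg1 _ _ he0 he
    rw [cmp_of_ne hYe]
    intro h
    rw [← h] at he
    exact sg2 _ hYe he

/-- cover relation in `L` -/
structure Cov (L : Set (α → SignType)) (Y X : α → SignType) : Prop where
  memY : Y ∈ L
  memX : X ∈ L
  le : Le Y X
  ne : Y ≠ X
  mid : ∀ Z ∈ L, Le Y Z → Le Z X → Z = Y ∨ Z = X

theorem Cov.neg (hL : IsOM L) {Y X : α → SignType} (h : Cov L Y X) : Cov L (-Y) (-X) := by
  refine ⟨hL.neg _ h.memY, hL.neg _ h.memX, h.le.neg, fun h' => h.ne (neg_injective h'), ?_⟩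
  intro Z hZ h1 h2
  have h1' := h1.neg
  have h2' := h2.neg
  rw [neg_neg] at h1' h2'
  rcases h.mid (-Z) (hL.neg _ hZ) h1' h2' with h | h
  · left; rw [← h, neg_neg]
  · right; rw [← h, neg_neg]

theorem cov_flat [Fintype α] (hL : IsOM L) {Y Z : α → SignType} (hc : Cov L Y Z)
    {V : α → SignType} (hV : V ∈ L) (hZV : ∀ f, Z f = 0 → V f = 0) :
    (∀ f, Y f = 0 → V f = 0) ∨ (∀ f, Y f = 0 → V f = 0 → Z f = 0) := by
  have hV' : cmp Y V ∈ L := hL.comp _ hc.memY _ hV
  by_cases hle : Le (cmp Y V) Z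
  · rcases hc.mid _ hV' (le_cmp _ _) hle with h | h
    · left
      intro f hf
      have := congrFun h f
      rwa [cmp_of_eq hf, hf] at this
    · right
      intro f h1 h2
      rw [← h, cmp_of_eq h1, h2]
  · right
    have hsep : ∃ e, Z e ≠ 0 ∧ Z e = -(cmp Y V) e := by
      unfold Le at hle
      push Not at hle
      obtain ⟨e, he1, he2⟩ := hle
      have hZe : Z e ≠ 0 := by
        intro h0
        apply he1
        rw [cmp_zero_iff]
        exact ⟨hc.le.zero_of h0, hZV e h0⟩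
      exact ⟨e, hZe, (sg4 _ _ hZe he1).resolve_right he2⟩
    obtain ⟨U, hU, hU1, hU2, g, hg1, hg2, hg3⟩ := conf hL hc.memX hV' hsep
    have hYU : Le Y U := by
      intro f hf
      have hZf : Z f = Y f := hc.le f hf
      have h1 : cmp Y V f = Y f := cmp_of_ne hf
      rw [hU1 f (Or.inr (by rw [h1, hZf]; exact sg2 _ hf)), cmp_of_ne (by rw [hZf]; exact hf), hZf]
    have hUZ : Le U Z := by
      intro f hf
      by_cases h : Z f = 0 ∨ Z f ≠ -(cmp Y V) f
      · have hUf := hU1 f h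
        by_cases hZ0 : Z f = 0
        · rw [cmp_of_eq hZ0] at hUf
          rw [hUf] at hf
          exfalso
          apply hf
          rw [cmp_zero_iff]
          exact ⟨hc.le.zero_of hZ0, hZV f hZ0⟩
        · rw [hUf, cmp_of_ne hZ0]
      · push Not at h
        rcases hU2 f h.1 h.2 with h' | h'
        · exact absurd h' hf
        · exact h'.symm
    have hUY : U = Y := by
      rcases hc.mid U hU hYU hUZ with h | h
      · exact h
      · exfalso
        rw [h] at hg3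
        exact hg1 hg3
    intro f hYf hVf
    by_contra hZf
    have h0 : cmp Y V f = 0 := by rw [cmp_zero_iff]; exact ⟨hYf, hVf⟩
    have := hU1 f (Or.inr (by rw [h0]; simpa using hZf))
    rw [cmp_of_ne hZf, hUY, hYf] at this
    exact hZf this.symm

theorem gap [Fintype α] (hL : IsOM L) {W Y Z : α → SignType} (hWY : Cov L W Y) (hYZ : Cov L Y Z)
    {K K' : α → SignType} (hK : K ∈ L) (hK' : K' ∈ L)
    (h1 : ∀ f, Z f = 0 → K' f = 0) (h2 : ∀ f, K' f = 0 → K f = 0) (h3 : ∀ f, K f = 0 → W f = 0)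
    {x y w : α} (hx : K' x = 0) (hx' : Z x ≠ 0) (hy : K y = 0) (hy' : K' y ≠ 0)
    (hw : W w = 0) (hw' : K w ≠ 0) : False := by
  rcases cov_flat hL hYZ hK (fun f hf => h2 f (h1 f hf)) with hA | hB
  · rcases cov_flat hL hWY hK hA with h | h
    · exact hw' (h w hw)
    · have hKY : ∀ f, K f = 0 → Y f = 0 := fun f hf => h f (h3 f hf) hf
      rcases cov_flat hL hYZ hK' h1 with h' | h'
      · exact hy' (h' y (hKY y hy))
      · exact hx' (h' x (hKY x (h2 x hx)) hx)
  · obtain ⟨h, hh1, hh2⟩ := hYZ.le.exists_of_ne hYZ.ne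
    have hKh : K h ≠ 0 := fun h0 => hh2 (hB h hh1 h0)
    have hK'h : K' h ≠ 0 := fun h0 => hKh (h2 h h0)
    obtain ⟨K₁, hK₁, hK₁h, hK₁z⟩ : ∃ K₁ ∈ L, K' h = -K₁ h ∧ ∀ f, K f = 0 → K₁ f = 0 := by
      rcases sg4 _ _ hK'h hKh with h' | h'
      · exact ⟨K, hK, h', fun f hf => hf⟩
      · refine ⟨-K, hL.neg _ hK, by simpa using h', fun f hf => by simp [hf]⟩
    obtain ⟨V, hV, hVh, hVf⟩ := hL.elim K' hK' K₁ hK₁ h hK'h hK₁h
    have hVG : ∀ f, Z f = 0 → V f = 0 := by
      intro f hf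
      rw [hVf f (Or.inl (h1 f hf)), cmp_zero_iff]
      exact ⟨h1 f hf, hK₁z f (h2 f (h1 f hf))⟩
    have hVx : V x = 0 := by
      rw [hVf x (Or.inl hx), cmp_zero_iff]
      exact ⟨hx, hK₁z x (h2 x hx)⟩
    have hVy : V y ≠ 0 := by
      rw [hVf y (Or.inr (by rw [hK₁z y hy]; simpa using hy')), cmp_of_ne hy']
      exact hy'
    rcases cov_flat hL hYZ hV hVG with h' | h'
    · rcases cov_flat hL hWY hV h' with h'' | h''
      · exact hVy (h'' y (h3 y hy))
      · have : Y x = 0 := h'' x (h3 x (h2 x hx)) hVx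
        exact hx' (hB x this (h2 x hx))
    · exact hh2 (h' h hh1 hVh)

theorem mid_cov [Fintype α] (hL : IsOM L) {W Y X V : α → SignType} (hWY : Cov L W Y)
    (hYX : Cov L Y X) (hV : V ∈ L) (hWV : Le W V) (hVX : Le V X) (hne1 : W ≠ V) (hne2 : V ≠ X) :
    Cov L W V ∧ Cov L V X := by
  constructor
  · refine ⟨hWY.memY, hV, hWV, hne1, ?_⟩
    intro K hK hWK hKV
    by_contra hcon
    push Not at hcon
    obtain ⟨x, hx1, hx2⟩ := hVX.exists_of_ne hne2
    obtain ⟨y, hy1, hy2⟩ := hKV.exists_of_ne hcon.2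
    obtain ⟨w, hw1, hw2⟩ := hWK.exists_of_ne (Ne.symm hcon.1)
    exact gap hL hWY hYX hK hV (fun f hf => hVX.zero_of hf) (fun f hf => hKV.zero_of hf)
      (fun f hf => hWK.zero_of hf) hx1 hx2 hy1 hy2 hw1 hw2
  · refine ⟨hV, hYX.memX, hVX, hne2, ?_⟩
    intro K hK hVK hKX
    by_contra hcon
    push Not at hcon
    obtain ⟨x, hx1, hx2⟩ := hKX.exists_of_ne hcon.2
    obtain ⟨y, hy1, hy2⟩ := hVK.exists_of_ne (Ne.symm hcon.1)
    obtain ⟨w, hw1, hw2⟩ := hWV.exists_of_ne hne1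
    exact gap hL hWY hYX hV hK (fun f hf => hKX.zero_of hf) (fun f hf => hVK.zero_of hf)
      (fun f hf => hWV.zero_of hf) hx1 hx2 hy1 hy2 hw1 hw2

theorem diamond_exists [Fintype α] (hL : IsOM L) {W Y X : α → SignType} (hWY : Cov L W Y)
    (hYX : Cov L Y X) : ∃ V, V ≠ Y ∧ Cov L W V ∧ Cov L V X := by
  have hN : cmp (cmp W (-Y)) X ∈ L :=
    hL.comp _ (hL.comp _ hWY.memY _ (hL.neg _ hWY.memX)) _ hYX.memX
  obtain ⟨e, he1, he2⟩ := hWY.le.exists_of_ne hWY.ne
  have hXe : X e = Y e := hYX.le e he2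
  have hsep : ∃ e, X e ≠ 0 ∧ X e = -(cmp (cmp W (-Y)) X) e := by
    refine ⟨e, by rw [hXe]; exact he2, ?_⟩
    have h1 : cmp W (-Y) e = - Y e := by rw [cmp_of_eq he1]; rfl
    rw [cmp_of_ne (by rw [h1]; simpa using he2), h1, hXe, neg_neg]
  obtain ⟨V, hV, hV1, hV2, g, hg1, hg2, hg3⟩ := conf hL hYX.memX hN hsep
  have hWV : Le W V := by
    intro f hf
    have hYf := hWY.le f hf
    have hXf : X f = W f := by rw [hYX.le f (by rw [hYf]; exact hf), hYf]
    have hNf : cmp (cmp W (-Y)) X f = W f := by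
      rw [cmp_of_ne (by rw [cmp_of_ne hf]; exact hf), cmp_of_ne hf]
    rw [hV1 f (Or.inr (by rw [hNf, hXf]; exact sg2 _ hf)), cmp_of_ne (by rw [hXf]; exact hf), hXf]
  have hVX : Le V X := by
    intro f hf
    by_cases h : X f = 0 ∨ X f ≠ -(cmp (cmp W (-Y)) X) f
    · have hVf := hV1 f h
      by_cases hX0 : X f = 0
      · exfalso
        apply hf
        rw [hVf, cmp_of_eq hX0, cmp_zero_iff, cmp_zero_iff]
        have hY0 := hYX.le.zero_of hX0
        exact ⟨⟨hWY.le.zero_of hY0, by simp [hY0]⟩, hX0⟩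
      · rw [hVf, cmp_of_ne hX0]
    · push Not at h
      rcases hV2 f h.1 h.2 with h' | h'
      · exact absurd h' hf
      · exact h'.symm
  obtain ⟨a, ha1, ha2⟩ := hYX.le.exists_of_ne hYX.ne
  have hWa : W a = 0 := hWY.le.zero_of ha1
  have hVa : V a = X a := by
    have hNa : cmp (cmp W (-Y)) X a = X a := by
      rw [cmp_of_eq]
      rw [cmp_zero_iff]
      exact ⟨hWa, by simp [ha1]⟩
    rw [hV1 a (Or.inr (by rw [hNa]; exact sg2 _ ha2)), cmp_of_ne ha2]
  have hne1 : W ≠ V := by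
    intro h
    rw [← h, hWa] at hVa
    exact ha2 hVa.symm
  have hne2 : V ≠ X := by
    intro h
    rw [h] at hg3
    exact hg1 hg3
  have hne3 : V ≠ Y := by
    intro h
    rw [h, ha1] at hVa
    exact ha2 hVa.symm
  exact ⟨V, hne3, mid_cov hL hWY hYX hV hWV hVX hne1 hne2⟩

theorem cmp_eq_of_two [Fintype α] (hL : IsOM L) {X Y₁ Y₂ : α → SignType}
    (h1 : Cov L Y₁ X) (h2 : Cov L Y₂ X) (hne : Y₁ ≠ Y₂) : cmp Y₁ Y₂ = X := by
  rcases h1.mid _ (hL.comp _ h1.memY _ h2.memY) (le_cmp _ _) (cmp_le h1.le h2.le) with h | h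
  · exfalso
    have hle : Le Y₂ Y₁ := by
      intro f hf
      have hXf : X f = Y₂ f := h2.le f hf
      have h0 : Y₁ f ≠ 0 := by
        intro h0
        have := congrFun h f
        rw [cmp_of_eq h0, h0] at this
        exact hf this
      rw [← h1.le f h0, hXf]
    rcases h2.mid _ h1.memY hle h1.le with h' | h'
    · exact hne h'
    · exact h1.ne h'
  · exact h

theorem diamond_unique [Fintype α] (hL : IsOM L) {W X Y₁ Y₂ Y₃ : α → SignType}
    (hW1 : Cov L W Y₁) (h1X : Cov L Y₁ X) (hW2 : Cov L W Y₂) (h2X : Cov L Y₂ X)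
    (hW3 : Cov L W Y₃) (h3X : Cov L Y₃ X) (h12 : Y₁ ≠ Y₂) (h13 : Y₁ ≠ Y₃) (h23 : Y₂ ≠ Y₃) :
    False := by
  obtain ⟨a1, ha1, hXa1⟩ := h1X.le.exists_of_ne h1X.ne
  obtain ⟨a2, ha2, hXa2⟩ := h2X.le.exists_of_ne h2X.ne
  obtain ⟨a3, ha3, hXa3⟩ := h3X.le.exists_of_ne h3X.ne
  have hother : ∀ {Y Y' : α → SignType}, Cov L Y X → Cov L Y' X → Y ≠ Y' → ∀ {a : α},
      Y a = 0 → Y' a = X a := by
    intro Y Y' hY hY' hne a ha
    rw [← cmp_eq_of_two hL hY hY' hne, cmp_of_eq ha]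
  have e21 : Y₂ a1 = X a1 := hother h1X h2X h12 ha1
  have e31 : Y₃ a1 = X a1 := hother h1X h3X h13 ha1
  have e12 : Y₁ a2 = X a2 := hother h2X h1X h12.symm ha2
  have e32 : Y₃ a2 = X a2 := hother h2X h3X h23 ha2
  have e13 : Y₁ a3 = X a3 := hother h3X h1X h13.symm ha3
  have e23 : Y₂ a3 = X a3 := hother h3X h2X h23.symm ha3
  have w1 : W a1 = 0 := hW1.le.zero_of ha1
  have w2 : W a2 = 0 := hW2.le.zero_of ha2
  have w3 : W a3 = 0 := hW3.le.zero_of ha3
  set N := cmp W (-Y₂) with hN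
  have hNL : N ∈ L := hL.comp _ hW1.memY _ (hL.neg _ h2X.memY)
  have n1 : N a1 = - X a1 := by rw [hN, cmp_of_eq w1, Pi.neg_apply, e21]
  have n2 : N a2 = 0 := by rw [hN, cmp_of_eq w2, Pi.neg_apply, ha2]; rfl
  have n3 : N a3 = - X a3 := by rw [hN, cmp_of_eq w3, Pi.neg_apply, e23]
  obtain ⟨U, hU, hU3, hUf⟩ := hL.elim Y₁ h1X.memY N hNL a3 (by rw [e13]; exact hXa3)
    (by rw [e13, n3, neg_neg])
  have u1 : U a1 = - X a1 := by rw [hUf a1 (Or.inl ha1), cmp_of_eq ha1, n1]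
  have u2 : U a2 = X a2 := by
    rw [hUf a2 (Or.inr (by rw [n2, e12]; simpa using hXa2)), cmp_of_ne (by rw [e12]; exact hXa2), e12]
  have uW : ∀ f, W f ≠ 0 → U f = W f := by
    intro f hf
    have h1 : Y₁ f = W f := hW1.le f hf
    have h2 : N f = W f := by rw [hN, cmp_of_ne hf]
    rw [hUf f (Or.inr (by rw [h1, h2]; exact sg2 _ hf)), cmp_of_ne (by rw [h1]; exact hf), h1]
  have uX : ∀ f, X f = 0 → U f = 0 := by
    intro f hf
    have h1 : Y₁ f = 0 := h1X.le.zero_of hf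
    have h2 : N f = 0 := by
      rw [hN, cmp_zero_iff]
      exact ⟨hW1.le.zero_of h1, by rw [Pi.neg_apply, h2X.le.zero_of hf]; rfl⟩
    rw [hUf f (Or.inl h1), cmp_of_eq h1, h2]
  obtain ⟨V, hV, hV1, hVf⟩ := hL.elim U hU Y₃ h3X.memY a1 (by rw [u1]; simpa using hXa1)
    (by rw [u1, e31])
  have v3 : V a3 = 0 := by rw [hVf a3 (Or.inl hU3), cmp_of_eq hU3, ha3]
  have v2 : V a2 = X a2 := by
    rw [hVf a2 (Or.inr (by rw [u2, e32]; exact sg2 _ hXa2)), cmp_of_ne (by rw [u2]; exact hXa2), u2]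
  have vW : ∀ f, V f = 0 → W f = 0 := by
    intro f hf
    by_contra h0
    have h1 := uW f h0
    have h2 : Y₃ f = W f := hW3.le f h0
    have := hVf f (Or.inr (by rw [h1, h2]; exact sg2 _ h0))
    rw [cmp_of_ne (by rw [h1]; exact h0), h1, hf] at this
    exact h0 this.symm
  have vX : ∀ f, X f = 0 → V f = 0 := by
    intro f hf
    rw [hVf f (Or.inl (uX f hf)), cmp_of_eq (uX f hf)]
    exact h3X.le.zero_of hf
  refine gap hL hW1 h1X hV (hL.comp _ h1X.memY _ hV) (x := a1) (y := a3) (w := a2)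
    ?_ ?_ vW ?_ hXa1 v3 ?_ w2 (by rw [v2]; exact hXa2)
  · intro f hf
    rw [cmp_zero_iff]
    exact ⟨h1X.le.zero_of hf, vX f hf⟩
  · intro f hf
    exact ((cmp_zero_iff _ _ _).1 hf).2
  · rw [cmp_zero_iff]; exact ⟨ha1, hV1⟩
  · rw [cmp_of_ne (by rw [e13]; exact hXa3), e13]; exact hXa3

open Classical in
theorem diamond_even [Fintype α] (hL : IsOM L) (W X : α → SignType) :
    Even (Finset.univ.filter (fun Y : α → SignType => Cov L W Y ∧ Cov L Y X)).card := by
  classical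
  by_cases hne : ∃ Y, Cov L W Y ∧ Cov L Y X
  · obtain ⟨Y, hWY, hYX⟩ := hne
    obtain ⟨V, hVY, hWV, hVX⟩ := diamond_exists hL hWY hYX
    have : (Finset.univ.filter (fun Y : α → SignType => Cov L W Y ∧ Cov L Y X)) = {Y, V} := by
      ext U
      simp only [Finset.mem_filter, Finset.mem_univ, true_and, Finset.mem_insert,
        Finset.mem_singleton]
      constructor
      · rintro ⟨h1, h2⟩
        by_contra hcon
        push Not at hcon
        exact diamond_unique hL hWY hYX hWV hVX h1 h2 hVY.symm (Ne.symm hcon.1) (Ne.symm hcon.2)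
      · rintro (h | h)
        · rw [h]; exact ⟨hWY, hYX⟩
        · rw [h]; exact ⟨hWV, hVX⟩
    have h2 : (Finset.univ.filter (fun Y : α → SignType => Cov L W Y ∧ Cov L Y X)).card = 2 := by
      rw [this]
      exact Finset.card_pair hVY.symm
    rw [h2]
    exact even_two
  · have : (Finset.univ.filter (fun Y : α → SignType => Cov L W Y ∧ Cov L Y X)) = ∅ := by
      rw [Finset.filter_eq_empty_iff]
      intro Y _ h
      exact hne ⟨Y, h⟩
    rw [this]
    simp

end Pool.Agent.H277R2.OM
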