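import Mathlib
import Pool.Agent.H277R2.OM1

set_option autoImplicit false

namespace Pool.Agent.H277R2.OM

variable {α : Type*} {L M : Set (α → SignType)}

/-- topes: maximal covectors -/
def Tope (M : Set (α → SignType)) (X : α → SignType) : Prop :=
  X ∈ M ∧ ∀ Y ∈ M, Le X Y → Y = X

theorem Tope.supp (hM : IsOM M) {X Y : α → SignType} (hX : Tope M X) (hY : Y ∈ M) {f : α}
    (hf : X f = 0) : Y f = 0 := by
  have h := hX.2 (cmp X Y) (hM.comp _ hX.1 _ hY) (le_cmp _ _)
  have := congrFun h f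
  rwa [cmp_of_eq hf, hf] at this

theorem tope_of_supp (hM : IsOM M) {X Y : α → SignType} (hX : Tope M X) (hY : Y ∈ M)
    (h : ∀ f, Y f = 0 → X f = 0) : Tope M Y := by
  refine ⟨hY, fun Z hZ hle => ?_⟩
  apply Le.antisymm _ hle
  intro f hf
  by_contra hcon
  have hY0 : Y f = 0 := by
    by_contra h0
    exact hcon (hle f h0).symm
  exact hf (hX.supp hM hZ (h f hY0))

theorem Tope.neg (hM : IsOM M) {X : α → SignType} (hX : Tope M X) : Tope M (-X) :=
  tope_of_supp hM hX (hM.neg _ hX.1) (fun f hf => by simpa using hf)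

theorem exists_tope [Finite α] (hM : IsOM M) {X : α → SignType} (hX : X ∈ M) :
    ∃ T, Tope M T ∧ Le X T := by
  classical
  have : Fintype α := Fintype.ofFinite α
  -- choose an element of M above X with maximal support
  have hne : (Finset.univ.filter (fun Z : α → SignType => Z ∈ M ∧ Le X Z)).Nonempty :=
    ⟨X, by simp [hX, Le.refl]⟩
  obtain ⟨T, hT, hmax⟩ := Finset.exists_max_image
    (Finset.univ.filter (fun Z : α → SignType => Z ∈ M ∧ Le X Z))
    (fun Z => (Finset.univ.filter (fun e => Z e ≠ 0)).card) hne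
  simp only [Finset.mem_filter, Finset.mem_univ, true_and] at hT hmax
  refine ⟨T, ⟨hT.1, fun Y hY hle => ?_⟩, hT.2⟩
  by_contra hcon
  obtain ⟨e, he1, he2⟩ := hle.exists_of_ne (Ne.symm hcon)
  have h1 := hmax Y ⟨hY, hT.2.trans hle⟩
  have h2 : (Finset.univ.filter (fun e => T e ≠ 0)).card
      < (Finset.univ.filter (fun e => Y e ≠ 0)).card := by
    apply Finset.card_lt_card
    rw [Finset.ssubset_iff_of_subset]
    · exact ⟨e, by simp [he2], by simp [he1]⟩
    · intro f hf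
      simp only [Finset.mem_filter, Finset.mem_univ, true_and] at hf ⊢
      rw [hle f hf]; exact hf
  omega

/-- if `Y` is covered by the tope `X`, then `Y ∘ (-X)` is a tope covering `Y` -/
theorem tope_flip (hM : IsOM M) {X Y : α → SignType} (hX : Tope M X) (hc : Cov M Y X) :
    Tope M (cmp Y (-X)) ∧ Cov M Y (cmp Y (-X)) := by
  have hmem : cmp Y (-X) ∈ M := hM.comp _ hc.memY _ (hM.neg _ hX.1)
  have ht : Tope M (cmp Y (-X)) := by
    apply tope_of_supp hM hX hmem
    intro f hf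
    rw [cmp_zero_iff] at hf
    simpa using hf.2
  refine ⟨ht, hc.memY, hmem, le_cmp _ _, ?_, ?_⟩
  · obtain ⟨e, he1, he2⟩ := hc.le.exists_of_ne hc.ne
    intro h
    have := congrFun h e
    rw [cmp_of_eq he1, he1, Pi.neg_apply] at this
    apply he2
    have h' := sg5 _ _ this
    simpa using h'
  · intro Z hZ h1 h2
    have h3 : Le (cmp Y (-Z)) X := by
      intro f hf
      by_cases hY : Y f = 0
      · rw [cmp_of_eq hY] at hf ⊢
        have hZf : Z f ≠ 0 := by simpa using hf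
        have := h2 f hZf
        rw [cmp_of_eq hY, Pi.neg_apply] at this
        rw [Pi.neg_apply, ← this, neg_neg]
      · rw [cmp_of_ne hY]; exact hc.le f hY
    rcases hc.mid (cmp Y (-Z)) (hM.comp _ hc.memY _ (hM.neg _ hZ)) (le_cmp _ _) h3 with h | h
    · left
      apply Le.antisymm _ h1
      intro f hf
      by_contra hcon
      have hY : Y f = 0 := by
        by_contra h0; exact hcon (h1 f h0).symm
      have := congrFun h f
      rw [cmp_of_eq hY, hY, Pi.neg_apply] at this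
      apply hf
      simpa using this
    · right
      apply Le.antisymm h2
      intro f hf
      by_cases hY : Y f = 0
      · rw [cmp_of_eq hY, Pi.neg_apply]
        have := congrFun h f
        rw [cmp_of_eq hY, Pi.neg_apply] at this
        rw [← this, neg_neg]
      · rw [cmp_of_ne hY]; exact h1 f hY

/-- the only topes above `Y` (covered by the tope `X`) are `X` and `Y ∘ (-X)` -/
theorem tope_two [Fintype α] (hM : IsOM M) {X Y X' : α → SignType} (hX : Tope M X)
    (hc : Cov M Y X) (hX' : Tope M X') (hle : Le Y X') : X' = X ∨ X' = cmp Y (-X) := by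
  by_cases hsep : ∃ e, X e ≠ 0 ∧ X e = - X' e
  · right
    obtain ⟨W, hW, hW1, hW2, g, hg1, hg2, hg3⟩ := conf hM hX.1 hX'.1 hsep
    have hYW : Le Y W := by
      intro f hf
      have h1 := hc.le f hf
      have h2 := hle f hf
      rw [hW1 f (Or.inr (by rw [h1, h2]; exact sg2 _ hf)), cmp_of_ne (by rw [h1]; exact hf), h1]
    have hWX : Le W X := by
      intro f hf
      by_cases h : X f = 0 ∨ X f ≠ -X' f
      · by_cases hX0 : X f = 0
        · exact absurd (hX.supp hM hW hX0) hf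
        · rw [hW1 f h, cmp_of_ne hX0]
      · push Not at h
        rcases hW2 f h.1 h.2 with h' | h'
        · exact absurd h' hf
        · exact h'.symm
    have hWY : W = Y := by
      rcases hc.mid W hW hYW hWX with h | h
      · exact h
      · exfalso; rw [h] at hg3; exact hg1 hg3
    funext f
    by_cases hY : Y f = 0
    · rw [cmp_of_eq hY, Pi.neg_apply]
      by_cases hX0 : X f = 0
      · rw [hX0, hX.supp hM hX'.1 hX0]; rfl
      · by_contra hcon
        have : X f ≠ - X' f := fun h => hcon (sg5 _ _ h)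
        have h := hW1 f (Or.inr this)
        rw [cmp_of_ne hX0, hWY, hY] at h
        exact hX0 h.symm
    · rw [cmp_of_ne hY, hle f hY]
  · left
    push Not at hsep
    apply hX.2 _ hX'.1
    intro e he
    have he' : X' e ≠ 0 := fun h0 => he (hX'.supp hM hX.1 h0)
    exact ((sg4 _ _ he he').resolve_left (hsep e he)).symm

/-- the covectors vanishing on `e 0, …, e (j-1)` -/
def Lj (L : Set (α → SignType)) (e : ℕ → α) (j : ℕ) : Set (α → SignType) :=
  {X | X ∈ L ∧ ∀ i < j, X (e i) = 0}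

theorem Lj_om (hL : IsOM L) (e : ℕ → α) (j : ℕ) : IsOM (Lj L e j) := by
  refine ⟨⟨hL.zero, fun _ _ => rfl⟩, ?_, ?_, ?_⟩
  · rintro X ⟨h1, h2⟩
    exact ⟨hL.neg _ h1, fun i hi => by rw [Pi.neg_apply, h2 i hi]; rfl⟩
  · rintro X ⟨h1, h2⟩ Y ⟨h3, h4⟩
    exact ⟨hL.comp _ h1 _ h3, fun i hi => by rw [cmp_zero_iff]; exact ⟨h2 i hi, h4 i hi⟩⟩
  · rintro X ⟨h1, h2⟩ Y ⟨h3, h4⟩ a ha hab
    obtain ⟨Z, hZ, hZ1, hZ2⟩ := hL.elim X h1 Y h3 a ha hab
    refine ⟨Z, ⟨hZ, fun i hi => ?_⟩, hZ1, hZ2⟩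
    rw [hZ2 _ (Or.inl (h2 i hi)), cmp_zero_iff]
    exact ⟨h2 i hi, h4 i hi⟩

theorem Lj_lower {e : ℕ → α} {j : ℕ} {X Y : α → SignType} (hX : X ∈ Lj L e j) (hY : Y ∈ L)
    (h : Le Y X) : Y ∈ Lj L e j :=
  ⟨hY, fun i hi => h.zero_of (hX.2 i hi)⟩

theorem cov_Lj {e : ℕ → α} {j : ℕ} {X Y : α → SignType} (hX : X ∈ Lj L e j) :
    Cov (Lj L e j) Y X ↔ Cov L Y X := by
  constructor
  · intro h
    exact ⟨h.memY.1, h.memX.1, h.le, h.ne, fun Z hZ h1 h2 => h.mid Z (Lj_lower hX hZ h2) h1 h2⟩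
  · intro h
    exact ⟨Lj_lower hX h.memY h.le, hX, h.le, h.ne, fun Z hZ h1 h2 => h.mid Z hZ.1 h1 h2⟩

/-- extension of topes of `Lj (j+1)` to topes of `Lj j` -/
theorem cov_of_tope_succ [Fintype α] (hL : IsOM L) {e : ℕ → α} {j : ℕ}
    (hB : ∃ X ∈ Lj L e j, X (e j) ≠ 0) {Y : α → SignType} (hY : Tope (Lj L e (j+1)) Y) :
    ∃ X, Tope (Lj L e j) X ∧ Cov (Lj L e j) Y X := by
  have hM := Lj_om hL e j
  have hYj : Y ∈ Lj L e j := ⟨hY.1.1, fun i hi => hY.1.2 i (by omega)⟩
  have hYe : Y (e j) = 0 := hY.1.2 j (by omega)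
  obtain ⟨A, hA, hAe⟩ := hB
  obtain ⟨X, hX, hle⟩ := exists_tope hM (hM.comp _ hYj _ hA)
  have hYX : Le Y X := (le_cmp _ _).trans hle
  have hXe : X (e j) ≠ 0 := by
    intro h0
    have := hle.zero_of h0
    rw [cmp_zero_iff] at this
    exact hAe this.2
  refine ⟨X, hX, hYj, hX.1, hYX, ?_, ?_⟩
  · intro h; rw [h] at hYe; exact hXe hYe
  · intro W hW h1 h2
    by_contra hcon
    push Not at hcon
    have hWe : W (e j) ≠ 0 := by
      intro h0
      apply hcon.1
      apply hY.2 _ _ h1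
      refine ⟨hW.1, fun i hi => ?_⟩
      rcases Nat.lt_succ_iff_lt_or_eq.1 hi with h | h
      · exact hW.2 i h
      · rw [h]; exact h0
    have hWX : X (e j) = W (e j) := h2 _ hWe
    have hN : cmp Y (-X) ∈ Lj L e j := hM.comp _ hYj _ (hM.neg _ hX.1)
    have hNe : cmp Y (-X) (e j) = - X (e j) := by rw [cmp_of_eq hYe]; rfl
    obtain ⟨V, hV, hVe, hVf⟩ := hM.elim W hW _ hN (e j) hWe (by rw [hNe, neg_neg, hWX])
    have hYV : Le Y V := by
      intro f hf
      have a1 := h1 f hf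
      have a2 : cmp Y (-X) f = Y f := cmp_of_ne hf
      rw [hVf f (Or.inr (by rw [a1, a2]; exact sg2 _ hf)), cmp_of_ne (by rw [a1]; exact hf), a1]
    obtain ⟨f, hf1, hf2⟩ := h2.exists_of_ne hcon.2
    have hYf : Y f = 0 := h1.zero_of hf1
    have hVf' : V f ≠ 0 := by
      rw [hVf f (Or.inl hf1), cmp_of_eq hf1, cmp_of_eq hYf]
      simpa using hf2
    have hVY : V = Y := by
      apply hY.2 _ _ hYV
      refine ⟨hV.1, fun i hi => ?_⟩
      rcases Nat.lt_succ_iff_lt_or_eq.1 hi with h | h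
      · exact hV.2 i h
      · rw [h]; exact hVe
    rw [hVY] at hVf'
    exact hVf' hYf

theorem tope_succ_of_cov [Fintype α] (hL : IsOM L) {e : ℕ → α} {j : ℕ} {X Y : α → SignType}
    (hX : Tope (Lj L e j) X) (hc : Cov (Lj L e j) Y X) (hYe : Y (e j) = 0)
    (hXe : X (e j) ≠ 0) : Tope (Lj L e (j+1)) Y := by
  have hM := Lj_om hL e j
  have hY1 : Y ∈ Lj L e (j+1) := by
    refine ⟨hc.memY.1, fun i hi => ?_⟩
    rcases Nat.lt_succ_iff_lt_or_eq.1 hi with h | h
    · exact hc.memY.2 i h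
    · rw [h]; exact hYe
  refine ⟨hY1, fun V hV hle => ?_⟩
  have hVj : V ∈ Lj L e j := ⟨hV.1, fun i hi => hV.2 i (by omega)⟩
  have hVe : V (e j) = 0 := hV.2 j (by omega)
  have hVX : Tope (Lj L e j) (cmp V X) := by
    apply tope_of_supp hM hX (hM.comp _ hVj _ hX.1)
    intro f hf
    exact ((cmp_zero_iff _ _ _).1 hf).2
  rcases tope_two hM hX hc hVX (hle.trans (le_cmp _ _)) with h | h
  · have hVleX : Le V X := by rw [← h]; exact le_cmp _ _
    rcases hc.mid V hVj hle hVleX with h' | h'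
    · exact h'
    · exfalso; rw [h'] at hVe; exact hXe hVe
  · exfalso
    have := congrFun h (e j)
    rw [cmp_of_eq hVe, cmp_of_eq hYe] at this
    exact sg2 _ hXe this

end Pool.Agent.H277R2.OM
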