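import Mathlib
import Pool.Agent.H277R2.OM2

set_option autoImplicit false

namespace Pool.Agent.H277R2.OM

open Finset

/-! ### lists, faces and sorting -/

section lists

variable {V : Type*}

/-- mod 2 sum of `f` over the faces of a list -/
def bd (f : List V → ZMod 2) (l : List V) : ZMod 2 := ∑ i ∈ range l.length, f (l.eraseIdx i)

@[simp] theorem bd_nil (f : List V → ZMod 2) : bd f [] = 0 := by simp [bd]

theorem bd_cons (f : List V → ZMod 2) (X : V) (l : List V) :
    bd f (X :: l) = f l + bd (fun t => f (X :: t)) l := by
  unfold bd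
  rw [List.length_cons, Finset.sum_range_succ']
  simp only [List.eraseIdx_cons_succ, List.eraseIdx_cons_zero]
  rw [add_comm]

/-- product of consecutive sums -/
def Wd : List (ZMod 2) → ZMod 2
  | [] => 1
  | [_] => 1
  | a :: b :: t => (a + b) * Wd (b :: t)

def Pd : List (ZMod 2) → ZMod 2
  | [] => 1
  | a :: t => (1 + a) * Wd (a :: t)

theorem bd_mul (c : ZMod 2) (f : List V → ZMod 2) (l : List V) :
    bd (fun t => c * f t) l = c * bd f l := by
  unfold bd; rw [Finset.mul_sum]

theorem two_eq (a : ZMod 2) : a + a = 0 := CharTwo.add_self_eq_zero a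

theorem bd_Wd (t : List (ZMod 2)) : ∀ a b : ZMod 2,
    bd (fun s => Wd (a :: s)) (b :: t) = Wd (b :: t) := by
  induction t with
  | nil => intro a b; rw [bd_cons]; simp [Wd]
  | cons c t ih =>
    intro a b
    rw [bd_cons]
    have h1 : (fun s : List (ZMod 2) => Wd (a :: b :: s)) = fun s => (a + b) * Wd (b :: s) := by
      funext s; rfl
    simp only [h1, bd_mul, ih]
    show (a + c) * Wd (c :: t) + (a + b) * Wd (c :: t) = (b + c) * Wd (c :: t)
    have := two_eq (a * Wd (c :: t))
    linear_combination this

theorem bd_Pd (a : ZMod 2) (t : List (ZMod 2)) : bd Pd (a :: t) = Wd (a :: t) := by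
  rw [bd_cons]
  cases t with
  | nil => simp [Pd, Wd]
  | cons b t =>
    have h1 : (fun s : List (ZMod 2) => Pd (a :: s)) = fun s => (1 + a) * Wd (a :: s) := by
      funext s; rfl
    rw [h1, bd_mul, bd_Wd]
    show (1 + b) * Wd (b :: t) + (1 + a) * Wd (b :: t) = (a + b) * Wd (b :: t)
    have := two_eq (Wd (b :: t))
    linear_combination this

theorem bd_map {U : Type*} (g : V → U) (f : List U → ZMod 2) (l : List V) :
    bd (fun t => f (t.map g)) l = bd f (l.map g) := by
  induction l generalizing f with
  | nil => simp
  | cons a l ih =>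
    rw [bd_cons, List.map_cons, bd_cons]
    congr 1
    exact ih (fun t => f (g a :: t))

variable (idx : V → ℕ)

/-- sort by `idx` -/
def srt (l : List V) : List V := List.insertionSort (fun a b => idx a ≤ idx b) l

def ins (a : V) (l : List V) : List V := List.orderedInsert (fun a b => idx a ≤ idx b) a l

theorem srt_nil : srt idx [] = [] := rfl
theorem srt_cons (a : V) (l : List V) : srt idx (a :: l) = ins idx a (srt idx l) := rfl
theorem ins_nil (a : V) : ins idx a [] = [a] := rfl
theorem ins_cons (a b : V) (l : List V) :
    ins idx a (b :: l) = if idx a ≤ idx b then a :: b :: l else b :: ins idx a l := rfl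

theorem mem_ins {a x : V} {l : List V} : x ∈ ins idx a l ↔ x = a ∨ x ∈ l := by
  induction l with
  | nil => simp [ins_nil]
  | cons b l ih =>
    rw [ins_cons]
    split_ifs
    · simp
    · simp only [List.mem_cons, ih]; tauto

theorem mem_srt {x : V} {l : List V} : x ∈ srt idx l ↔ x ∈ l := by
  induction l with
  | nil => simp [srt_nil]
  | cons b l ih => rw [srt_cons, mem_ins, ih]; simp

theorem length_ins (a : V) (l : List V) : (ins idx a l).length = l.length + 1 := by
  induction l with
  | nil => rfl
  | cons b l ih =>
    rw [ins_cons]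
    split_ifs
    · rfl
    · simp [ih]

theorem length_srt (l : List V) : (srt idx l).length = l.length := by
  induction l with
  | nil => rfl
  | cons b l ih => rw [srt_cons, length_ins, ih]; rfl

theorem sorted_ins (a : V) {l : List V} (h : l.Pairwise (fun a b => idx a ≤ idx b)) :
    (ins idx a l).Pairwise (fun a b => idx a ≤ idx b) := by
  induction l with
  | nil => simp [ins_nil]
  | cons b l ih =>
    rw [ins_cons]
    rw [List.pairwise_cons] at h
    split_ifs with hab
    · rw [List.pairwise_cons, List.pairwise_cons]
      refine ⟨?_, h.1, h.2⟩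
      intro x hx
      rcases List.mem_cons.1 hx with rfl | hx
      · exact hab
      · exact hab.trans (h.1 x hx)
    · rw [List.pairwise_cons]
      refine ⟨?_, ih h.2⟩
      intro x hx
      rcases (mem_ins idx).1 hx with rfl | hx
      · omega
      · exact h.1 x hx

theorem sorted_srt (l : List V) : (srt idx l).Pairwise (fun a b => idx a ≤ idx b) := by
  induction l with
  | nil => simp [srt_nil]
  | cons b l ih => rw [srt_cons]; exact sorted_ins idx b ih

/-- inserting a smallest element -/
theorem ins_min (a : V) (l : List V) (h : ∀ x ∈ l, idx a ≤ idx x) : ins idx a l = a :: l := by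
  cases l with
  | nil => rfl
  | cons b l => rw [ins_cons, if_pos (h b (by simp))]

theorem bd_ins (X : V) (s : List V) (hs : s.Pairwise (fun a b => idx a ≤ idx b)) :
    ∀ G : List V → ZMod 2, G s + bd (fun t => G (ins idx X t)) s = bd G (ins idx X s) := by
  induction s with
  | nil => intro G; rw [ins_nil, bd_cons]; simp
  | cons a s ih =>
    intro G
    rw [List.pairwise_cons] at hs
    rw [ins_cons]
    by_cases hXa : idx X ≤ idx a
    · rw [if_pos hXa, bd_cons G X]
      congr 1
      unfold bd
      apply Finset.sum_congr rfl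
      intro i _
      show G (ins idx X ((a :: s).eraseIdx i)) = G (X :: (a :: s).eraseIdx i)
      rw [ins_min]
      intro x hx
      have hx' : x ∈ a :: s := (List.eraseIdx_sublist _ _).subset hx
      rcases List.mem_cons.1 hx' with rfl | h
      · exact hXa
      · exact hXa.trans (hs.1 x h)
    · rw [if_neg hXa, bd_cons G a, bd_cons]
      have h1 : (fun t => G (ins idx X (a :: t))) = fun t => G (a :: ins idx X t) := by
        funext t
        rw [ins_cons, if_neg hXa]
      rw [h1, ← ih hs.2 (fun t => G (a :: t))]
      ring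

theorem bd_srt (l : List V) : ∀ G : List V → ZMod 2,
    bd (fun t => G (srt idx t)) l = bd G (srt idx l) := by
  induction l with
  | nil => intro G; simp [srt_nil]
  | cons a l ih =>
    intro G
    rw [bd_cons, srt_cons, ← bd_ins idx a _ (sorted_srt idx l) G]
    congr 1
    have : (fun t => G (srt idx (a :: t))) = fun t => (fun u => G (ins idx a u)) (srt idx t) := by
      funext t; rfl
    rw [this, ih (fun u => G (ins idx a u))]

theorem srt_map (g : V → V) (l : List V) (h : ∀ x ∈ l, idx (g x) = idx x) :
    srt idx (l.map g) = (srt idx l).map g := by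
  induction l with
  | nil => rfl
  | cons a l ih =>
    rw [List.map_cons, srt_cons, srt_cons, ih (fun x hx => h x (by simp [hx]))]
    have hmem : ∀ x ∈ srt idx l, idx (g x) = idx x := by
      intro x hx
      exact h x (by simp [(mem_srt idx).1 hx])
    have ha : idx (g a) = idx a := h a (by simp)
    generalize srt idx l = m at hmem
    induction m with
    | nil => rfl
    | cons b m ihm =>
      rw [List.map_cons, ins_cons, ins_cons, ha, hmem b (by simp)]
      split_ifs
      · rfl
      · rw [List.map_cons, ihm (fun x hx => hmem x (by simp [hx]))]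

theorem Wd_flip (g : V → ZMod 2) (g' : V → ZMod 2) (l : List V) (h : ∀ x ∈ l, g' x = 1 + g x) :
    Wd (l.map g') = Wd (l.map g) := by
  induction l with
  | nil => rfl
  | cons a l ih =>
    cases l with
    | nil => rfl
    | cons b l =>
      rw [List.map_cons, List.map_cons, List.map_cons, List.map_cons]
      show (g' a + g' b) * Wd ((b :: l).map g') = (g a + g b) * Wd ((b :: l).map g)
      rw [ih (fun x hx => h x (by simp [List.mem_cons.1 hx])), h a (by simp), h b (by simp)]
      have := two_eq (1 : ZMod 2)
      linear_combination (Wd ((b :: l).map g)) * this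

theorem Pd_flip (g : V → ZMod 2) (g' : V → ZMod 2) (l : List V) (h : ∀ x ∈ l, g' x = 1 + g x)
    (hl : l ≠ []) : Pd (l.map g) + Pd (l.map g') = Wd (l.map g) := by
  cases l with
  | nil => exact absurd rfl hl
  | cons a l =>
    show (1 + g a) * Wd ((a :: l).map g) + (1 + g' a) * Wd ((a :: l).map g') = Wd ((a :: l).map g)
    rw [Wd_flip g g' (a :: l) h, h a (by simp)]
    have h1 := two_eq (1 : ZMod 2)
    have h2 := two_eq (g a)
    linear_combination (Wd ((a :: l).map g)) * (h1 + h2)

theorem strict_of_Wd (s : V → ZMod 2) (l : List V)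
    (hs : l.Pairwise (fun a b => idx a ≤ idx b))
    (hc : ∀ a ∈ l, ∀ b ∈ l, idx a = idx b → s a = s b)
    (hW : Wd (l.map s) ≠ 0) : l.Pairwise (fun a b => idx a < idx b) := by
  induction l with
  | nil => simp
  | cons a l ih =>
    cases l with
    | nil => simp
    | cons b l =>
      have hW' : (s a + s b) * Wd ((b :: l).map s) ≠ 0 := hW
      have h1 : s a + s b ≠ 0 := left_ne_zero_of_mul hW'
      have h2 : Wd ((b :: l).map s) ≠ 0 := right_ne_zero_of_mul hW'
      rw [List.pairwise_cons] at hs
      have ih' := ih hs.2 (fun x hx y hy => hc x (by simp [List.mem_cons.1 hx]) y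
        (by simp [List.mem_cons.1 hy])) h2
      have hab : idx a < idx b := by
        apply lt_of_le_of_ne (hs.1 b (by simp))
        intro h
        apply h1
        rw [hc a (by simp) b (by simp) h]
        exact two_eq _
      rw [List.pairwise_cons]
      refine ⟨?_, ih'⟩
      intro x hx
      rcases List.mem_cons.1 hx with rfl | hx
      · exact hab
      · rw [List.pairwise_cons] at ih'
        exact hab.trans (ih'.1 x hx)

theorem length_le_of_Wd (s : V → ZMod 2) (l : List V) (I : Finset ℕ)
    (hI : ∀ a ∈ l, idx a ∈ I)
    (hs : l.Pairwise (fun a b => idx a ≤ idx b))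
    (hc : ∀ a ∈ l, ∀ b ∈ l, idx a = idx b → s a = s b)
    (hW : Wd (l.map s) ≠ 0) : l.length ≤ I.card := by
  have h := strict_of_Wd idx s l hs hc hW
  have hnd : (l.map idx).Nodup := by
    unfold List.Nodup
    rw [List.pairwise_map]
    exact h.imp (fun hab => by intro h'; omega)
  rw [← List.length_map (f := idx), ← List.toFinset_card_of_nodup hnd]
  apply Finset.card_le_card
  intro x hx
  rw [List.mem_toFinset, List.mem_map] at hx
  obtain ⟨a, ha, rfl⟩ := hx
  exact hI a ha

end lists

theorem pairwise_or {V : Type*} (r : V → V → Prop) (l : List V) (h : l.Pairwise r) :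
    ∀ a ∈ l, ∀ b ∈ l, a = b ∨ r a b ∨ r b a := by
  induction l with
  | nil => intro a ha; simp at ha
  | cons c l ih =>
    rw [List.pairwise_cons] at h
    intro a ha b hb
    rcases List.mem_cons.1 ha with ha1 | ha
    · rcases List.mem_cons.1 hb with hb1 | hb
      · left; rw [ha1, hb1]
      · right; left; rw [ha1]; exact h.1 b hb
    · rcases List.mem_cons.1 hb with hb1 | hb
      · right; right; rw [hb1]; exact h.1 a ha
      · exact ih h.2 a ha b hb

/-! ### the flag functional -/

variable {α : Type*} [Fintype α] {L : Set (α → SignType)}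

open Classical in
/-- mod 2 sum of `f` over the flags `0 ⋖ X₁ ⋖ … ⋖ X_k = X`, listed from the top -/
noncomputable def A (L : Set (α → SignType)) :
    ℕ → (α → SignType) → (List (α → SignType) → ZMod 2) → ZMod 2
  | 0, X, f => if X = 0 then f [] else 0
  | (k+1), X, f => ∑ Y ∈ univ.filter (fun Y : α → SignType => Cov L Y X),
      A L k Y (fun l => f (X :: l))

open Classical in
theorem A_succ (k : ℕ) (X : α → SignType) (f : List (α → SignType) → ZMod 2) :
    A L (k+1) X f = ∑ Y ∈ univ.filter (fun Y : α → SignType => Cov L Y X),
      A L k Y (fun l => f (X :: l)) := rfl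

theorem A_add (k : ℕ) : ∀ (X : α → SignType) (f g : List (α → SignType) → ZMod 2),
    A L k X (fun l => f l + g l) = A L k X f + A L k X g := by
  classical
  induction k with
  | zero =>
    intro X f g
    simp only [A]
    split_ifs <;> simp
  | succ k ih =>
    intro X f g
    rw [A_succ, A_succ, A_succ, ← Finset.sum_add_distrib]
    apply Finset.sum_congr rfl
    intro Y _
    rw [ih]

open Classical in
theorem A_bd (hL : IsOM L) (k : ℕ) : ∀ (X : α → SignType) (f : List (α → SignType) → ZMod 2),
    A L (k+1) X (bd f) =
      ∑ Y ∈ univ.filter (fun Y : α → SignType => Cov L Y X), A L k Y f := by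
  induction k with
  | zero =>
    intro X f
    rw [A_succ]
    apply Finset.sum_congr rfl
    intro Y _
    simp only [A, bd_cons, bd_nil, add_zero]
  | succ k ih =>
    intro X f
    rw [A_succ]
    have h1 : ∀ Y : α → SignType, A L (k+1) Y (fun l => bd f (X :: l)) =
        A L (k+1) Y f + A L (k+1) Y (bd (fun t => f (X :: t))) := by
      intro Y
      rw [← A_add]
      congr 1
      funext l
      exact bd_cons f X l
    simp only [h1, Finset.sum_add_distrib]
    have h2 : ∑ Y ∈ univ.filter (fun Y : α → SignType => Cov L Y X),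
        A L (k+1) Y (bd (fun t => f (X :: t))) = 0 := by
      have h3 : ∀ Y : α → SignType, A L (k+1) Y (bd (fun t => f (X :: t))) =
          ∑ W ∈ univ.filter (fun W : α → SignType => Cov L W Y), A L k W (fun t => f (X :: t)) := by
        intro Y
        rw [ih]
      simp only [h3]
      rw [Finset.sum_comm' (t' := univ)
        (s' := fun W => univ.filter (fun Y : α → SignType => Cov L W Y ∧ Cov L Y X))]
      · apply Finset.sum_eq_zero
        intro W _
        rw [Finset.sum_const]
        obtain ⟨r, hr⟩ := diamond_even hL W X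
        rw [hr, add_smul]
        exact two_eq _
      · intro Y W
        simp only [Finset.mem_filter, Finset.mem_univ, true_and, and_true]
        tauto
    rw [h2, add_zero]

/-- the lists that occur as flags -/
def Good (L : Set (α → SignType)) (k : ℕ) (X : α → SignType) (l : List (α → SignType)) : Prop :=
  l.length = k ∧ (∀ Y ∈ l, Y ∈ L ∧ Y ≠ 0 ∧ Le Y X) ∧ l.Pairwise (fun a b => Le b a)

theorem A_congr (k : ℕ) : ∀ (X : α → SignType) (f g : List (α → SignType) → ZMod 2),
    (∀ l, Good L k X l → f l = g l) → A L k X f = A L k X g := by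
  classical
  induction k with
  | zero =>
    intro X f g h
    simp only [A]
    rw [h [] ⟨rfl, by simp, by simp⟩]
  | succ k ih =>
    intro X f g h
    rw [A_succ, A_succ]
    apply Finset.sum_congr rfl
    intro Y hY
    simp only [Finset.mem_filter, Finset.mem_univ, true_and] at hY
    apply ih
    intro l hl
    apply h
    obtain ⟨h1, h2, h3⟩ := hl
    refine ⟨by rw [List.length_cons, h1], ?_, ?_⟩
    · intro Z hZ
      rcases List.mem_cons.1 hZ with rfl | hZ
      · refine ⟨hY.memX, ?_, Le.refl _⟩
        intro h0
        obtain ⟨e, _, he⟩ := hY.le.exists_of_ne hY.ne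
        apply he
        rw [h0]; rfl
      · obtain ⟨a, b, c⟩ := h2 Z hZ
        exact ⟨a, b, c.trans hY.le⟩
    · rw [List.pairwise_cons]
      refine ⟨fun Z hZ => (h2 Z hZ).2.2.trans hY.le, h3⟩

theorem A_zero_of (k : ℕ) (X : α → SignType) (f : List (α → SignType) → ZMod 2)
    (h : ∀ l, Good L k X l → f l = 0) : A L k X f = 0 := by
  classical
  rw [A_congr k X f (fun _ => 0) h]
  have : ∀ (k : ℕ) (X : α → SignType), A L k X (fun _ => 0) = 0 := by
    intro k
    induction k with
    | zero => intro X; simp [A]
    | succ k ih => intro X; rw [A_succ]; exact Finset.sum_eq_zero (fun Y _ => ih Y)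
  exact this k X

omit [Fintype α] in
theorem neg_zero_iff (X : α → SignType) : -X = 0 ↔ X = 0 := by
  constructor
  · intro h
    funext e
    have := congrFun h e
    simpa using this
  · rintro rfl
    funext e
    simp

theorem A_neg (hL : IsOM L) (k : ℕ) :
    ∀ (X : α → SignType) (f : List (α → SignType) → ZMod 2),
    A L k (-X) f = A L k X (fun l => f (l.map (fun Y => -Y))) := by
  classical
  induction k with
  | zero =>
    intro X f
    simp only [A, List.map_nil, neg_zero_iff]
  | succ k ih =>
    intro X f
    rw [A_succ, A_succ]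
    refine Finset.sum_bij' (fun Y _ => -Y) (fun Y _ => -Y) ?_ ?_ ?_ ?_ ?_
    · intro Y hY
      simp only [Finset.mem_filter, Finset.mem_univ, true_and] at hY ⊢
      have := hY.neg hL
      rwa [neg_neg] at this
    · intro Y hY
      simp only [Finset.mem_filter, Finset.mem_univ, true_and] at hY ⊢
      exact hY.neg hL
    · intro Y _; exact neg_neg Y
    · intro Y _; exact neg_neg Y
    · intro Y _
      have := ih (-Y) (fun l => f (-X :: l))
      rw [neg_neg] at this
      rw [this]
      rfl

open Classical in
theorem count_topes (hL : IsOM L) {e : ℕ → α} {j : ℕ}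
    (hB : ∃ X ∈ Lj L e j, X (e j) ≠ 0) (Y : α → SignType) :
    ((univ.filter (fun X : α → SignType => (Tope (Lj L e j) X ∧ X (e j) = 1) ∧ Cov L Y X)).card
      : ZMod 2) = if Tope (Lj L e (j+1)) Y then 1 else 0 := by
  have hM := Lj_om hL e j
  by_cases hex : ∃ X, Tope (Lj L e j) X ∧ Cov (Lj L e j) Y X
  · obtain ⟨X, hX, hc⟩ := hex
    obtain ⟨hX', hc'⟩ := tope_flip hM hX hc
    have hcL := (cov_Lj hX.1).1 hc
    have hcL' := (cov_Lj hX'.1).1 hc'
    have hXX' : X ≠ cmp Y (-X) := by
      obtain ⟨a, ha1, ha2⟩ := hc.le.exists_of_ne hc.ne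
      intro h
      have := congrFun h a
      rw [cmp_of_eq ha1] at this
      exact sg2 _ ha2 this
    have hsub : ∀ Z, Tope (Lj L e j) Z → Cov L Y Z → Z = X ∨ Z = cmp Y (-X) :=
      fun Z hZ hcZ => tope_two hM hX hc hZ hcZ.le
    by_cases hYe : Y (e j) = 0
    · have hXe : X (e j) ≠ 0 := by
        obtain ⟨A, hA, hAe⟩ := hB
        intro h0
        exact hAe (hX.supp hM hA h0)
      rw [if_pos (tope_succ_of_cov hL hX hc hYe hXe)]
      have hX'e : cmp Y (-X) (e j) = - X (e j) := by rw [cmp_of_eq hYe]; rfl
      rcases sg6 (X (e j)) with h0 | h1 | h1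
      · exact absurd h0 hXe
      · have : (univ.filter (fun X : α → SignType =>
            (Tope (Lj L e j) X ∧ X (e j) = 1) ∧ Cov L Y X)) = {X} := by
          ext Z
          simp only [Finset.mem_filter, Finset.mem_univ, true_and, Finset.mem_singleton]
          constructor
          · rintro ⟨⟨a, b⟩, c⟩
            rcases hsub Z a c with h | h
            · exact h
            · exfalso
              rw [h, hX'e, h1] at b
              exact absurd b (by decide)
          · rintro rfl
            exact ⟨⟨hX, h1⟩, hcL⟩
        rw [this]; simp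
      · have : (univ.filter (fun X : α → SignType =>
            (Tope (Lj L e j) X ∧ X (e j) = 1) ∧ Cov L Y X)) = {cmp Y (-X)} := by
          ext Z
          simp only [Finset.mem_filter, Finset.mem_univ, true_and, Finset.mem_singleton]
          constructor
          · rintro ⟨⟨a, b⟩, c⟩
            rcases hsub Z a c with h | h
            · exfalso
              rw [h, h1] at b
              exact absurd b (by decide)
            · exact h
          · rintro rfl
            exact ⟨⟨hX', by rw [hX'e, h1]; decide⟩, hcL'⟩
        rw [this]; simp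
    · rw [if_neg (fun h => hYe (h.1.2 j (by omega)))]
      have h1 : X (e j) = Y (e j) := hc.le _ hYe
      have h2 : cmp Y (-X) (e j) = Y (e j) := cmp_of_ne hYe
      by_cases h3 : Y (e j) = 1
      · have : (univ.filter (fun X : α → SignType =>
            (Tope (Lj L e j) X ∧ X (e j) = 1) ∧ Cov L Y X)) = {X, cmp Y (-X)} := by
          ext Z
          simp only [Finset.mem_filter, Finset.mem_univ, true_and, Finset.mem_singleton,
            Finset.mem_insert]
          constructor
          · rintro ⟨⟨a, b⟩, c⟩
            exact hsub Z a c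
          · rintro (h | h)
            · rw [h]; exact ⟨⟨hX, by rw [h1, h3]⟩, hcL⟩
            · rw [h]; exact ⟨⟨hX', by rw [h2, h3]⟩, hcL'⟩
        rw [this, Finset.card_pair hXX']
        exact two_eq 1
      · have : (univ.filter (fun X : α → SignType =>
            (Tope (Lj L e j) X ∧ X (e j) = 1) ∧ Cov L Y X)) = ∅ := by
          rw [Finset.filter_eq_empty_iff]
          rintro Z _ ⟨⟨a, b⟩, c⟩
          apply h3
          rw [← b, c.le _ hYe]
        rw [this]; simp
  · rw [if_neg]
    · have : (univ.filter (fun X : α → SignType =>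
            (Tope (Lj L e j) X ∧ X (e j) = 1) ∧ Cov L Y X)) = ∅ := by
        rw [Finset.filter_eq_empty_iff]
        rintro Z _ ⟨⟨a, b⟩, c⟩
        exact hex ⟨Z, a, (cov_Lj a.1).2 c⟩
      rw [this]; simp
    · intro h
      exact hex (cov_of_tope_succ hL hB h)

open Classical in
theorem step (hL : IsOM L) {e : ℕ → α} {j : ℕ}
    (hB : ∃ X ∈ Lj L e j, X (e j) ≠ 0) (d : ℕ) (f : List (α → SignType) → ZMod 2) :
    ∑ X ∈ univ.filter (fun X : α → SignType => Tope (Lj L e j) X ∧ X (e j) = 1),
      A L (d+1) X (bd f) =
    ∑ Y ∈ univ.filter (fun Y : α → SignType => Tope (Lj L e (j+1)) Y), A L d Y f := by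
  have h1 : ∀ X : α → SignType, A L (d+1) X (bd f) =
      ∑ Y ∈ univ.filter (fun Y : α → SignType => Cov L Y X), A L d Y f := by
    intro X
    rw [A_bd hL]
  simp only [h1]
  rw [Finset.sum_comm' (t' := univ) (s' := fun Y => univ.filter (fun X : α → SignType =>
    (Tope (Lj L e j) X ∧ X (e j) = 1) ∧ Cov L Y X))]
  · rw [Finset.sum_filter]
    apply Finset.sum_congr rfl
    intro Y _
    rw [Finset.sum_const, nsmul_eq_mul, count_topes hL hB Y]
    split_ifs <;> simp
  · intro X Y
    simp only [Finset.mem_filter, Finset.mem_univ, true_and, and_true]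

/-- Tucker's lemma for the covector poset of an oriented matroid -/
theorem tucker (hL : IsOM L) (e : ℕ → α) (R : ℕ) (hR : 0 < R)
    (hB1 : ∀ j < R, ∃ X ∈ Lj L e j, X (e j) ≠ 0) (hB2 : ∀ X ∈ Lj L e R, X = 0)
    (idx : (α → SignType) → ℕ) (s : (α → SignType) → ZMod 2)
    (hidx : ∀ X ∈ L, X ≠ 0 → idx (-X) = idx X) (hs : ∀ X ∈ L, X ≠ 0 → s (-X) = 1 + s X)
    (hc : ∀ X ∈ L, ∀ Y ∈ L, X ≠ 0 → Y ≠ 0 → Le X Y → idx X = idx Y → s X = s Y)
    (I : Finset ℕ) (hI : ∀ X ∈ L, X ≠ 0 → idx X ∈ I) : R ≤ I.card := by
  classical
  by_contra hcon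
  push Not at hcon
  set F : List (α → SignType) → ZMod 2 := fun l => Pd ((srt idx l).map s) with hF
  set W : List (α → SignType) → ZMod 2 := fun l => Wd ((srt idx l).map s) with hW
  have hbdF : ∀ l, l ≠ [] → bd F l = W l := by
    intro l hl
    rw [hF, hW, bd_srt idx l (fun t => Pd (t.map s))]
    simp only
    rw [bd_map s Pd]
    have hne : srt idx l ≠ [] := by
      intro h
      apply hl
      have := length_srt idx l
      rw [h] at this
      exact List.length_eq_zero_iff.1 this.symm
    obtain ⟨a, t, hat⟩ := List.exists_cons_of_ne_nil hne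
    rw [hat, List.map_cons]
    exact bd_Pd _ _
  have hFneg : ∀ k X l, Good L (k+1) X l → F l + F (l.map (fun Y => -Y)) = W l := by
    intro k X l hl
    obtain ⟨h1, h2, h3⟩ := hl
    have hne : srt idx l ≠ [] := by
      intro h
      have := length_srt idx l
      rw [h, h1] at this
      simp at this
    rw [hF, hW]
    simp only
    rw [srt_map idx (fun Y => -Y) l (fun x hx => hidx x (h2 x hx).1 (h2 x hx).2.1), List.map_map]
    apply Pd_flip s (s ∘ fun Y => -Y) _ _ hne
    intro x hx
    have hx' := (mem_srt idx).1 hx
    exact hs x (h2 x hx').1 (h2 x hx').2.1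
  have hWzero : ∀ X l, Good L R X l → W l = 0 := by
    intro X l hl
    by_contra hne
    obtain ⟨h1, h2, h3⟩ := hl
    have hcc : ∀ a ∈ l, ∀ b ∈ l, idx a = idx b → s a = s b := by
      intro a ha b hb hab
      have hcmp : a = b ∨ Le a b ∨ Le b a := by
        rcases pairwise_or (fun a b : α → SignType => Le b a) l h3 a ha b hb with h | h | h
        · exact Or.inl h
        · exact Or.inr (Or.inr h)
        · exact Or.inr (Or.inl h)
      obtain ⟨a1, a2, -⟩ := h2 a ha
      obtain ⟨b1, b2, -⟩ := h2 b hb
      rcases hcmp with h | h | h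
      · rw [h]
      · exact hc a a1 b b1 a2 b2 h hab
      · exact (hc b b1 a a1 b2 a2 h hab.symm).symm
    have := length_le_of_Wd idx s (srt idx l) I
      (fun a ha => hI a (h2 a ((mem_srt idx).1 ha)).1 (h2 a ((mem_srt idx).1 ha)).2.1)
      (sorted_srt idx l)
      (fun a ha b hb => hcc a ((mem_srt idx).1 ha) b ((mem_srt idx).1 hb)) hne
    rw [length_srt, h1] at this
    omega
  have key : ∀ d j, j + d + 1 = R →
      ∑ X ∈ univ.filter (fun X : α → SignType => Tope (Lj L e j) X ∧ X (e j) = 1),
        A L (d+1) X W = 1 := by
    intro d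
    induction d with
    | zero =>
      intro j hj
      have h1 : ∀ X : α → SignType, A L (0+1) X W = A L (0+1) X (bd F) := by
        intro X
        apply A_congr
        intro l hl
        rw [hbdF l]
        intro h
        have := hl.1
        rw [h] at this
        simp at this
      simp only [h1]
      rw [step hL (hB1 j (by omega))]
      have h2 : univ.filter (fun Y : α → SignType => Tope (Lj L e (j+1)) Y) = {0} := by
        ext Y
        simp only [Finset.mem_filter, Finset.mem_univ, true_and, Finset.mem_singleton]
        have hj' : j + 1 = R := by omega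
        rw [hj']
        constructor
        · intro h
          exact hB2 Y h.1
        · rintro rfl
          exact ⟨(Lj_om hL e R).zero, fun Z hZ _ => hB2 Z hZ⟩
      rw [h2, Finset.sum_singleton]
      simp [A, hF, srt_nil, Pd]
    | succ d ih =>
      intro j hj
      have h1 : ∀ X : α → SignType, A L (d+1+1) X W = A L (d+1+1) X (bd F) := by
        intro X
        apply A_congr
        intro l hl
        rw [hbdF l]
        intro h
        have := hl.1
        rw [h] at this
        simp at this
      simp only [h1]
      rw [step hL (hB1 j (by omega))]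
      rw [← ih (j+1) (by omega)]
      have hM := Lj_om hL e (j+1)
      have hsplit : univ.filter (fun Y : α → SignType => Tope (Lj L e (j+1)) Y) =
          (univ.filter (fun X : α → SignType => Tope (Lj L e (j+1)) X ∧ X (e (j+1)) = 1)) ∪
          (univ.filter (fun X : α → SignType => Tope (Lj L e (j+1)) X ∧ X (e (j+1)) = -1)) := by
        ext Y
        simp only [Finset.mem_filter, Finset.mem_univ, true_and, Finset.mem_union]
        constructor
        · intro h
          rcases sg6 (Y (e (j+1))) with h0 | h1 | h1
          · exfalso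
            obtain ⟨A, hA, hAe⟩ := hB1 (j+1) (by omega)
            exact hAe (h.supp hM hA h0)
          · left; exact ⟨h, h1⟩
          · right; exact ⟨h, h1⟩
        · rintro (h | h) <;> exact h.1
      have hdisj : Disjoint
          (univ.filter (fun X : α → SignType => Tope (Lj L e (j+1)) X ∧ X (e (j+1)) = 1))
          (univ.filter (fun X : α → SignType => Tope (Lj L e (j+1)) X ∧ X (e (j+1)) = -1)) := by
        rw [Finset.disjoint_left]
        intro X h1 h2
        simp only [Finset.mem_filter, Finset.mem_univ, true_and] at h1 h2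
        rw [h1.2] at h2
        exact absurd h2.2 (by decide)
      rw [hsplit, Finset.sum_union hdisj]
      have hneg : ∑ X ∈ univ.filter
            (fun X : α → SignType => Tope (Lj L e (j+1)) X ∧ X (e (j+1)) = -1), A L (d+1) X F =
          ∑ X ∈ univ.filter
            (fun X : α → SignType => Tope (Lj L e (j+1)) X ∧ X (e (j+1)) = 1),
            A L (d+1) X (fun l => F (l.map (fun Y => -Y))) := by
        refine Finset.sum_bij' (fun Y _ => -Y) (fun Y _ => -Y) ?_ ?_ ?_ ?_ ?_
        · intro Y hY
          simp only [Finset.mem_filter, Finset.mem_univ, true_and] at hY ⊢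
          exact ⟨hY.1.neg hM, by rw [Pi.neg_apply, hY.2]; decide⟩
        · intro Y hY
          simp only [Finset.mem_filter, Finset.mem_univ, true_and] at hY ⊢
          exact ⟨hY.1.neg hM, by rw [Pi.neg_apply, hY.2]⟩
        · intro Y _; exact neg_neg Y
        · intro Y _; exact neg_neg Y
        · intro Y _
          rw [← A_neg hL, neg_neg]
      rw [hneg, ← Finset.sum_add_distrib]
      apply Finset.sum_congr rfl
      intro X _
      rw [← A_add]
      apply A_congr
      intro l hl
      exact hFneg d X l hl
  have hfin := key (R-1) 0 (by omega)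
  have hR' : R - 1 + 1 = R := by omega
  rw [hR'] at hfin
  rw [Finset.sum_eq_zero (fun X _ => A_zero_of R X W (hWzero X))] at hfin
  exact absurd hfin (by decide)

end Pool.Agent.H277R2.OM
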