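import Mathlib
import Pool.Agent.H277R2.OM3

set_option autoImplicit false

namespace Pool.Agent.H277R2.OM

open Finset

variable {α : Type*} {L : Set (α → SignType)}

/-- orthogonality of sign vectors -/
def Orth (X Y : α → SignType) : Prop :=
  (∀ e : α, X e * Y e = 0) ∨ ∃ e f : α, X e * Y e = 1 ∧ X f * Y f = -1

def Vc (L : Set (α → SignType)) : Set (α → SignType) := {Y | ∀ X ∈ L, Orth X Y}

theorem m1 : ∀ a b : SignType, a * b = 1 → a ≠ 0 ∧ b ≠ 0 ∧ a = b := by decide
theorem m2 : ∀ a b : SignType, a * b = -1 → a ≠ 0 ∧ b ≠ 0 ∧ a = -b := by decide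
theorem m3 : ∀ a b : SignType, a * b ≠ 0 → a ≠ 0 ∧ b ≠ 0 := by decide
theorem m4 : ∀ a b : SignType, a ≠ 0 → b ≠ 0 → a * b ≠ 0 := by decide
theorem m5 : ∀ a : SignType, a ≠ 0 → a = 1 ∨ a = -1 := by decide
theorem m6 : ∀ a b : SignType, -a * b = -(a * b) := by decide
theorem m7 : ∀ a b : SignType, a * -b = -(a * b) := by decide
theorem m8 : ∀ a : SignType, a ≠ 0 → a * a = 1 := by decide
theorem m9 : ∀ a b : SignType, a * b = b * a := by decide

/-- not orthogonal: up to sign, all products are `≥ 0` and one is positive -/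
def Pos (X Y : α → SignType) : Prop := (∀ e, X e * Y e ≠ -1) ∧ ∃ e, X e * Y e = 1

theorem not_orth_iff (X Y : α → SignType) : ¬ Orth X Y ↔ Pos X Y ∨ Pos (-X) Y := by
  constructor
  · intro h
    unfold Orth at h
    push Not at h
    obtain ⟨⟨e, he⟩, h2⟩ := h
    rcases m5 _ he with h1 | h1
    · left
      exact ⟨fun f => h2 e f h1, e, h1⟩
    · right
      refine ⟨fun f hf => ?_, e, ?_⟩
      · rw [Pi.neg_apply, m6] at hf
        exact h2 f e (neg_injective hf) h1
      · rw [Pi.neg_apply, m6, h1]; rfl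
  · rintro (⟨h1, e, he⟩ | ⟨h1, e, he⟩) h
    · rcases h with h | ⟨a, b, ha, hb⟩
      · rw [h e] at he; exact absurd he (by decide)
      · exact h1 b hb
    · rw [Pi.neg_apply, m6] at he
      rcases h with h | ⟨a, b, ha, hb⟩
      · rw [h e] at he; exact absurd he (by decide)
      · apply h1 a
        rw [Pi.neg_apply, m6, ha]

theorem orth_neg (X Y : α → SignType) (h : Orth X Y) : Orth (-X) Y := by
  rcases h with h | ⟨a, b, ha, hb⟩
  · left; intro e; rw [Pi.neg_apply, m6, h e]; rfl
  · right; exact ⟨b, a, by rw [Pi.neg_apply, m6, hb]; rfl, by rw [Pi.neg_apply, m6, ha]⟩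

theorem orth_neg' (X Y : α → SignType) (h : Orth X Y) : Orth X (-Y) := by
  rcases h with h | ⟨a, b, ha, hb⟩
  · left; intro e; rw [Pi.neg_apply, m7, h e]; rfl
  · right; exact ⟨b, a, by rw [Pi.neg_apply, m7, hb]; rfl, by rw [Pi.neg_apply, m7, ha]⟩

theorem orth_symm (X Y : α → SignType) (h : Orth X Y) : Orth Y X := by
  rcases h with h | ⟨a, b, ha, hb⟩
  · left; intro e; rw [m9, h e]
  · right; exact ⟨a, b, by rw [m9, ha], by rw [m9, hb]⟩

section
variable [DecidableEq α]

/-- one-coordinate extension -/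
theorem ext_one (hL : IsOM L) (z : α) (Y : α → SignType)
    (h : ∀ X ∈ L, X z = 0 → Orth X Y) :
    ∃ y : SignType, ∀ X ∈ L, Orth X (Function.update Y z y) := by
  by_cases h0 : ∀ X ∈ L, Orth X (Function.update Y z 0)
  · exact ⟨0, h0⟩
  · push Not at h0
    -- X violating with y = 0, normalised to be positive
    obtain ⟨X, hX, hpos⟩ : ∃ X ∈ L, Pos X (Function.update Y z 0) := by
      obtain ⟨X, hX, hno⟩ := h0
      rcases (not_orth_iff _ _).1 hno with h' | h'
      · exact ⟨X, hX, h'⟩
      · exact ⟨-X, hL.neg _ hX, h'⟩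
    obtain ⟨hp1, a, ha⟩ := hpos
    have haz : a ≠ z := by
      rintro rfl
      rw [Function.update_self] at ha
      rw [mul_zero] at ha
      exact absurd ha (by decide)
    have hXz : X z ≠ 0 := by
      intro hXz
      have ho := h X hX hXz
      apply (not_orth_iff X Y).2 _ ho
      left
      refine ⟨fun e => ?_, a, ?_⟩
      · by_cases hez : e = z
        · rw [hez, hXz, zero_mul]; decide
        · have := hp1 e
          rwa [Function.update_of_ne hez] at this
      · rwa [Function.update_of_ne haz] at ha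
    refine ⟨-X z, ?_⟩
    by_contra hcon
    push Not at hcon
    obtain ⟨X', hX', hpos'⟩ : ∃ X' ∈ L, Pos X' (Function.update Y z (-X z)) := by
      obtain ⟨X', hX', hno⟩ := hcon
      rcases (not_orth_iff _ _).1 hno with h' | h'
      · exact ⟨X', hX', h'⟩
      · exact ⟨-X', hL.neg _ hX', h'⟩
    obtain ⟨hq1, b, hb⟩ := hpos'
    have hX'z : X' z ≠ 0 := by
      intro hX'z
      have ho := h X' hX' hX'z
      have hbz : b ≠ z := by
        rintro rfl
        rw [hX'z, zero_mul] at hb
        exact absurd hb (by decide)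
      apply (not_orth_iff X' Y).2 _ ho
      left
      refine ⟨fun e => ?_, b, ?_⟩
      · by_cases hez : e = z
        · rw [hez, hX'z, zero_mul]; decide
        · have := hq1 e
          rwa [Function.update_of_ne hez] at this
      · rwa [Function.update_of_ne hbz] at hb
    have hsep : X z = - X' z := by
      have h1 := hq1 z
      rw [Function.update_self] at h1
      have : ∀ a b : SignType, a ≠ 0 → b ≠ 0 → b * -a ≠ -1 → a = -b := by decide
      exact this _ _ hXz hX'z h1
    obtain ⟨Z, hZ, hZz, hZf⟩ := hL.elim X hX X' hX' z hXz hsep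
    have ho := h Z hZ hZz
    apply (not_orth_iff Z Y).2 _ ho
    left
    have hnn : ∀ e, e ≠ z → Y e ≠ 0 → (X e = 0 ∨ X e ≠ - X' e) := by
      intro e hez hY
      have h1 := hp1 e
      have h2 := hq1 e
      rw [Function.update_of_ne hez] at h1 h2
      have : ∀ a b c : SignType, c ≠ 0 → a * c ≠ -1 → b * c ≠ -1 → (a = 0 ∨ a ≠ -b) := by decide
      exact this _ _ _ hY h1 h2
    refine ⟨fun e he => ?_, a, ?_⟩
    · by_cases hez : e = z
      · rw [hez, hZz, zero_mul] at he
        exact absurd he (by decide)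
      · by_cases hY : Y e = 0
        · rw [hY, mul_zero] at he
          exact absurd he (by decide)
        · rw [hZf e (hnn e hez hY)] at he
          have h1 := hp1 e
          have h2 := hq1 e
          rw [Function.update_of_ne hez] at h1 h2
          unfold cmp at he
          split_ifs at he
          · exact h2 he
          · exact h1 he
    · rw [Function.update_of_ne haz] at ha
      obtain ⟨hXa, hYa, -⟩ := m1 _ _ ha
      rw [hZf a (hnn a haz hYa), cmp_of_ne hXa, ha]

theorem sub_om (hL : IsOM L) (S : Set α) : IsOM {X | X ∈ L ∧ ∀ e ∈ S, X e = 0} := by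
  refine ⟨⟨hL.zero, fun _ _ => rfl⟩, ?_, ?_, ?_⟩
  · rintro X ⟨h1, h2⟩
    exact ⟨hL.neg _ h1, fun i hi => by rw [Pi.neg_apply, h2 i hi]; rfl⟩
  · rintro X ⟨h1, h2⟩ Y ⟨h3, h4⟩
    exact ⟨hL.comp _ h1 _ h3, fun i hi => by rw [cmp_zero_iff]; exact ⟨h2 i hi, h4 i hi⟩⟩
  · rintro X ⟨h1, h2⟩ Y ⟨h3, h4⟩ a ha hab
    obtain ⟨Z, hZ, hZ1, hZ2⟩ := hL.elim X h1 Y h3 a ha hab
    refine ⟨Z, ⟨hZ, fun i hi => ?_⟩, hZ1, hZ2⟩
    rw [hZ2 _ (Or.inl (h2 i hi)), cmp_zero_iff]
    exact ⟨h2 i hi, h4 i hi⟩

/-- extension over a finite set of coordinates -/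
theorem ext_set (hL : IsOM L) (S : Finset α) : ∀ (Y : α → SignType),
    (∀ X ∈ L, (∀ e ∈ S, X e = 0) → Orth X Y) →
    ∃ Z ∈ Vc L, ∀ e, e ∉ S → Z e = Y e := by
  induction S using Finset.induction_on with
  | empty =>
    intro Y h
    exact ⟨Y, fun X hX => h X hX (by simp), fun _ _ => rfl⟩
  | insert z S hz ih =>
    intro Y h
    have hM := sub_om hL (S : Set α)
    obtain ⟨y, hy⟩ := ext_one hM z Y (by
      rintro X ⟨hX, hX2⟩ hXz
      apply h X hX
      intro e he
      rcases Finset.mem_insert.1 he with rfl | he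
      · exact hXz
      · exact hX2 e (by simpa using he))
    obtain ⟨Z, hZ, hZe⟩ := ih (Function.update Y z y) (fun X hX hX2 =>
      hy X ⟨hX, fun e he => hX2 e (by simpa using he)⟩)
    refine ⟨Z, hZ, fun e he => ?_⟩
    rw [Finset.mem_insert, not_or] at he
    rw [hZe e he.2, Function.update_of_ne he.1]

theorem Vc_om [Fintype α] (hL : IsOM L) : IsOM (Vc L) := by
  refine ⟨?_, ?_, ?_, ?_⟩
  · intro X _
    left; intro e; simp
  · intro Y hY X hX
    exact orth_neg' _ _ (hY X hX)
  · intro Y hY Y' hY' X hX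
    rcases hY X hX with h | ⟨a, b, ha, hb⟩
    · have h1 : ∀ e, X e * cmp Y Y' e = X e * Y' e := by
        intro e
        by_cases hYe : Y e = 0
        · rw [cmp_of_eq hYe]
        · rw [cmp_of_ne hYe]
          have hXe : X e = 0 := by
            by_contra hX0
            exact m4 _ _ hX0 hYe (h e)
          rw [hXe]; simp
      rcases hY' X hX with h' | ⟨a, b, ha, hb⟩
      · left; intro e; rw [h1, h' e]
      · right; exact ⟨a, b, by rw [h1, ha], by rw [h1, hb]⟩
    · right
      refine ⟨a, b, ?_, ?_⟩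
      · rw [cmp_of_ne (m1 _ _ ha).2.1, ha]
      · rw [cmp_of_ne (m2 _ _ hb).2.1, hb]
  · intro Y₁ hY₁ Y₂ hY₂ e he0 he
    classical
    -- the separating set
    set S : Finset α := Finset.univ.filter (fun f => Y₁ f ≠ 0 ∧ Y₁ f = -Y₂ f) with hS
    set Y : α → SignType := fun f => if f = e then 0 else cmp Y₁ Y₂ f with hY
    obtain ⟨Z, hZ, hZf⟩ := ext_set hL (S.erase e) Y (by
      intro X hX hX0
      have hXS : ∀ f, f ≠ e → Y₁ f ≠ 0 → Y₁ f = -Y₂ f → X f = 0 := by
        intro f hfe h1 h2
        apply hX0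
        rw [Finset.mem_erase, hS, Finset.mem_filter]
        exact ⟨hfe, Finset.mem_univ _, h1, h2⟩
      by_cases hXe : X e = 0
      · -- same as composition
        have h1 : ∀ f, X f * Y f = X f * cmp Y₁ Y₂ f := by
          intro f
          by_cases hfe : f = e
          · rw [hfe, hXe]; simp
          · simp only [hY, if_neg hfe]
        have h2 : Orth X (cmp Y₁ Y₂) := by
          rcases hY₁ X hX with h | ⟨a, b, ha, hb⟩
          · have h3 : ∀ f, X f * cmp Y₁ Y₂ f = X f * Y₂ f := by
              intro f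
              by_cases hYe : Y₁ f = 0
              · rw [cmp_of_eq hYe]
              · rw [cmp_of_ne hYe]
                have hXe : X f = 0 := by
                  by_contra hX0
                  exact m4 _ _ hX0 hYe (h f)
                rw [hXe]; simp
            rcases hY₂ X hX with h' | ⟨a, b, ha, hb⟩
            · left; intro f; rw [h3, h' f]
            · right; exact ⟨a, b, by rw [h3, ha], by rw [h3, hb]⟩
          · right
            exact ⟨a, b, by rw [cmp_of_ne (m1 _ _ ha).2.1, ha],
              by rw [cmp_of_ne (m2 _ _ hb).2.1, hb]⟩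
        rcases h2 with h | ⟨a, b, ha, hb⟩
        · left; intro f; rw [h1, h f]
        · right; exact ⟨a, b, by rw [h1, ha], by rw [h1, hb]⟩
      · right
        -- products with Y₁ and Y₂ have opposite signs at e
        have hY₂e : Y₂ e ≠ 0 := sg1 _ _ he0 he
        have hget : ∀ (Y' : α → SignType), Orth X Y' → X e * Y' e ≠ 0 →
            ∃ f, f ≠ e ∧ X f * Y' f = -(X e * Y' e) := by
          intro Y' ho hne
          rcases ho with h | ⟨a, b, ha, hb⟩
          · exact absurd (h e) hne
          · rcases m5 _ hne with h | h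
            · refine ⟨b, ?_, by rw [hb, h]⟩
              rintro rfl
              rw [h] at hb; exact absurd hb (by decide)
            · refine ⟨a, ?_, by rw [ha, h]; rfl⟩
              rintro rfl
              rw [h] at ha; exact absurd ha (by decide)
        obtain ⟨f, hfe, hf⟩ := hget Y₁ (hY₁ X hX) (m4 _ _ hXe he0)
        obtain ⟨g, hge, hg⟩ := hget Y₂ (hY₂ X hX) (m4 _ _ hXe hY₂e)
        have hfne : X f * Y₁ f ≠ 0 := by
          rw [hf]
          have : ∀ a : SignType, a ≠ 0 → -a ≠ 0 := by decide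
          exact this _ (m4 _ _ hXe he0)
        have hgne : X g * Y₂ g ≠ 0 := by
          rw [hg]
          have : ∀ a : SignType, a ≠ 0 → -a ≠ 0 := by decide
          exact this _ (m4 _ _ hXe hY₂e)
        have hYf : Y f = Y₁ f := by
          simp only [hY, if_neg hfe]
          exact cmp_of_ne (m3 _ _ hfne).2
        have hYg : Y g = Y₂ g := by
          simp only [hY, if_neg hge]
          by_cases h1 : Y₁ g = 0
          · rw [cmp_of_eq h1]
          · rw [cmp_of_ne h1]
            rcases sg4 _ _ h1 (m3 _ _ hgne).2 with h2 | h2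
            · exact absurd (hXS g hge h1 h2) (m3 _ _ hgne).1
            · exact h2
        have hopp : X e * Y₁ e = -(X e * Y₂ e) := by rw [he, m7]
        rw [hopp] at hf
        rcases m5 _ (m4 _ _ hXe hY₂e) with h | h
        · rw [h] at hf hg
          exact ⟨f, g, by rw [hYf, hf]; rfl, by rw [hYg, hg]⟩
        · rw [h] at hf hg
          exact ⟨g, f, by rw [hYg, hg]; rfl, by rw [hYf, hf]; rfl⟩)
    refine ⟨Z, hZ, ?_, ?_⟩
    · rw [hZf e (by simp)]
      simp [hY]
    · intro f hf
      have hfe : f ≠ e := by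
        rintro rfl
        rcases hf with h | h
        · exact he0 h
        · exact h he
      rw [hZf f]
      · simp only [hY, if_neg hfe]
      · simp only [hS, Finset.mem_erase, Finset.mem_filter, Finset.mem_univ, true_and, not_and]
        intro _ h1
        exact hf.resolve_left h1

/-- `B` is a basis in the covector sense -/
structure Bas (L : Set (α → SignType)) (B : Finset α) : Prop where
  ex : ∀ e ∈ B, ∃ X ∈ L, X e ≠ 0 ∧ ∀ f ∈ B, f ≠ e → X f = 0
  uniq : ∀ X ∈ L, (∀ e ∈ B, X e = 0) → X = 0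

theorem bas_dual [Fintype α] {B : Finset α}
    (hind : ∀ Y ∈ Vc L, Y ≠ 0 → ∃ e, Y e ≠ 0 ∧ e ∉ B)
    (hmax : ∀ J : Finset α, (∀ Y ∈ Vc L, Y ≠ 0 → ∃ e, Y e ≠ 0 ∧ e ∉ J) → J.card ≤ B.card) :
    Bas (Vc L) Bᶜ := by
  constructor
  · intro e he
    rw [Finset.mem_compl] at he
    have h1 : ¬ (∀ Y ∈ Vc L, Y ≠ 0 → ∃ f, Y f ≠ 0 ∧ f ∉ insert e B) := by
      intro h
      have := hmax _ h
      rw [Finset.card_insert_of_notMem he] at this
      omega
    push Not at h1
    obtain ⟨Y, hY, hY0, hYs⟩ := h1
    refine ⟨Y, hY, ?_, ?_⟩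
    · intro hYe
      obtain ⟨f, hf1, hf2⟩ := hind Y hY hY0
      have := hYs f hf1
      rw [Finset.mem_insert] at this
      rcases this with h | h
      · rw [h] at hf1; exact hf1 hYe
      · exact hf2 h
    · intro f hf hfe
      rw [Finset.mem_compl] at hf
      by_contra h0
      have := hYs f h0
      rw [Finset.mem_insert] at this
      rcases this with h | h
      · exact hfe h
      · exact hf h
  · intro Y hY h
    by_contra hne
    obtain ⟨f, hf1, hf2⟩ := hind Y hY hne
    exact hf1 (h f (by rw [Finset.mem_compl]; exact hf2))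

theorem bas_primal [Fintype α] (hL : IsOM L) {B : Finset α}
    (hind : ∀ Y ∈ Vc L, Y ≠ 0 → ∃ e, Y e ≠ 0 ∧ e ∉ B)
    (hmax : ∀ J : Finset α, (∀ Y ∈ Vc L, Y ≠ 0 → ∃ e, Y e ≠ 0 ∧ e ∉ J) → J.card ≤ B.card) :
    Bas L B := by
  constructor
  · intro e he
    by_contra hcon
    push Not at hcon
    -- the vector with value 1 at e and 0 outside B
    obtain ⟨Z, hZ, hZf⟩ := ext_set hL (B.erase e) (fun f => if f = e then 1 else 0) (by
      intro X hX hX0
      have hXe : X e = 0 := by
        by_contra h0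
        obtain ⟨f, hf1, hf2, hf3⟩ := hcon X hX h0
        exact hf3 (hX0 f (by rw [Finset.mem_erase]; exact ⟨hf2, hf1⟩))
      left
      intro f
      by_cases hfe : f = e
      · rw [hfe, hXe, zero_mul]
      · simp [hfe])
    have hZe : Z e = 1 := by rw [hZf e (by simp)]; simp
    obtain ⟨f, hf1, hf2⟩ := hind Z hZ (by
      intro h
      rw [h, Pi.zero_apply] at hZe
      exact absurd hZe (by decide))
    have hfe : f ≠ e := by rintro rfl; exact hf2 he
    apply hf1
    rw [hZf f (by rw [Finset.mem_erase]; exact fun h => hf2 h.2)]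
    simp [hfe]
  · intro X hX h
    by_contra hne
    have : ∃ g, X g ≠ 0 := by
      by_contra hcon
      push Not at hcon
      exact hne (funext hcon)
    obtain ⟨g, hg⟩ := this
    have hgB : g ∉ B := fun hB => hg (h g hB)
    obtain ⟨Y, hY, hYg, hYf⟩ := (bas_dual hind hmax).ex g (by rw [Finset.mem_compl]; exact hgB)
    have hXY : ∀ f, f ≠ g → X f * Y f = 0 := by
      intro f hfg
      by_cases hfB : f ∈ B
      · rw [h f hfB, zero_mul]
      · rw [hYf f (by rw [Finset.mem_compl]; exact hfB) hfg, mul_zero]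
    rcases hY X hX with h' | ⟨a, b, ha, hb⟩
    · exact m4 _ _ hg hYg (h' g)
    · have ha' : a = g := by
        by_contra hne'
        rw [hXY a hne'] at ha
        exact absurd ha (by decide)
      have hb' : b = g := by
        by_contra hne'
        rw [hXY b hne'] at hb
        exact absurd hb (by decide)
      rw [ha'] at ha
      rw [hb', ha] at hb
      exact absurd hb (by decide)

end

end Pool.Agent.H277R2.OM
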