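import Mathlib
import Pool.Agent.H277R2.OM4

set_option autoImplicit false

namespace Pool.Agent.H277R2.OM

open Finset

/-! ### minimum index of a predicate -/

section mn
variable {n : ℕ}

open Classical in
noncomputable def mn (p : Fin n → Prop) : ℕ :=
  if h : ∃ k, ∃ hk : k < n, p ⟨k, hk⟩ then Nat.find h else n

theorem mn_spec {p : Fin n → Prop} (h : ∃ i, p i) : ∃ hk : mn p < n, p ⟨mn p, hk⟩ := by
  classical
  have h' : ∃ k, ∃ hk : k < n, p ⟨k, hk⟩ := by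
    obtain ⟨i, hi⟩ := h
    exact ⟨i.1, i.2, hi⟩
  have he : mn p = Nat.find h' := by
    unfold mn
    rw [dif_pos h']
  rw [he]
  exact Nat.find_spec h'

theorem mn_le {p : Fin n → Prop} {i : Fin n} (hi : p i) : mn p ≤ i := by
  classical
  have h' : ∃ k, ∃ hk : k < n, p ⟨k, hk⟩ := ⟨i.1, i.2, hi⟩
  have he : mn p = Nat.find h' := by
    unfold mn
    rw [dif_pos h']
  rw [he]
  exact Nat.find_min' h' ⟨i.2, hi⟩

theorem mn_le_n (p : Fin n → Prop) : mn p ≤ n := by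
  classical
  by_cases h : ∃ i, p i
  · exact (mn_spec h).1.le
  · unfold mn
    rw [dif_neg]
    rintro ⟨k, hk, hp⟩
    exact h ⟨_, hp⟩

theorem mn_anti {p q : Fin n → Prop} (h : ∀ i, p i → q i) : mn q ≤ mn p := by
  by_cases h' : ∃ i, p i
  · obtain ⟨hk, hp⟩ := mn_spec h'
    exact mn_le (h _ hp)
  · have : mn p = n := by
      classical
      unfold mn
      rw [dif_neg]
      rintro ⟨k, hk, hp⟩
      exact h' ⟨_, hp⟩
    rw [this]
    exact mn_le_n q

end mn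

section lab
variable {n : ℕ}

def pA (S : Finset (Fin n)) (ℓ : Fin n) (x z : Fin n → SignType) (i : Fin n) : Prop :=
  i ∈ S ∧ i ≠ ℓ ∧ (z i < x i ∨ (x i = z i ∧ x i ≠ 0))

def pB (S : Finset (Fin n)) (ℓ : Fin n) (x z : Fin n → SignType) (i : Fin n) : Prop :=
  i ∈ S ∧ i ≠ ℓ ∧ (x i < z i ∨ (x i = z i ∧ x i ≠ 0))

def pD (x z : Fin n → SignType) (i : Fin n) : Prop := x i ≠ z i

def pDS (S : Finset (Fin n)) (x z : Fin n → SignType) (i : Fin n) : Prop := i ∈ S ∧ x i ≠ z i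

open Classical in
noncomputable def sgx (x z : Fin n → SignType) (k : ℕ) : ZMod 2 :=
  if ∃ h : k < n, z ⟨k, h⟩ < x ⟨k, h⟩ then 0 else 1

open Classical in
noncomputable def lab (S : Finset (Fin n)) (ℓ : Fin n) (x z : Fin n → SignType) : ℕ × ZMod 2 :=
  if z ℓ < x ℓ then (mn (pB S ℓ x z), 1)
  else if x ℓ < z ℓ then (mn (pA S ℓ x z), 0)
  else if x ℓ ≠ 0 then (mn (pD x z), sgx x z (mn (pD x z)))
  else if ∃ i, pDS S x z i then
    (if mn (pB S ℓ x z) < mn (pA S ℓ x z) then (mn (pA S ℓ x z), 0)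
     else if mn (pA S ℓ x z) < mn (pB S ℓ x z) then (mn (pB S ℓ x z), 1)
     else (mn (pDS S x z), sgx x z (mn (pDS S x z))))
  else (mn (pD x z), sgx x z (mn (pD x z)))

theorem s1 : ∀ a b : SignType, -a < -b ↔ b < a := by decide
theorem s2 : ∀ a b : SignType, -a = -b ↔ a = b := by decide
theorem s3 : ∀ a : SignType, -a = 0 ↔ a = 0 := by decide

theorem pA_neg (S : Finset (Fin n)) (ℓ : Fin n) (x z : Fin n → SignType) :
    pA S ℓ (-x) (-z) = pB S ℓ x z := by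
  funext i
  simp only [pA, pB, Pi.neg_apply, s1, s2, ne_eq, s3]

theorem pB_neg (S : Finset (Fin n)) (ℓ : Fin n) (x z : Fin n → SignType) :
    pB S ℓ (-x) (-z) = pA S ℓ x z := by
  funext i
  simp only [pA, pB, Pi.neg_apply, s1, s2, ne_eq, s3]

theorem pD_neg (x z : Fin n → SignType) : pD (-x) (-z) = pD x z := by
  funext i
  simp only [pD, Pi.neg_apply, ne_eq, s2]

theorem pDS_neg (S : Finset (Fin n)) (x z : Fin n → SignType) :
    pDS S (-x) (-z) = pDS S x z := by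
  funext i
  simp only [pDS, Pi.neg_apply, ne_eq, s2]

theorem sgx_neg (x z : Fin n → SignType) (k : ℕ) (hk : k < n) (h : x ⟨k, hk⟩ ≠ z ⟨k, hk⟩) :
    sgx (-x) (-z) k = 1 + sgx x z k := by
  unfold sgx
  by_cases h1 : z ⟨k, hk⟩ < x ⟨k, hk⟩
  · rw [if_neg, if_pos ⟨hk, h1⟩, add_zero]
    rintro ⟨_, h2⟩
    simp only [Pi.neg_apply, s1] at h2
    exact absurd (h1.trans h2) (lt_irrefl _)
  · have h2 : x ⟨k, hk⟩ < z ⟨k, hk⟩ := lt_of_le_of_ne (not_lt.1 h1) h
    rw [if_pos, if_neg]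
    · exact (two_eq 1).symm
    · rintro ⟨_, h3⟩; exact h1 h3
    · exact ⟨hk, by simpa only [Pi.neg_apply, s1] using h2⟩

def Gd (S : Finset (Fin n)) (x : Fin n → SignType) : Prop :=
  (∀ e ∈ S, x e = 0) ∨ ((∃ e ∈ S, x e = 1) ∧ (∃ e ∈ S, x e = -1))

theorem lab_neg (S : Finset (Fin n)) (ℓ : Fin n) (x z : Fin n → SignType) (hne : x ≠ z) :
    lab S ℓ (-x) (-z) = ((lab S ℓ x z).1, 1 + (lab S ℓ x z).2) := by
  classical
  have hD : ∃ i, pD x z i := by
    by_contra h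
    push Not at h
    apply hne
    funext i
    have := h i
    unfold pD at this
    push Not at this
    exact this
  obtain ⟨hk, hkD⟩ := mn_spec hD
  unfold lab
  rw [pA_neg, pB_neg, pD_neg, pDS_neg]
  simp only [Pi.neg_apply, s1, ne_eq, s3]
  by_cases h1 : z ℓ < x ℓ
  · rw [if_neg (not_lt.2 h1.le), if_pos h1, if_pos h1]
    simp only [Prod.mk.injEq, true_and]
    exact (two_eq 1).symm
  · by_cases h2 : x ℓ < z ℓ
    · rw [if_pos h2, if_neg h1, if_pos h2]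
      simp
    · rw [if_neg h2, if_neg h1, if_neg h1, if_neg h2]
      by_cases h3 : x ℓ = 0
      · rw [if_neg (not_not.2 h3), if_neg (not_not.2 h3)]
        by_cases h4 : ∃ i, pDS S x z i
        · rw [if_pos h4, if_pos h4]
          obtain ⟨hk', hkD'⟩ := mn_spec h4
          by_cases h5 : mn (pB S ℓ x z) < mn (pA S ℓ x z)
          · rw [if_neg (not_lt.2 h5.le), if_pos h5, if_pos h5]
            simp
          · by_cases h6 : mn (pA S ℓ x z) < mn (pB S ℓ x z)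
            · rw [if_pos h6, if_neg h5, if_pos h6]
              simp only [Prod.mk.injEq, true_and]
              exact (two_eq 1).symm
            · rw [if_neg h6, if_neg h5, if_neg h5, if_neg h6]
              simp only [Prod.mk.injEq, true_and]
              exact sgx_neg x z _ hk' hkD'.2
        · rw [if_neg h4, if_neg h4]
          simp only [Prod.mk.injEq, true_and]
          exact sgx_neg x z _ hk hkD
      · rw [if_pos h3, if_pos h3]
        simp only [Prod.mk.injEq, true_and]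
        exact sgx_neg x z _ hk hkD

theorem s4 : ∀ a b : SignType, b < a → a = 1 ∨ b = -1 := by decide
theorem s5 : ∀ a b : SignType, a = 1 → (b < a ∨ (a = b ∧ a ≠ 0)) := by decide
theorem s6 : ∀ a b : SignType, b = -1 → (b < a ∨ (a = b ∧ a ≠ 0)) := by decide
theorem s7 : ∀ a b : SignType, a = -1 → (a < b ∨ (a = b ∧ a ≠ 0)) := by decide
theorem s8 : ∀ a b : SignType, b = 1 → (a < b ∨ (a = b ∧ a ≠ 0)) := by decide
theorem s9 : ∀ a b : SignType, a ≠ b → a = 1 ∨ a = -1 ∨ b = 1 ∨ b = -1 := by decide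

/-- if `x` takes value `1` on `S`, then it takes the value `-1` too -/
theorem Gd.neg_of_pos {S : Finset (Fin n)} {x : Fin n → SignType} (h : Gd S x) {e : Fin n}
    (he : e ∈ S) (hx : x e ≠ 0) : (∃ e ∈ S, x e = 1) ∧ (∃ e ∈ S, x e = -1) := by
  rcases h with h | h
  · exact absurd (h e he) hx
  · exact h

theorem lab_idx (S : Finset (Fin n)) (ℓ : Fin n) (hℓ : ℓ ∈ S) (x z : Fin n → SignType)
    (hx : Gd S x) (hz : Gd S z) (hne : x ≠ z) :
    (lab S ℓ x z).1 < n ∧ (lab S ℓ x z).1 ≠ ℓ := by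
  classical
  have hD : ∃ i, pD x z i := by
    by_contra h
    push Not at h
    apply hne
    funext i
    have := h i
    unfold pD at this
    push Not at this
    exact this
  have hspec : ∀ p : Fin n → Prop, (∃ i, p i) → ¬ p ℓ → mn p < n ∧ mn p ≠ ℓ := by
    intro p hp hl
    obtain ⟨hk, hpk⟩ := mn_spec hp
    refine ⟨hk, fun h => hl ?_⟩
    have : (⟨mn p, hk⟩ : Fin n) = ℓ := Fin.ext h
    rwa [this] at hpk
  have hA : ¬ pA S ℓ x z ℓ := fun h => h.2.1 rfl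
  have hB : ¬ pB S ℓ x z ℓ := fun h => h.2.1 rfl
  -- existence of A- and B-indices
  have hB1 : z ℓ < x ℓ → ∃ i, pB S ℓ x z i := by
    intro h
    rcases s4 _ _ h with h' | h'
    · obtain ⟨-, i, hi, hxi⟩ := hx.neg_of_pos hℓ (by rw [h']; decide)
      exact ⟨i, hi, by rintro rfl; rw [hxi] at h'; exact absurd h' (by decide), s7 _ _ hxi⟩
    · obtain ⟨⟨i, hi, hzi⟩, -⟩ := hz.neg_of_pos hℓ (by rw [h']; decide)
      exact ⟨i, hi, by rintro rfl; rw [hzi] at h'; exact absurd h' (by decide), s8 _ _ hzi⟩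
  have hA1 : x ℓ < z ℓ → ∃ i, pA S ℓ x z i := by
    intro h
    rcases s4 _ _ h with h' | h'
    · obtain ⟨-, i, hi, hzi⟩ := hz.neg_of_pos hℓ (by rw [h']; decide)
      exact ⟨i, hi, by rintro rfl; rw [hzi] at h'; exact absurd h' (by decide), s6 _ _ hzi⟩
    · obtain ⟨⟨i, hi, hxi⟩, -⟩ := hx.neg_of_pos hℓ (by rw [h']; decide)
      exact ⟨i, hi, by rintro rfl; rw [hxi] at h'; exact absurd h' (by decide), s5 _ _ hxi⟩
  unfold lab
  split_ifs with h1 h2 h3 h4 h5 h6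
  · exact hspec _ (hB1 h1) hB
  · exact hspec _ (hA1 h2) hA
  · apply hspec _ hD
    intro h
    apply h
    exact le_antisymm (not_lt.1 h1) (not_lt.1 h2)
  all_goals
    have hxz : x ℓ = z ℓ := le_antisymm (not_lt.1 h1) (not_lt.1 h2)
    have hx0 : x ℓ = 0 := not_not.1 h3
    have hz0 : z ℓ = 0 := hxz ▸ hx0
  · -- C1
    have : ∃ i, pA S ℓ x z i := by
      obtain ⟨i, hi, hi'⟩ := h4
      have hcase : x i ≠ 0 ∨ z i ≠ 0 := by
        by_contra hc
        push Not at hc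
        exact hi' (by rw [hc.1, hc.2])
      rcases hcase with h | h
      · obtain ⟨⟨j, hj, hxj⟩, -⟩ := hx.neg_of_pos hi h
        exact ⟨j, hj, by rintro rfl; rw [hxj] at hx0; exact absurd hx0 (by decide), s5 _ _ hxj⟩
      · obtain ⟨-, j, hj, hzj⟩ := hz.neg_of_pos hi h
        exact ⟨j, hj, by rintro rfl; rw [hzj] at hz0; exact absurd hz0 (by decide), s6 _ _ hzj⟩
    exact hspec _ this hA
  · have : ∃ i, pB S ℓ x z i := by
      obtain ⟨i, hi, hi'⟩ := h4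
      have hcase : x i ≠ 0 ∨ z i ≠ 0 := by
        by_contra hc
        push Not at hc
        exact hi' (by rw [hc.1, hc.2])
      rcases hcase with h | h
      · obtain ⟨-, j, hj, hxj⟩ := hx.neg_of_pos hi h
        exact ⟨j, hj, by rintro rfl; rw [hxj] at hx0; exact absurd hx0 (by decide), s7 _ _ hxj⟩
      · obtain ⟨⟨j, hj, hzj⟩, -⟩ := hz.neg_of_pos hi h
        exact ⟨j, hj, by rintro rfl; rw [hzj] at hz0; exact absurd hz0 (by decide), s8 _ _ hzj⟩
    exact hspec _ this hB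
  · exact hspec _ h4 (fun h => h.2 hxz)
  · exact hspec _ hD (fun h => h hxz)

theorem t1 : ∀ a b a' b' : SignType, (a ≠ 0 → a' = a) → (b ≠ 0 → b' = b) →
    (b < a ∨ (a = b ∧ a ≠ 0)) → (b' < a' ∨ (a' = b' ∧ a' ≠ 0)) := by decide
theorem t2 : ∀ a b a' b' : SignType, (a ≠ 0 → a' = a) → (b ≠ 0 → b' = b) →
    (a < b ∨ (a = b ∧ a ≠ 0)) → (a' < b' ∨ (a' = b' ∧ a' ≠ 0)) := by decide
theorem t3 : ∀ a b : SignType, (b < a ∨ (a = b ∧ a ≠ 0)) → a ≠ b → b < a := by decide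

/-- no complementary labels: first `+`, second `-` -/
theorem lab_conflict (S : Finset (Fin n)) (ℓ : Fin n) (x z x' z' : Fin n → SignType)
    (hx : Gd S x) (hz : Gd S z) (hx' : Gd S x') (hz' : Gd S z') (hℓ : ℓ ∈ S)
    (hne : x ≠ z) (hne' : x' ≠ z')
    (hxx : Le x x') (hzz : Le z z') (k : ℕ) (h1 : lab S ℓ x z = (k, 0))
    (h2 : lab S ℓ x' z' = (k, 1)) : False := by
  classical
  have hmonA : ∀ i, pA S ℓ x z i → pA S ℓ x' z' i := fun i hi =>
    ⟨hi.1, hi.2.1, t1 _ _ _ _ (hxx i) (hzz i) hi.2.2⟩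
  have hmonB : ∀ i, pB S ℓ x z i → pB S ℓ x' z' i := fun i hi =>
    ⟨hi.1, hi.2.1, t2 _ _ _ _ (hxx i) (hzz i) hi.2.2⟩
  have hAle : mn (pA S ℓ x' z') ≤ mn (pA S ℓ x z) := mn_anti hmonA
  have hBle : mn (pB S ℓ x' z') ≤ mn (pB S ℓ x z) := mn_anti hmonB
  have hidx := lab_idx S ℓ hℓ x z hx hz hne
  rw [h1] at hidx
  obtain ⟨hkn, hkℓ⟩ := hidx
  simp only at hkn hkℓ
  have hidx' := lab_idx S ℓ hℓ x' z' hx' hz' hne'
  have hD : ∃ i, pD x z i := by
    by_contra h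
    push Not at h
    apply hne
    funext i
    have := h i
    unfold pD at this
    push Not at this
    exact this
  have hD' : ∃ i, pD x' z' i := by
    by_contra h
    push Not at h
    apply hne'
    funext i
    have := h i
    unfold pD at this
    push Not at this
    exact this
  have hmem : ∀ p : Fin n → Prop, mn p = k → p ⟨k, hkn⟩ := by
    intro p hp
    by_cases hex : ∃ i, p i
    · obtain ⟨h3, h4⟩ := mn_spec hex
      have : (⟨mn p, h3⟩ : Fin n) = ⟨k, hkn⟩ := Fin.ext hp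
      rwa [this] at h4
    · exfalso
      have : mn p = n := by
        unfold mn
        rw [dif_neg]
        rintro ⟨j, hj, hp⟩
        exact hex ⟨_, hp⟩
      omega
  -- P_k holds for the first pair
  have hPk : z ⟨k, hkn⟩ < x ⟨k, hkn⟩ ∨ (x ⟨k, hkn⟩ = z ⟨k, hkn⟩ ∧ x ⟨k, hkn⟩ ≠ 0) := by
    have hsgx : ∀ m, m = k → sgx x z m = 0 →
        z ⟨k, hkn⟩ < x ⟨k, hkn⟩ ∨ (x ⟨k, hkn⟩ = z ⟨k, hkn⟩ ∧ x ⟨k, hkn⟩ ≠ 0) := by
      rintro m rfl hs
      unfold sgx at hs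
      split_ifs at hs with h
      · obtain ⟨_, h⟩ := h; exact Or.inl h
      · exact absurd hs (by decide)
    unfold lab at h1
    split_ifs at h1 with g1 g2 g3 g4 g5 g6
    · exact absurd (Prod.mk.inj h1).2 (by decide)
    · exact (hmem _ (Prod.mk.inj h1).1).2.2
    · exact hsgx _ (Prod.mk.inj h1).1 (Prod.mk.inj h1).2
    · exact (hmem _ (Prod.mk.inj h1).1).2.2
    · exact absurd (Prod.mk.inj h1).2 (by decide)
    · exact hsgx _ (Prod.mk.inj h1).1 (Prod.mk.inj h1).2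
    · exact hsgx _ (Prod.mk.inj h1).1 (Prod.mk.inj h1).2
  have hPk' := t1 _ _ _ _ (hxx _) (hzz _) hPk
  -- second label must be a `β'`
  have hsgx' : ∀ m, m = k → x' ⟨k, hkn⟩ ≠ z' ⟨k, hkn⟩ → sgx x' z' m = 1 → False := by
    rintro m rfl hd hs
    unfold sgx at hs
    split_ifs at hs with h
    · exact absurd hs (by decide)
    · exact h ⟨hkn, t3 _ _ hPk' hd⟩
  have hsec : (z' ℓ < x' ℓ ∨ x' ℓ = 0 ∧ z' ℓ = 0) ∧ mn (pB S ℓ x' z') = k := by
    unfold lab at h2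
    split_ifs at h2 with g1 g2 g3 g4 g5 g6
    · exact ⟨Or.inl g1, (Prod.mk.inj h2).1⟩
    · exact absurd (Prod.mk.inj h2).2 (by decide)
    · exact (hsgx' _ (Prod.mk.inj h2).1 (hmem _ (Prod.mk.inj h2).1) (Prod.mk.inj h2).2).elim
    · exact absurd (Prod.mk.inj h2).2 (by decide)
    · have hxz : x' ℓ = z' ℓ := le_antisymm (not_lt.1 g1) (not_lt.1 g2)
      have hx0 : x' ℓ = 0 := not_not.1 g3
      exact ⟨Or.inr ⟨hx0, hxz ▸ hx0⟩, (Prod.mk.inj h2).1⟩
    · exact (hsgx' _ (Prod.mk.inj h2).1 (hmem _ (Prod.mk.inj h2).1).2 (Prod.mk.inj h2).2).elim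
    · exact (hsgx' _ (Prod.mk.inj h2).1 (hmem _ (Prod.mk.inj h2).1) (Prod.mk.inj h2).2).elim
  obtain ⟨hℓ', hβ'⟩ := hsec
  have hkS : (⟨k, hkn⟩ : Fin n) ∈ S := (hmem _ hβ').1
  unfold lab at h1
  split_ifs at h1 with g1 g2 g3 g4 g5 g6
  · exact absurd (Prod.mk.inj h1).2 (by decide)
  · -- case A : x ℓ < z ℓ
    have : ∀ a b a' b' : SignType, (a ≠ 0 → a' = a) → (b ≠ 0 → b' = b) → a < b →
        (b' < a' ∨ a' = 0 ∧ b' = 0) → False := by decide
    exact this _ _ _ _ (hxx ℓ) (hzz ℓ) g2 hℓ'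
  · -- case B : x ℓ = z ℓ ≠ 0
    have hxz : x ℓ = z ℓ := le_antisymm (not_lt.1 g1) (not_lt.1 g2)
    have : ∀ a b a' b' : SignType, (a ≠ 0 → a' = a) → (b ≠ 0 → b' = b) → a = b → a ≠ 0 →
        (b' < a' ∨ a' = 0 ∧ b' = 0) → False := by decide
    exact this _ _ _ _ (hxx ℓ) (hzz ℓ) hxz g3 hℓ'
  · -- C1
    have := (Prod.mk.inj h1).1
    omega
  · exact absurd (Prod.mk.inj h1).2 (by decide)
  · -- C3
    have hkDS := (hmem _ (Prod.mk.inj h1).1)
    have hkne : (⟨k, hkn⟩ : Fin n) ≠ ℓ := by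
      intro h; exact hkℓ (congrArg Fin.val h)
    have hEq : mn (pA S ℓ x z) = mn (pB S ℓ x z) := le_antisymm (not_lt.1 g5) (not_lt.1 g6)
    have hkA : mn (pA S ℓ x z) ≤ k := by
      rcases lt_or_gt_of_ne hkDS.2 with h | h
      · rw [hEq]
        exact mn_le (p := pB S ℓ x z) (i := ⟨k, hkn⟩) ⟨hkDS.1, hkne, Or.inl h⟩
      · exact mn_le (p := pA S ℓ x z) (i := ⟨k, hkn⟩) ⟨hkDS.1, hkne, Or.inl h⟩
    have hAk : mn (pA S ℓ x z) = k := by omega
    have hBk : mn (pB S ℓ x z) = k := by omega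
    have a1 := (hmem _ hAk).2.2
    have a2 := (hmem _ hBk).2.2
    have : ∀ a b : SignType, (b < a ∨ (a = b ∧ a ≠ 0)) → (a < b ∨ (a = b ∧ a ≠ 0)) → a = b := by
      decide
    exact hkDS.2 (this _ _ a1 a2)
  · -- D
    exact g4 ⟨⟨k, hkn⟩, hkS, hmem _ (Prod.mk.inj h1).1⟩

theorem lab_ok (S : Finset (Fin n)) (ℓ : Fin n) (x z x' z' : Fin n → SignType)
    (hx : Gd S x) (hz : Gd S z) (hx' : Gd S x') (hz' : Gd S z') (hℓ : ℓ ∈ S)
    (hne : x ≠ z) (hne' : x' ≠ z')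
    (hxx : Le x x') (hzz : Le z z') (h : (lab S ℓ x z).1 = (lab S ℓ x' z').1) :
    (lab S ℓ x z).2 = (lab S ℓ x' z').2 := by
  have hz2 : ∀ a : ZMod 2, a = 0 ∨ a = 1 := by decide
  have hGn : ∀ x : Fin n → SignType, Gd S x → Gd S (-x) := by
    intro x hx
    rcases hx with h | ⟨⟨a, ha, ha'⟩, b, hb, hb'⟩
    · left; intro e he; rw [Pi.neg_apply, h e he]; rfl
    · right
      exact ⟨⟨b, hb, by rw [Pi.neg_apply, hb']; rfl⟩, a, ha, by rw [Pi.neg_apply, ha']⟩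
  rcases hz2 (lab S ℓ x z).2 with h1 | h1 <;> rcases hz2 (lab S ℓ x' z').2 with h2 | h2
  · rw [h1, h2]
  · exfalso
    exact lab_conflict S ℓ x z x' z' hx hz hx' hz' hℓ hne hne' hxx hzz (lab S ℓ x z).1
      (by rw [← h1]) (by rw [h, ← h2])
  · exfalso
    have e1 := lab_neg S ℓ x z hne
    have e2 := lab_neg S ℓ x' z' hne'
    refine lab_conflict S ℓ (-x) (-z) (-x') (-z') (hGn _ hx) (hGn _ hz) (hGn _ hx') (hGn _ hz') hℓ
      (fun h => hne (neg_injective h)) (fun h => hne' (neg_injective h)) hxx.neg hzz.neg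
      (lab S ℓ x z).1 ?_ ?_
    · rw [e1, h1]; rfl
    · rw [e2, h2, h, add_zero]
  · rw [h1, h2]

end lab

end Pool.Agent.H277R2.OM
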