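import Mathlib
import Pool.Agent.H277R2.OM5

set_option autoImplicit false

namespace Pool.Agent.H277R2.OM

open Finset

/-- Tucker's lemma with a basis given as a finset -/
theorem tucker_bas {α : Type*} [Fintype α] [DecidableEq α] {L : Set (α → SignType)}
    (hL : IsOM L) {B : Finset α} (hB : Bas L B) (hR : 0 < B.card)
    (idx : (α → SignType) → ℕ) (s : (α → SignType) → ZMod 2)
    (hidx : ∀ X ∈ L, X ≠ 0 → idx (-X) = idx X) (hs : ∀ X ∈ L, X ≠ 0 → s (-X) = 1 + s X)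
    (hc : ∀ X ∈ L, ∀ Y ∈ L, X ≠ 0 → Y ≠ 0 → Le X Y → idx X = idx Y → s X = s Y)
    (I : Finset ℕ) (hI : ∀ X ∈ L, X ≠ 0 → idx X ∈ I) : B.card ≤ I.card := by
  classical
  obtain ⟨a₀, ha₀⟩ := Finset.card_pos.1 hR
  set e : ℕ → α := fun j => if h : j < B.card then (B.equivFin.symm ⟨j, h⟩ : α) else a₀ with he
  have heB : ∀ j, j < B.card → e j ∈ B := by
    intro j hj
    simp only [he, dif_pos hj]
    exact (B.equivFin.symm ⟨j, hj⟩).2
  have hinj : ∀ i j, i < B.card → j < B.card → i ≠ j → e i ≠ e j := by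
    intro i j hi hj hij h
    simp only [he, dif_pos hi, dif_pos hj] at h
    have := B.equivFin.symm.injective (Subtype.ext h)
    exact hij (congrArg Fin.val this)
  have hsurj : ∀ a ∈ B, ∃ j < B.card, e j = a := by
    intro a ha
    refine ⟨(B.equivFin ⟨a, ha⟩).1, (B.equivFin ⟨a, ha⟩).2, ?_⟩
    simp only [he, dif_pos (B.equivFin ⟨a, ha⟩).2]
    simp
  refine tucker hL e B.card hR ?_ ?_ idx s hidx hs hc I hI
  · intro j hj
    obtain ⟨X, hX, hX1, hX2⟩ := hB.ex (e j) (heB j hj)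
    refine ⟨X, ⟨hX, fun i hi => ?_⟩, hX1⟩
    exact hX2 _ (heB i (by omega)) (hinj i j (by omega) hj (by omega))
  · rintro X ⟨hX, hX2⟩
    apply hB.uniq X hX
    intro a ha
    obtain ⟨j, hj, rfl⟩ := hsurj a ha
    exact hX2 j hj

section prod

variable {n : ℕ}

def lft (X : Fin n ⊕ Fin n → SignType) : Fin n → SignType := fun e => X (Sum.inl e)
def rgt (X : Fin n ⊕ Fin n → SignType) : Fin n → SignType := fun e => X (Sum.inr e)

def prodL (L₁ L₂ : Set (Fin n → SignType)) : Set (Fin n ⊕ Fin n → SignType) :=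
  {X | lft X ∈ L₁ ∧ rgt X ∈ L₂}

theorem prod_om {L₁ L₂ : Set (Fin n → SignType)} (h₁ : IsOM L₁) (h₂ : IsOM L₂) :
    IsOM (prodL L₁ L₂) := by
  refine ⟨⟨h₁.zero, h₂.zero⟩, ?_, ?_, ?_⟩
  · rintro X ⟨a, b⟩
    exact ⟨h₁.neg _ a, h₂.neg _ b⟩
  · rintro X ⟨a, b⟩ Y ⟨c, d⟩
    exact ⟨h₁.comp _ a _ c, h₂.comp _ b _ d⟩
  · rintro X ⟨a, b⟩ Y ⟨c, d⟩ (e | e) h1 h2
    · obtain ⟨Z, hZ, hZe, hZf⟩ := h₁.elim (lft X) a (lft Y) c e h1 h2
      refine ⟨Sum.elim Z (cmp (rgt X) (rgt Y)), ⟨hZ, h₂.comp _ b _ d⟩, hZe, ?_⟩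
      rintro (f | f) hf
      · exact hZf f hf
      · rfl
    · obtain ⟨Z, hZ, hZe, hZf⟩ := h₂.elim (rgt X) b (rgt Y) d e h1 h2
      refine ⟨Sum.elim (cmp (lft X) (lft Y)) Z, ⟨h₁.comp _ a _ c, hZ⟩, hZe, ?_⟩
      rintro (f | f) hf
      · rfl
      · exact hZf f hf

theorem prod_bas {L₁ L₂ : Set (Fin n → SignType)} (h₁ : IsOM L₁) (h₂ : IsOM L₂)
    {B₁ B₂ : Finset (Fin n)} (hB₁ : Bas L₁ B₁) (hB₂ : Bas L₂ B₂) :
    Bas (prodL L₁ L₂) (B₁.disjSum B₂) := by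
  constructor
  · rintro (e | e) he
    · rw [Finset.inl_mem_disjSum] at he
      obtain ⟨X, hX, hX1, hX2⟩ := hB₁.ex e he
      refine ⟨Sum.elim X 0, ⟨hX, h₂.zero⟩, hX1, ?_⟩
      rintro (f | f) hf hfe
      · rw [Finset.inl_mem_disjSum] at hf
        exact hX2 f hf (fun h => hfe (by rw [h]))
      · rfl
    · rw [Finset.inr_mem_disjSum] at he
      obtain ⟨X, hX, hX1, hX2⟩ := hB₂.ex e he
      refine ⟨Sum.elim 0 X, ⟨h₁.zero, hX⟩, hX1, ?_⟩
      rintro (f | f) hf hfe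
      · rfl
      · rw [Finset.inr_mem_disjSum] at hf
        exact hX2 f hf (fun h => hfe (by rw [h]))
  · rintro X ⟨a, b⟩ h
    have e1 := hB₁.uniq _ a (fun e he => h (Sum.inl e) (by rw [Finset.inl_mem_disjSum]; exact he))
    have e2 := hB₂.uniq _ b (fun e he => h (Sum.inr e) (by rw [Finset.inr_mem_disjSum]; exact he))
    funext f
    rcases f with f | f
    · exact congrFun e1 f
    · exact congrFun e2 f

theorem mulc1 : ∀ c a b : SignType, c ≠ 0 → c * a = c * b → a = b := by decide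
theorem mulc2 : ∀ c a : SignType, c ≠ 0 → c * a ≠ 0 → a ≠ 0 := by decide
theorem mulc3 : ∀ a b : SignType, a ≠ 0 → b * a = 0 → b = 0 := by decide

/-- the core theorem -/
theorem core {L₁ L₂ : Set (Fin n → SignType)} (h₁ : IsOM L₁) (h₂ : IsOM L₂)
    {B₁ B₂ : Finset (Fin n)} (hB₁ : Bas L₁ B₁) (hB₂ : Bas L₂ B₂)
    (hcard : n ≤ B₁.card + B₂.card) {Y : Fin n → SignType} (hY : Y ≠ 0)
    (hY₁ : ∀ X ∈ L₁, Orth X Y) (hY₂ : ∀ X ∈ L₂, Orth X Y) :
    ∃ X : Fin n → SignType, X ≠ 0 ∧ X ∈ L₁ ∧ X ∈ L₂ := by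
  classical
  by_contra hcon
  push Not at hcon
  have hcon' : ∀ X, X ∈ L₁ → X ∈ L₂ → X = 0 := by
    intro X h1 h2
    by_contra h
    exact hcon X h h1 h2
  have hℓ : ∃ ℓ, Y ℓ ≠ 0 := by
    by_contra h
    push Not at h
    exact hY (funext h)
  obtain ⟨ℓ, hℓ⟩ := hℓ
  set S : Finset (Fin n) := univ.filter (fun e => Y e ≠ 0) with hS
  have hℓS : ℓ ∈ S := by simp [hS, hℓ]
  set Y' : Fin n → SignType := fun e => if Y e = 0 then 1 else Y e with hY'
  have hY'0 : ∀ e, Y' e ≠ 0 := by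
    intro e
    simp only [hY']
    split_ifs with h
    · decide
    · exact h
  set tw : (Fin n → SignType) → (Fin n → SignType) := fun X e => Y' e * X e with htw
  have tw_inj : ∀ X Z, tw X = tw Z → X = Z := by
    intro X Z h
    funext e
    exact mulc1 _ _ _ (hY'0 e) (congrFun h e)
  have tw_neg : ∀ X, tw (-X) = - tw X := by
    intro X; funext e
    simp only [htw, Pi.neg_apply, m7]
  have tw_le : ∀ X Z, Le X Z → Le (tw X) (tw Z) := by
    intro X Z h e he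
    have := h e (mulc2 _ _ (hY'0 e) he)
    simp only [htw, this]
  have tw_gd : ∀ X, Orth X Y → Gd S (tw X) := by
    intro X h
    have hprod : ∀ e, Y e ≠ 0 → tw X e = X e * Y e := by
      intro e he
      simp only [htw, hY', if_neg he]
      exact m9 _ _
    rcases h with h | ⟨a, b, ha, hb⟩
    · left
      intro e he
      have hYe : Y e ≠ 0 := by simpa [hS] using he
      rw [hprod e hYe, h e]
    · right
      have hYa := (m1 _ _ ha).2.1
      have hYb := (m2 _ _ hb).2.1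
      exact ⟨⟨a, by simp [hS, hYa], by rw [hprod a hYa, ha]⟩,
        b, by simp [hS, hYb], by rw [hprod b hYb, hb]⟩
  have hne : ∀ X ∈ prodL L₁ L₂, X ≠ 0 → tw (lft X) ≠ tw (rgt X) := by
    rintro X ⟨a, b⟩ hX h
    have h1 := tw_inj _ _ h
    have h2 : lft X = 0 := hcon' _ a (by rw [h1]; exact b)
    have h3 : rgt X = 0 := by rw [← h1]; exact h2
    apply hX
    funext f
    rcases f with f | f
    · exact congrFun h2 f
    · exact congrFun h3 f
  have hpos : 0 < (B₁.disjSum B₂).card := by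
    rw [Finset.card_disjSum]
    have := ℓ.2
    omega
  have := tucker_bas (prod_om h₁ h₂) (prod_bas h₁ h₂ hB₁ hB₂) hpos
    (fun X => (lab S ℓ (tw (lft X)) (tw (rgt X))).1)
    (fun X => (lab S ℓ (tw (lft X)) (tw (rgt X))).2) ?_ ?_ ?_ ((range n).erase ℓ) ?_
  · rw [Finset.card_disjSum, Finset.card_erase_of_mem (by simp), Finset.card_range] at this
    have := ℓ.2
    omega
  · intro X hX hX0
    have : lab S ℓ (tw (lft (-X))) (tw (rgt (-X))) =
        ((lab S ℓ (tw (lft X)) (tw (rgt X))).1, 1 + (lab S ℓ (tw (lft X)) (tw (rgt X))).2) := by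
      show lab S ℓ (tw (-(lft X))) (tw (-(rgt X))) = _
      rw [tw_neg, tw_neg, lab_neg _ _ _ _ (hne X hX hX0)]
    simp only [this]
  · intro X hX hX0
    have : lab S ℓ (tw (lft (-X))) (tw (rgt (-X))) =
        ((lab S ℓ (tw (lft X)) (tw (rgt X))).1, 1 + (lab S ℓ (tw (lft X)) (tw (rgt X))).2) := by
      show lab S ℓ (tw (-(lft X))) (tw (-(rgt X))) = _
      rw [tw_neg, tw_neg, lab_neg _ _ _ _ (hne X hX hX0)]
    simp only [this]
  · intro X hX Z hZ hX0 hZ0 hle hidx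
    exact lab_ok S ℓ _ _ _ _ (tw_gd _ (hY₁ _ hX.1)) (tw_gd _ (hY₂ _ hX.2))
      (tw_gd _ (hY₁ _ hZ.1)) (tw_gd _ (hY₂ _ hZ.2)) hℓS (hne X hX hX0) (hne Z hZ hZ0)
      (tw_le _ _ (fun e he => hle (Sum.inl e) he)) (tw_le _ _ (fun e he => hle (Sum.inr e) he)) hidx
  · intro X hX hX0
    have := lab_idx S ℓ hℓS _ _ (tw_gd _ (hY₁ _ hX.1)) (tw_gd _ (hY₂ _ hX.2)) (hne X hX hX0)
    simp only [Finset.mem_erase, Finset.mem_range]
    exact ⟨this.2, this.1⟩

end prod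

end Pool.Agent.H277R2.OM
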