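import Mathlib

set_option autoImplicit false

namespace Pool.Agent.H277R2.Tens

/-- `d`-dimensional tensors with entries in `F`, every side indexed by `ι`
(a tensor of side `n` is the case `ι = Fin n`). -/
abbrev Tensor (F : Type*) (d : ℕ) (ι : Type*) : Type _ := (Fin d → ι) → F

/-- The multilinear form `f_A(X_1,…,X_d) = ∑ A(i_1,…,i_d) X_1[i_1] ⋯ X_d[i_d]`. -/
def form {F : Type*} [Field F] {d : ℕ} {ι : Type*} [Fintype ι] (A : Tensor F d ι)
    (X : Fin d → ι → F) : F :=
  ∑ I : Fin d → ι, A I * ∏ j, X j (I j)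

/-- `f_A = ∑_{s < r} g_s h_s`, where for each `s` there is a set `S s` of indices, nonempty and
not everything, such that `g_s` depends only on the `X_i` with `i ∈ S s` and `h_s` depends only on
the `X_i` with `i ∉ S s`. -/
def PRankLE {F : Type*} [Field F] {d : ℕ} {ι : Type*} [Fintype ι] (A : Tensor F d ι)
    (r : ℕ) : Prop :=
  ∃ (S : Fin r → Finset (Fin d)) (g h : Fin r → (Fin d → ι → F) → F),
    (∀ s, (S s).Nonempty ∧ S s ≠ Finset.univ) ∧
    (∀ s X Y, (∀ i ∈ S s, X i = Y i) → g s X = g s Y) ∧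
    (∀ s X Y, (∀ i ∉ S s, X i = Y i) → h s X = h s Y) ∧
    ∀ X, form A X = ∑ s, g s X * h s X

/-- Partition rank. -/
noncomputable def prank {F : Type*} [Field F] {d : ℕ} {ι : Type*} [Fintype ι]
    (A : Tensor F d ι) : ℕ :=
  sInf {r | PRankLE A r}

/-- `Bias(f_A) = E ω^{f_A(X_1,…,X_d)}`, with `ω = e^{2πi/p}` and `X_1,…,X_d` independent and
uniform (the average is a real number, of which this is the real part). -/
noncomputable def bias {p : ℕ} [Fact p.Prime] {d : ℕ} {ι : Type*} [Fintype ι] [DecidableEq ι]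
    (A : Tensor (ZMod p) d ι) : ℝ :=
  ((∑ X : Fin d → ι → ZMod p, ZMod.stdAddChar (form A X)) /
    (Fintype.card (Fin d → ι → ZMod p) : ℂ)).re

/-- Analytic rank, `-log_p Bias(f_A)`. -/
noncomputable def arank {p : ℕ} [Fact p.Prime] {d : ℕ} {ι : Type*} [Fintype ι] [DecidableEq ι]
    (A : Tensor (ZMod p) d ι) : ℝ :=
  - Real.logb p (bias A)

open Classical in
/-- The identity tensor: `1` if all indices are equal, `0` otherwise. -/
noncomputable def idT {F : Type*} [Field F] {d : ℕ} {ι : Type*} : Tensor F d ι :=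
  fun I => if ∀ j k, I j = I k then 1 else 0

/-- The tensor power `A^{⊗m}`; its sides are indexed by `ι^m`, realised as `Fin m → ι`. -/
def tpow {F : Type*} [Field F] {d : ℕ} {ι : Type*} (A : Tensor F d ι) (m : ℕ) :
    Tensor F d (Fin m → ι) :=
  fun I => ∏ k : Fin m, A (fun j => I j k)

end Pool.Agent.H277R2.Tens
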