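import Mathlib
import Pool.Agent.H277R2.TensDefs

set_option autoImplicit false

namespace Pool.Agent.H277R2.Tens

open Finset

/-- A homogeneous linear system with `|σ|` equations has a solution whose support contains all but
at most `|σ|` elements of a given set `P`. -/
theorem exists_big_support {F κ σ : Type*} [Field F] [Fintype κ] [Fintype σ] [DecidableEq F]
    (u : σ → κ → F) (P : Finset κ) :
    ∃ v : κ → F, (∀ s, ∑ a, u s a * v a = 0) ∧
      P.card ≤ (P.filter (fun a => v a ≠ 0)).card + Fintype.card σ := by
  classical
  by_contra hcon
  push Not at hcon
  have key : ∀ k : ℕ, ∃ v : κ → F, (∀ s, ∑ a, u s a * v a = 0) ∧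
      k ≤ (P.filter (fun a => v a ≠ 0)).card := by
    intro k
    induction k with
    | zero => exact ⟨0, by simp, Nat.zero_le _⟩
    | succ k ih =>
      obtain ⟨v, hv, hk⟩ := ih
      have hlt := hcon v hv
      set Q := P.filter (fun a => v a ≠ 0) with hQ
      let ext : (P → F) → κ → F := fun w a => if h : a ∈ P then w ⟨a, h⟩ else 0
      let L : (P → F) →ₗ[F] ((σ → F) × (Q → F)) :=
        { toFun := fun w => (fun s => ∑ a, u s a * ext w a, fun a => ext w a)
          map_add' := by
            intro w w'
            refine Prod.ext ?_ ?_
            · funext s
              simp only [Prod.fst_add, Pi.add_apply]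
              rw [← Finset.sum_add_distrib]
              refine Finset.sum_congr rfl (fun a _ => ?_)
              simp only [ext]
              split_ifs <;> simp [mul_add]
            · funext a
              simp only [Prod.snd_add, Pi.add_apply, ext]
              split_ifs <;> simp
          map_smul' := by
            intro c w
            refine Prod.ext ?_ ?_
            · funext s
              simp only [Prod.smul_fst, Pi.smul_apply, RingHom.id_apply, smul_eq_mul]
              rw [Finset.mul_sum]
              refine Finset.sum_congr rfl (fun a _ => ?_)
              simp only [ext]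
              split_ifs <;> simp [mul_left_comm]
            · funext a
              simp only [Prod.smul_snd, Pi.smul_apply, ext, RingHom.id_apply, smul_eq_mul]
              split_ifs <;> simp }
      have hker : LinearMap.ker L ≠ ⊥ := by
        apply LinearMap.ker_ne_bot_of_finrank_lt
        rw [Module.finrank_prod, Module.finrank_fintype_fun_eq_card,
          Module.finrank_fintype_fun_eq_card, Module.finrank_fintype_fun_eq_card,
          Fintype.card_coe, Fintype.card_coe]
        omega
      obtain ⟨w, hw, hw0⟩ := (Submodule.ne_bot_iff _).mp hker
      rw [LinearMap.mem_ker] at hw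
      have hw1 : ∀ s, ∑ a, u s a * ext w a = 0 := fun s => congrFun (congrArg Prod.fst hw) s
      have hw2 : ∀ a ∈ Q, ext w a = 0 := fun a ha => congrFun (congrArg Prod.snd hw) ⟨a, ha⟩
      obtain ⟨b, hb⟩ : ∃ b : P, w b ≠ 0 := by
        by_contra hc
        push Not at hc
        exact hw0 (funext hc)
      have hbe : ext w b = w b := by
        simp only [ext]
        rw [dif_pos b.2]
      have hbQ : (b : κ) ∉ Q := by
        intro h
        exact hb (by rw [← hbe]; exact hw2 _ h)
      have hvb : v b = 0 := by
        by_contra h
        exact hbQ (Finset.mem_filter.mpr ⟨b.2, h⟩)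
      refine ⟨fun a => v a + ext w a, ?_, ?_⟩
      · intro s
        simp only [mul_add, Finset.sum_add_distrib, hv s, hw1 s, add_zero]
      · have hsub : insert (b : κ) Q ⊆ P.filter (fun a => v a + ext w a ≠ 0) := by
          intro a ha
          rcases Finset.mem_insert.mp ha with rfl | ha
          · refine Finset.mem_filter.mpr ⟨b.2, ?_⟩
            rw [hvb, hbe, zero_add]; exact hb
          · refine Finset.mem_filter.mpr ⟨(Finset.mem_filter.mp ha).1, ?_⟩
            rw [hw2 a ha, add_zero]; exact (Finset.mem_filter.mp ha).2
        have := Finset.card_le_card hsub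
        rw [Finset.card_insert_of_notMem hbQ] at this
        show k + 1 ≤ (P.filter (fun a => v a + ext w a ≠ 0)).card
        omega
  obtain ⟨v, hv, hk⟩ := key (P.card + 1)
  have := Finset.card_le_card (Finset.filter_subset (fun a => v a ≠ 0) P)
  omega

/-- Tensor version of a partition decomposition with terms indexed by `σ`. -/
def TDec {F : Type*} [Field F] {d : ℕ} {ι : Type*} (A : Tensor F d ι) (σ : Type*)
    [Fintype σ] : Prop :=
  ∃ (S : σ → Finset (Fin d)) (g h : σ → (Fin d → ι) → F),
    (∀ s, (S s).Nonempty ∧ S s ≠ Finset.univ) ∧
    (∀ s X Y, (∀ i ∈ S s, X i = Y i) → g s X = g s Y) ∧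
    (∀ s X Y, (∀ i ∉ S s, X i = Y i) → h s X = h s Y) ∧
    ∀ I, A I = ∑ s, g s I * h s I

theorem form_single {F : Type*} [Field F] {d : ℕ} {ι : Type*} [Fintype ι] [DecidableEq ι]
    (A : Tensor F d ι) (I : Fin d → ι) :
    form A (fun j => Pi.single (I j) 1) = A I := by
  unfold form
  rw [Finset.sum_eq_single I]
  · simp
  · intro J _ hJ
    obtain ⟨j, hj⟩ : ∃ j, J j ≠ I j := by
      by_contra hc
      push Not at hc
      exact hJ (funext hc)
    rw [Finset.prod_eq_zero (Finset.mem_univ j), mul_zero]
    exact Pi.single_eq_of_ne hj 1
  · simp

theorem PRankLE.tdec {F : Type*} [Field F] {d : ℕ} {ι : Type*} [Fintype ι]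
    {A : Tensor F d ι} {r : ℕ} (h : PRankLE A r) : TDec A (Fin r) := by
  classical
  obtain ⟨S, g, h, h1, h2, h3, h4⟩ := h
  refine ⟨S, fun s I => g s (fun j => Pi.single (I j) 1),
    fun s I => h s (fun j => Pi.single (I j) 1), h1, ?_, ?_, ?_⟩
  · intro s X Y hXY
    exact h2 s _ _ (fun i hi => by rw [hXY i hi])
  · intro s X Y hXY
    exact h3 s _ _ (fun i hi => by rw [hXY i hi])
  · intro I
    rw [← h4, form_single]

theorem TDec.comap {F : Type*} [Field F] {d : ℕ} {ι κ : Type*} {A : Tensor F d ι} {σ : Type*}
    [Fintype σ] (h : TDec A σ) (φ : Fin d → κ → ι) :
    TDec (fun I : Fin d → κ => A (fun j => φ j (I j))) σ := by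
  obtain ⟨S, g, h, h1, h2, h3, h4⟩ := h
  refine ⟨S, fun s I => g s (fun j => φ j (I j)), fun s I => h s (fun j => φ j (I j)), h1, ?_, ?_,
    fun I => h4 _⟩
  · intro s X Y hXY
    exact h2 s _ _ (fun i hi => by rw [hXY i hi])
  · intro s X Y hXY
    exact h3 s _ _ (fun i hi => by rw [hXY i hi])

open Classical in
/-- diagonal tensor with weights `c` (dimension `d + 1`) -/
noncomputable def diagT {F : Type*} [Field F] {d : ℕ} {κ : Type*} (c : κ → F) :
    Tensor F (d + 1) κ :=
  fun I => if ∀ j k, I j = I k then c (I 0) else 0

theorem diag_bound {F : Type*} [Field F] {κ : Type*} [Fintype κ] [DecidableEq F] (d : ℕ) :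
    ∀ (σ : Type) [Fintype σ] (c : κ → F), TDec (diagT c : Tensor F (d + 1) κ) σ →
      (Finset.univ.filter (fun a => c a ≠ 0)).card ≤ Fintype.card σ := by
  classical
  induction d with
  | zero =>
    intro σ _ c h
    obtain ⟨S, g, h, h1, h2, h3, h4⟩ := h
    rcases isEmpty_or_nonempty σ with he | ⟨⟨s⟩⟩
    · rw [Finset.filter_false_of_mem]
      · simp
      · intro a _ hc
        apply hc
        have := h4 (fun _ => a)
        simpa [diagT] using this
    · exfalso
      obtain ⟨⟨i, hi⟩, h6⟩ := h1 s
      apply h6
      ext j
      have : j = i := by
        have := j.2; have := i.2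
        apply Fin.ext; omega
      rw [this]
      simp only [hi, Finset.mem_univ]
  | succ d ih =>
    intro σ _ c hT
    obtain ⟨S, g, h, h1, h2, h3, h4⟩ := hT
    by_cases hne : Nonempty κ
    swap
    · rw [not_nonempty_iff] at hne
      rw [Finset.univ_eq_empty]
      simp
    obtain ⟨a0⟩ := hne
    -- terms split off the first variable
    let R : σ → Prop := fun s => S s = {0} ∨ (S s)ᶜ = {0}
    let u : {s // R s} → κ → F := fun s a =>
      if S s.1 = {0} then g s.1 (Fin.cons a (fun _ => a0)) else h s.1 (Fin.cons a (fun _ => a0))
    obtain ⟨v, hv, hcard⟩ := exists_big_support u (Finset.univ.filter (fun a => c a ≠ 0))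
    have hdec : TDec (diagT (fun a => v a * c a) : Tensor F (d + 1) κ) {s // ¬ R s} := by
      refine ⟨fun s => Finset.univ.filter (fun j => Fin.succ j ∈ S s.1),
        fun s I' => if (0 : Fin (d + 2)) ∈ S s.1 then ∑ a, v a * g s.1 (Fin.cons a I')
          else g s.1 (Fin.cons a0 I'),
        fun s I' => if (0 : Fin (d + 2)) ∈ S s.1 then h s.1 (Fin.cons a0 I')
          else ∑ a, v a * h s.1 (Fin.cons a I'), ?_, ?_, ?_, ?_⟩
      · rintro ⟨s, hs⟩
        have hs' : ¬ (S s = {0} ∨ (S s)ᶜ = {0}) := hs
        push Not at hs'
        obtain ⟨hs1, hs2⟩ := hs'
        constructor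
        · by_contra hc
          rw [Finset.not_nonempty_iff_eq_empty] at hc
          replace hc : Finset.univ.filter (fun j => Fin.succ j ∈ S s) = ∅ := hc
          apply hs1
          obtain ⟨i, hi⟩ := (h1 s).1
          have h0 : ∀ j, j ∈ S s → j = 0 := by
            intro j hj
            rcases Fin.eq_zero_or_eq_succ j with rfl | ⟨j', rfl⟩
            · rfl
            · exfalso
              have : j' ∈ Finset.univ.filter (fun j => Fin.succ j ∈ S s) := by simp [hj]
              rw [hc] at this
              simp at this
          ext j
          rw [Finset.mem_singleton]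
          constructor
          · exact h0 j
          · rintro rfl
            rw [← h0 i hi]; exact hi
        · intro hc
          replace hc : Finset.univ.filter (fun j => Fin.succ j ∈ S s) = Finset.univ := hc
          apply hs2
          have hall : ∀ j : Fin (d + 1), Fin.succ j ∈ S s := by
            intro j
            have : j ∈ Finset.univ.filter (fun j => Fin.succ j ∈ S s) := by
              rw [hc]; exact Finset.mem_univ _
            simpa using this
          have h0 : (0 : Fin (d + 2)) ∉ S s := by
            intro h0
            apply (h1 s).2
            ext j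
            simp only [Finset.mem_univ, iff_true]
            rcases Fin.eq_zero_or_eq_succ j with rfl | ⟨j', rfl⟩
            · exact h0
            · exact hall j'
          ext j
          rw [Finset.mem_compl, Finset.mem_singleton]
          constructor
          · intro hj
            rcases Fin.eq_zero_or_eq_succ j with rfl | ⟨j', rfl⟩
            · rfl
            · exact absurd (hall j') hj
          · rintro rfl
            exact h0
      · rintro ⟨s, hs⟩ X Y hXY
        simp only [Finset.mem_filter, Finset.mem_univ, true_and] at hXY
        have aux : ∀ a, g s (Fin.cons a X) = g s (Fin.cons a Y) := by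
          intro a
          apply h2
          intro i hi
          rcases Fin.eq_zero_or_eq_succ i with rfl | ⟨i', rfl⟩
          · simp
          · simp only [Fin.cons_succ]
            exact hXY i' hi
        simp only [aux]
      · rintro ⟨s, hs⟩ X Y hXY
        simp only [Finset.mem_filter, Finset.mem_univ, true_and] at hXY
        have aux : ∀ a, h s (Fin.cons a X) = h s (Fin.cons a Y) := by
          intro a
          apply h3
          intro i hi
          rcases Fin.eq_zero_or_eq_succ i with rfl | ⟨i', rfl⟩
          · simp
          · simp only [Fin.cons_succ]
            exact hXY i' hi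
        simp only [aux]
      · intro I'
        -- contraction of the diagonal tensor
        have hL : ∑ a, v a * (diagT c : Tensor F (d + 2) κ) (Fin.cons a I') =
            (diagT (fun a => v a * c a) : Tensor F (d + 1) κ) I' := by
          unfold diagT
          by_cases hI : ∀ j k, I' j = I' k
          · rw [if_pos hI, Finset.sum_eq_single (I' 0)]
            · rw [if_pos]
              · simp
              · intro j k
                rcases Fin.eq_zero_or_eq_succ j with rfl | ⟨j', rfl⟩ <;>
                  rcases Fin.eq_zero_or_eq_succ k with rfl | ⟨k', rfl⟩ <;>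
                  simp only [Fin.cons_zero, Fin.cons_succ] <;> apply hI
            · intro a _ ha
              rw [if_neg, mul_zero]
              intro hc
              have := hc 0 (Fin.succ 0)
              simp only [Fin.cons_zero, Fin.cons_succ] at this
              exact ha this
            · simp
          · rw [if_neg hI]
            apply Finset.sum_eq_zero
            intro a _
            rw [if_neg, mul_zero]
            intro hc
            apply hI
            intro j k
            have := hc j.succ k.succ
            simpa only [Fin.cons_succ] using this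
        rw [← hL]
        simp only [h4, Finset.mul_sum]
        rw [Finset.sum_comm]
        rw [← Fintype.sum_subtype_add_sum_subtype R]
        have hz : ∑ s : {s // R s}, ∑ a, v a * (g s.1 (Fin.cons a I') * h s.1 (Fin.cons a I')) = 0 := by
          apply Finset.sum_eq_zero
          rintro ⟨s, hs⟩ _
          have hu := hv ⟨s, hs⟩
          by_cases hs1 : S s = {0}
          · have hg : ∀ a, g s (Fin.cons a I') = u ⟨s, hs⟩ a := by
              intro a
              simp only [u]
              rw [if_pos hs1]
              apply h2
              intro i hi
              rw [hs1, Finset.mem_singleton] at hi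
              subst hi; simp
            have hh : ∀ a, h s (Fin.cons a I') = h s (Fin.cons a0 I') := by
              intro a
              apply h3
              intro i hi
              rw [hs1, Finset.mem_singleton] at hi
              obtain ⟨i', rfl⟩ := Fin.exists_succ_eq.mpr hi
              simp
            calc ∑ a, v a * (g s (Fin.cons a I') * h s (Fin.cons a I'))
                = ∑ a, (u ⟨s, hs⟩ a * v a) * h s (Fin.cons a0 I') := by
                  refine Finset.sum_congr rfl (fun a _ => ?_)
                  rw [hg, hh]; ring
              _ = 0 := by rw [← Finset.sum_mul, hu, zero_mul]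
          · have hs2 : (S s)ᶜ = {0} := by
              rcases hs with h | h
              · exact absurd h hs1
              · exact h
            have hmem : ∀ i, i ∉ S s ↔ i = 0 := by
              intro i
              rw [← Finset.mem_compl, hs2, Finset.mem_singleton]
            have hg : ∀ a, h s (Fin.cons a I') = u ⟨s, hs⟩ a := by
              intro a
              simp only [u]
              rw [if_neg hs1]
              apply h3
              intro i hi
              rw [hmem] at hi
              subst hi; simp
            have hh : ∀ a, g s (Fin.cons a I') = g s (Fin.cons a0 I') := by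
              intro a
              apply h2
              intro i hi
              have hi' : i ≠ 0 := fun h0 => ((hmem i).mpr h0) hi
              obtain ⟨i', rfl⟩ := Fin.exists_succ_eq.mpr hi'
              simp
            calc ∑ a, v a * (g s (Fin.cons a I') * h s (Fin.cons a I'))
                = ∑ a, (u ⟨s, hs⟩ a * v a) * g s (Fin.cons a0 I') := by
                  refine Finset.sum_congr rfl (fun a _ => ?_)
                  rw [hg, hh]; ring
              _ = 0 := by rw [← Finset.sum_mul, hu, zero_mul]
        rw [hz, zero_add]
        refine Finset.sum_congr rfl ?_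
        rintro ⟨s, hs⟩ _
        by_cases h0 : (0 : Fin (d + 2)) ∈ S s
        · simp only [h0, if_true]
          have hh : ∀ a, h s (Fin.cons a I') = h s (Fin.cons a0 I') := by
            intro a
            apply h3
            intro i hi
            have hi' : i ≠ 0 := fun h => hi (h ▸ h0)
            obtain ⟨i', rfl⟩ := Fin.exists_succ_eq.mpr hi'
            simp
          rw [Finset.sum_mul]
          refine Finset.sum_congr rfl (fun a _ => ?_)
          rw [hh]; ring
        · simp only [h0, if_false]
          have hh : ∀ a, g s (Fin.cons a I') = g s (Fin.cons a0 I') := by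
            intro a
            apply h2
            intro i hi
            have hi' : i ≠ 0 := fun h => h0 (h ▸ hi)
            obtain ⟨i', rfl⟩ := Fin.exists_succ_eq.mpr hi'
            simp
          rw [Finset.mul_sum]
          refine Finset.sum_congr rfl (fun a _ => ?_)
          rw [hh]; ring
    have h5 := ih {s // ¬ R s} (fun a => v a * c a) hdec
    have h6 : (Finset.univ.filter (fun a => v a * c a ≠ 0)) =
        ((Finset.univ.filter (fun a => c a ≠ 0)).filter (fun a => v a ≠ 0)) := by
      ext a
      simp only [Finset.mem_filter, Finset.mem_univ, true_and, mul_ne_zero_iff]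
      tauto
    rw [h6] at h5
    have h7 : Fintype.card {s // R s} + Fintype.card {s // ¬ R s} = Fintype.card σ := by
      rw [Fintype.card_subtype_compl]
      have := Fintype.card_subtype_le R
      omega
    omega

end Pool.Agent.H277R2.Tens
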