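import Mathlib
import Pool.Agent.H277R2.Tens1

set_option autoImplicit false

namespace Pool.Agent.H277R2.Tens

open Finset

section prank

variable {F : Type*} [Field F]

/-- If `B` restricts to the identity tensor on `κ`, every partition decomposition of `B` has at
least `|κ|` terms. -/
theorem card_le_of_PRankLE {d : ℕ} {ι κ : Type*} [Fintype ι] [Fintype κ]
    {B : Tensor F (d + 1) ι} (φ : Fin (d + 1) → κ → ι)
    (hB : ∀ I : Fin (d + 1) → κ, B (fun j => φ j (I j)) = idT I) {r : ℕ} (h : PRankLE B r) :
    Fintype.card κ ≤ r := by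
  classical
  have h1 := h.tdec.comap φ
  have h2 : (fun I : Fin (d + 1) → κ => B (fun j => φ j (I j))) =
      (diagT (fun _ => (1 : F)) : Tensor F (d + 1) κ) := by
    funext I
    rw [hB]
    rfl
  rw [h2] at h1
  have h3 := diag_bound d (Fin r) (fun _ : κ => (1 : F)) h1
  simpa using h3

theorem form_update_sum {d : ℕ} {ι : Type*} [Fintype ι] [DecidableEq ι] (A : Tensor F d ι)
    (X : Fin d → ι → F) (j : Fin d) (Y : ι → F) :
    form A (Function.update X j Y) =
      ∑ i, Y i * form A (Function.update X j (Pi.single i 1)) := by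
  unfold form
  simp only [Finset.mul_sum]
  rw [Finset.sum_comm]
  refine Finset.sum_congr rfl (fun I _ => ?_)
  rw [Finset.sum_eq_single (I j)]
  · rw [← Finset.mul_prod_erase Finset.univ _ (Finset.mem_univ j),
      ← Finset.mul_prod_erase Finset.univ (fun j' => Function.update X j (Pi.single (I j) 1) j' (I j'))
        (Finset.mem_univ j)]
    simp only [Function.update_self, Pi.single_eq_same, one_mul]
    have : ∀ Z : ι → F, ∏ x ∈ Finset.univ.erase j, Function.update X j Z x (I x) =
        ∏ x ∈ Finset.univ.erase j, X x (I x) := by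
      intro Z
      refine Finset.prod_congr rfl (fun x hx => ?_)
      rw [Function.update_of_ne (Finset.ne_of_mem_erase hx)]
    rw [this, this]
    ring
  · intro i _ hi
    rw [← Finset.mul_prod_erase Finset.univ _ (Finset.mem_univ j)]
    simp only [Function.update_self]
    rw [Pi.single_eq_of_ne hi.symm]
    ring
  · simp

theorem PRankLE_card {d : ℕ} {ι : Type*} [Fintype ι] (B : Tensor F (d + 2) ι) :
    PRankLE B (Fintype.card ι) := by
  classical
  let e := (Fintype.equivFin ι).symm
  refine ⟨fun _ => {0}, fun s X => X 0 (e s),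
    fun s X => form B (Function.update X 0 (Pi.single (e s) 1)), ?_, ?_, ?_, ?_⟩
  · intro s
    refine ⟨Finset.singleton_nonempty _, ?_⟩
    intro h
    replace h : ({0} : Finset (Fin (d + 2))) = Finset.univ := h
    have : (1 : Fin (d + 2)) ∈ ({0} : Finset (Fin (d + 2))) := by rw [h]; exact Finset.mem_univ _
    simp at this
  · intro s X Y h
    show X 0 (e s) = Y 0 (e s)
    rw [h 0 (by simp)]
  · intro s X Y h
    have : Function.update X 0 (Pi.single (e s) 1) = Function.update Y 0 (Pi.single (e s) 1) := by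
      funext j
      by_cases hj : j = 0
      · subst hj; simp
      · rw [Function.update_of_ne hj, Function.update_of_ne hj]
        exact h j (by simpa using hj)
    simp only [this]
  · intro X
    have h := form_update_sum B X 0 (X 0)
    rw [Function.update_eq_self] at h
    rw [h]
    exact (Equiv.sum_comp e (fun i => X 0 i * form B (Function.update X 0 (Pi.single i 1)))).symm

theorem prank_spec {d : ℕ} {ι : Type*} [Fintype ι] (B : Tensor F (d + 2) ι) :
    PRankLE B (prank B) :=
  Nat.sInf_mem (s := {r | PRankLE B r}) ⟨_, PRankLE_card B⟩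

theorem prank_le {d : ℕ} {ι : Type*} [Fintype ι] {B : Tensor F d ι} {r : ℕ} (h : PRankLE B r) :
    prank B ≤ r :=
  Nat.sInf_le h

theorem prank_le_card {d : ℕ} {ι : Type*} [Fintype ι] (B : Tensor F (d + 2) ι) :
    prank B ≤ Fintype.card ι :=
  prank_le (PRankLE_card B)

theorem card_le_prank {d : ℕ} {ι κ : Type*} [Fintype ι] [Fintype κ]
    {B : Tensor F (d + 2) ι} (φ : Fin (d + 2) → κ → ι)
    (hB : ∀ I : Fin (d + 2) → κ, B (fun j => φ j (I j)) = idT I) :
    Fintype.card κ ≤ prank B :=
  card_le_of_PRankLE (d := d + 1) φ hB (prank_spec B)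

theorem prank_idT {d : ℕ} {ι : Type*} [Fintype ι] :
    prank (idT : Tensor F (d + 2) ι) = Fintype.card ι :=
  le_antisymm (prank_le_card _) (card_le_prank (fun _ => id) (fun _ => rfl))

end prank

section reindex

variable {F : Type*} [Field F]

/-- reindexing along an equivalence -/
def reindex {d : ℕ} {ι ι' : Type*} (e : ι ≃ ι') (A : Tensor F d ι') : Tensor F d ι :=
  fun I => A (fun j => e (I j))

theorem form_reindex {d : ℕ} {ι ι' : Type*} [Fintype ι] [Fintype ι'] (e : ι ≃ ι')
    (A : Tensor F d ι') (X : Fin d → ι → F) :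
    form (reindex e A) X = form A (fun j i => X j (e.symm i)) := by
  unfold form reindex
  refine Fintype.sum_equiv (Equiv.arrowCongr (Equiv.refl _) e) _ _ (fun I => ?_)
  have h1 : (Equiv.arrowCongr (Equiv.refl (Fin d)) e) I = fun j => e (I j) := rfl
  rw [h1]
  simp

theorem PRankLE_reindex {d : ℕ} {ι ι' : Type*} [Fintype ι] [Fintype ι'] (e : ι ≃ ι')
    {A : Tensor F d ι'} {r : ℕ} (h : PRankLE A r) : PRankLE (reindex e A) r := by
  obtain ⟨S, g, h, h1, h2, h3, h4⟩ := h
  refine ⟨S, fun s X => g s (fun j i => X j (e.symm i)), fun s X => h s (fun j i => X j (e.symm i)),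
    h1, ?_, ?_, fun X => by rw [form_reindex, h4]⟩
  · intro s X Y hXY
    exact h2 s _ _ (fun i hi => by rw [hXY i hi])
  · intro s X Y hXY
    exact h3 s _ _ (fun i hi => by rw [hXY i hi])

theorem reindex_symm_reindex {d : ℕ} {ι ι' : Type*} (e : ι ≃ ι') (A : Tensor F d ι') :
    reindex e.symm (reindex e A) = A := by
  funext I
  simp [reindex]

theorem prank_reindex {d : ℕ} {ι ι' : Type*} [Fintype ι] [Fintype ι'] (e : ι ≃ ι')
    (A : Tensor F d ι') : prank (reindex e A) = prank A := by
  unfold prank
  congr 1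
  ext r
  constructor
  · intro h
    have := PRankLE_reindex e.symm (show PRankLE (reindex e A) r from h)
    rw [reindex_symm_reindex] at this
    exact this
  · intro h
    exact PRankLE_reindex e h

theorem bias_reindex {p : ℕ} [Fact p.Prime] {d : ℕ} {ι ι' : Type*} [Fintype ι] [Fintype ι']
    [DecidableEq ι] [DecidableEq ι'] (e : ι ≃ ι') (A : Tensor (ZMod p) d ι') :
    bias (reindex e A) = bias A := by
  unfold bias
  have hcard : Fintype.card (Fin d → ι → ZMod p) = Fintype.card (Fin d → ι' → ZMod p) :=
    Fintype.card_congr (Equiv.arrowCongr (Equiv.refl _) (Equiv.arrowCongr e (Equiv.refl _)))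
  rw [hcard]
  congr 2
  refine Fintype.sum_equiv (Equiv.arrowCongr (Equiv.refl _) (Equiv.arrowCongr e (Equiv.refl _)))
    _ _ (fun X => ?_)
  rw [form_reindex]
  rfl

theorem arank_reindex {p : ℕ} [Fact p.Prime] {d : ℕ} {ι ι' : Type*} [Fintype ι] [Fintype ι']
    [DecidableEq ι] [DecidableEq ι'] (e : ι ≃ ι') (A : Tensor (ZMod p) d ι') :
    arank (reindex e A) = arank A := by
  unfold arank
  rw [bias_reindex]

theorem idT_reindex {d : ℕ} {ι ι' : Type*} (e : ι ≃ ι') :
    reindex e (idT : Tensor F d ι') = idT := by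
  classical
  funext I
  unfold reindex idT
  have h : (∀ j k, e (I j) = e (I k)) ↔ (∀ j k, I j = I k) := by simp
  by_cases h' : ∀ j k, I j = I k
  · rw [if_pos h', if_pos (h.mpr h')]
  · rw [if_neg h', if_neg (fun hc => h' (h.mp hc))]

theorem tpow_reindex {d : ℕ} {ι ι' : Type*} (e : ι ≃ ι') (A : Tensor F d ι') (m : ℕ) :
    tpow (reindex e A) m = reindex (Equiv.arrowCongr (Equiv.refl (Fin m)) e) (tpow A m) := by
  funext I
  rfl

theorem tpow_idT {d : ℕ} {ι : Type*} (m : ℕ) :
    tpow (idT : Tensor F d ι) m = idT := by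
  classical
  funext I
  unfold tpow idT
  by_cases h : ∀ j k, I j = I k
  · rw [if_pos h]
    apply Finset.prod_eq_one
    intro x _
    rw [if_pos]
    intro j k
    show I j x = I k x
    rw [h j k]
  · rw [if_neg h]
    push Not at h
    obtain ⟨j, k, hjk⟩ := h
    obtain ⟨x, hx⟩ : ∃ x, I j x ≠ I k x := by
      by_contra hc
      push Not at hc
      exact hjk (funext hc)
    apply Finset.prod_eq_zero (Finset.mem_univ x)
    rw [if_neg]
    intro hc
    exact hx (hc j k)

end reindex

end Pool.Agent.H277R2.Tens
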