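import Mathlib
import Pool.Agent.H277R2.Tens2

set_option autoImplicit false

namespace Pool.Agent.H277R2.Tens

open Finset

/-! ### A Behrend-type set for `a + b + c = 3 e` -/

theorem mean_free {t D ρ B : ℕ} (hB : 3 * D ≤ B) {x1 x2 x3 x4 : Fin t → ℕ}
    (h1 : x1 ∈ Behrend.sphere t D ρ) (h2 : x2 ∈ Behrend.sphere t D ρ)
    (h3 : x3 ∈ Behrend.sphere t D ρ) (h4 : x4 ∈ Behrend.sphere t D ρ)
    (h : Behrend.map B x1 + Behrend.map B x2 + Behrend.map B x3 = 3 * Behrend.map B x4) :
    x1 = x4 ∧ x2 = x4 ∧ x3 = x4 := by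
  simp only [Behrend.sphere, mem_filter, Behrend.mem_box] at h1 h2 h3 h4
  have hsum : x1 + x2 + x3 = x4 + x4 + x4 := by
    apply Behrend.map_injOn (n := t) (d := B)
    · intro i
      have := h1.1 i; have := h2.1 i; have := h3.1 i
      simp only [Pi.add_apply]; omega
    · intro i
      have := h4.1 i
      simp only [Pi.add_apply]; omega
    · rw [_root_.map_add, _root_.map_add, _root_.map_add, _root_.map_add, h]
      ring
  have hi : ∀ i, (x1 i : ℤ) + x2 i + x3 i = 3 * x4 i := by
    intro i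
    have := congrFun hsum i
    simp only [Pi.add_apply] at this
    omega
  have hz : ∑ i, (((x1 i : ℤ) - x4 i) ^ 2 + ((x2 i : ℤ) - x4 i) ^ 2 + ((x3 i : ℤ) - x4 i) ^ 2) = 0 := by
    have e : ∀ i, (((x1 i : ℤ) - x4 i) ^ 2 + ((x2 i : ℤ) - x4 i) ^ 2 + ((x3 i : ℤ) - x4 i) ^ 2) =
        (x1 i : ℤ) ^ 2 + (x2 i : ℤ) ^ 2 + (x3 i : ℤ) ^ 2 - 3 * (x4 i : ℤ) ^ 2 := by
      intro i
      have := hi i
      have h' : (x3 i : ℤ) = 3 * x4 i - x1 i - x2 i := by linarith
      rw [h']; ring
    simp only [e]
    rw [Finset.sum_sub_distrib, Finset.sum_add_distrib, Finset.sum_add_distrib, ← Finset.mul_sum]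
    have q1 : ∑ i, (x1 i : ℤ) ^ 2 = ρ := by exact_mod_cast h1.2
    have q2 : ∑ i, (x2 i : ℤ) ^ 2 = ρ := by exact_mod_cast h2.2
    have q3 : ∑ i, (x3 i : ℤ) ^ 2 = ρ := by exact_mod_cast h3.2
    have q4 : ∑ i, (x4 i : ℤ) ^ 2 = ρ := by exact_mod_cast h4.2
    rw [q1, q2, q3, q4]; ring
  have hall := (Finset.sum_eq_zero_iff_of_nonneg (fun i _ => by positivity)).mp hz
  refine ⟨funext fun i => ?_, funext fun i => ?_, funext fun i => ?_⟩ <;>
  · have h5 := hall i (Finset.mem_univ i)
    have e1 : ((x1 i : ℤ) - x4 i) ^ 2 ≥ 0 := sq_nonneg _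
    have e2 : ((x2 i : ℤ) - x4 i) ^ 2 ≥ 0 := sq_nonneg _
    have e3 : ((x3 i : ℤ) - x4 i) ^ 2 ≥ 0 := sq_nonneg _
    have f1 : ((x1 i : ℤ) - x4 i) ^ 2 = 0 := by linarith
    have f2 : ((x2 i : ℤ) - x4 i) ^ 2 = 0 := by linarith
    have f3 : ((x3 i : ℤ) - x4 i) ^ 2 = 0 := by linarith
    have g1 := pow_eq_zero_iff (two_ne_zero) |>.mp f1
    have g2 := pow_eq_zero_iff (two_ne_zero) |>.mp f2
    have g3 := pow_eq_zero_iff (two_ne_zero) |>.mp f3
    omega

theorem map_bound {B : ℕ} : ∀ (t : ℕ) (x : Fin t → ℕ), (∀ i, 11 * x i + 1 ≤ B) →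
    11 * Behrend.map B x + 1 ≤ B ^ t := by
  intro t
  induction t with
  | zero => intro x _; simp [Behrend.map]
  | succ t ih =>
    intro x hx
    rw [Behrend.map_succ']
    have h1 := ih (x ∘ Fin.succ) (fun i => hx _)
    have h2 := hx 0
    have h3 : (11 * Behrend.map B (x ∘ Fin.succ) + 1) * B ≤ B ^ t * B := Nat.mul_le_mul_right _ h1
    rw [pow_succ]
    nlinarith

/-! ### The tensor -/

/-- the pattern of the first summand: `[i_0 = i_1] [i_2 = i_3 = …]` -/
def P0 {d k : ℕ} (I : Fin (d + 4) → Bool × Fin k) : Prop :=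
  (∀ j, (I j).1 = false) ∧ (I 0).2 = (I 1).2 ∧ ∀ j, j ≠ 0 → j ≠ 1 → (I j).2 = (I 3).2

/-- the pattern of the second summand: `[i_0 = i_2] [i_1 = i_3 = …]` -/
def P1 {d k : ℕ} (I : Fin (d + 4) → Bool × Fin k) : Prop :=
  (∀ j, (I j).1 = true) ∧ (I 0).2 = (I 2).2 ∧ ∀ j, j ≠ 0 → j ≠ 2 → (I j).2 = (I 3).2

open Classical in
/-- the counterexample: a direct sum of two tensors of partition rank one -/
noncomputable def A0 (F : Type*) [Field F] (d k : ℕ) : Tensor F (d + 4) (Bool × Fin k) :=
  fun I => if P0 I ∨ P1 I then 1 else 0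

/-! ### Words -/

variable {h k : ℕ}

abbrev Words (h : ℕ) := {s : Finset (Fin (2 * h)) // s.card = h}

theorem compl_card (s : Words h) : (s.1ᶜ).card = h := by
  rw [Finset.card_compl, Fintype.card_fin, s.2]; omega

noncomputable def eT (s : Words h) : {p // p ∈ s.1} ≃ Fin h := Finset.equivFinOfCardEq s.2
noncomputable def eF (s : Words h) : {p // p ∈ s.1ᶜ} ≃ Fin h :=
  Finset.equivFinOfCardEq (compl_card s)

/-- word with positions in `s` of type `true` carrying `v`, other positions carrying `u` -/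
noncomputable def put (s : Words h) (u v : Fin h → Fin k) : Fin (2 * h) → Bool × Fin k :=
  fun p => if hp : p ∈ s.1 then (true, v (eT s ⟨p, hp⟩))
    else (false, u (eF s ⟨p, Finset.mem_compl.mpr hp⟩))

theorem put_true (s : Words h) (u v : Fin h → Fin k) (i : Fin h) :
    put s u v ((eT s).symm i).1 = (true, v i) := by
  unfold put
  rw [dif_pos ((eT s).symm i).2]
  simp

theorem put_false (s : Words h) (u v : Fin h → Fin k) (i : Fin h) :
    put s u v ((eF s).symm i).1 = (false, u i) := by
  unfold put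
  rw [dif_neg (Finset.mem_compl.mp ((eF s).symm i).2)]
  simp

theorem put_fst (s : Words h) (u v : Fin h → Fin k) (p : Fin (2 * h)) :
    (put s u v p).1 = true ↔ p ∈ s.1 := by
  unfold put
  by_cases hp : p ∈ s.1
  · rw [dif_pos hp]; simp [hp]
  · rw [dif_neg hp]; simp [hp]

/-- Pattern equivalence: for common `s`, the tensor power entry at `put`-words is one iff the
two systems of equalities hold. -/
theorem tpow_put {F : Type*} [Field F] (d : ℕ) (s : Fin (d + 4) → Words h)
    (u v : Fin (d + 4) → Fin h → Fin k) :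
    tpow (A0 F d k) (2 * h) (fun j => put (s j) (u j) (v j)) = 1 ∨
    tpow (A0 F d k) (2 * h) (fun j => put (s j) (u j) (v j)) = 0 := by
  classical
  unfold tpow A0
  by_cases hall : ∀ p : Fin (2 * h), P0 (fun j => put (s j) (u j) (v j) p) ∨
      P1 (fun j => put (s j) (u j) (v j) p)
  · left
    apply Finset.prod_eq_one
    intro p _
    rw [if_pos (hall p)]
  · right
    push Not at hall
    obtain ⟨p, hp⟩ := hall
    apply Finset.prod_eq_zero (Finset.mem_univ p)
    rw [if_neg]
    rintro (h | h)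
    · exact hp.1 h
    · exact hp.2 h

theorem tpow_put_iff {F : Type*} [Field F] (d : ℕ) (s : Fin (d + 4) → Words h)
    (u v : Fin (d + 4) → Fin h → Fin k) :
    tpow (A0 F d k) (2 * h) (fun j => put (s j) (u j) (v j)) = 1 ↔
      (∀ j, s j = s 0) ∧ u 0 = u 1 ∧ (∀ j, j ≠ 0 → j ≠ 1 → u j = u 3) ∧
      v 0 = v 2 ∧ (∀ j, j ≠ 0 → j ≠ 2 → v j = v 3) := by
  classical
  constructor
  · intro h1
    have hall : ∀ p : Fin (2 * h), P0 (fun j => put (s j) (u j) (v j) p) ∨
        P1 (fun j => put (s j) (u j) (v j) p) := by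
      intro p
      by_contra hc
      have : tpow (A0 F d k) (2 * h) (fun j => put (s j) (u j) (v j)) = 0 := by
        unfold tpow A0
        apply Finset.prod_eq_zero (Finset.mem_univ p)
        rw [if_neg hc]
      rw [this] at h1
      exact zero_ne_one h1
    have hs : ∀ j, s j = s 0 := by
      intro j
      apply Subtype.ext
      ext p
      rw [← put_fst (s j) (u j) (v j) p, ← put_fst (s 0) (u 0) (v 0) p]
      rcases hall p with h | h
      · have e1 := h.1 j; have e2 := h.1 0
        simp only at e1 e2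
        rw [e1, e2]
      · have e1 := h.1 j; have e2 := h.1 0
        simp only at e1 e2
        rw [e1, e2]
    refine ⟨hs, ?_, ?_, ?_, ?_⟩
    · funext i
      have hp := hall ((eF (s 0)).symm i).1
      rcases hp with hp | hp
      · have := hp.2.1
        simp only [hs 1, put_false] at this
        exact this
      · have := hp.1 0
        simp only [put_false] at this
        exact absurd this (by simp)
    · intro j hj0 hj1
      funext i
      have hp := hall ((eF (s 0)).symm i).1
      rcases hp with hp | hp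
      · have := hp.2.2 j hj0 hj1
        simp only [hs j, hs 3, put_false] at this
        exact this
      · have := hp.1 0
        simp only [put_false] at this
        exact absurd this (by simp)
    · funext i
      have hp := hall ((eT (s 0)).symm i).1
      rcases hp with hp | hp
      · have := hp.1 0
        simp only [put_true] at this
        exact absurd this (by simp)
      · have := hp.2.1
        simp only [hs 2, put_true] at this
        exact this
    · intro j hj0 hj2
      funext i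
      have hp := hall ((eT (s 0)).symm i).1
      rcases hp with hp | hp
      · have := hp.1 0
        simp only [put_true] at this
        exact absurd this (by simp)
      · have := hp.2.2 j hj0 hj2
        simp only [hs j, hs 3, put_true] at this
        exact this
  · rintro ⟨hs, hu1, hu2, hv1, hv2⟩
    unfold tpow A0
    apply Finset.prod_eq_one
    intro p _
    rw [if_pos]
    by_cases hp : p ∈ (s 0).1
    · right
      have e : ∀ j, put (s j) (u j) (v j) p = (true, v j (eT (s 0) ⟨p, hp⟩)) := by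
        intro j
        rw [hs j]
        unfold put
        rw [dif_pos hp]
      refine ⟨fun j => by simp only [e], ?_, fun j hj0 hj2 => ?_⟩
      · have e1 := e 0; have e2 := e 2
        simp only
        rw [e1, e2, hv1]
      · simp only [e]
        rw [hv2 j hj0 hj2]
    · left
      have e : ∀ j, put (s j) (u j) (v j) p =
          (false, u j (eF (s 0) ⟨p, Finset.mem_compl.mpr hp⟩)) := by
        intro j
        rw [hs j]
        unfold put
        rw [dif_neg hp]
      refine ⟨fun j => by simp only [e], ?_, fun j hj0 hj1 => ?_⟩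
      · have e1 := e 0; have e2 := e 1
        simp only
        rw [e1, e2, hu1]
      · simp only [e]
        rw [hu2 j hj0 hj1]

/-- encoding of numbers `< k ^ h` -/
noncomputable def enc (h k : ℕ) (x : ℕ) (hx : x < k ^ h) : Fin h → Fin k :=
  finFunctionFinEquiv.symm ⟨x, hx⟩

theorem enc_inj {h k x y : ℕ} (hx : x < k ^ h) (hy : y < k ^ h) (he : enc h k x hx = enc h k y hy) :
    x = y := by
  unfold enc at he
  have := finFunctionFinEquiv.symm.injective he
  exact congrArg Fin.val this

/-- The diagonal inside the tensor power. -/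
theorem exists_restrict {F : Type*} [Field F] (d : ℕ) {Γ : Type} (xx aa : Γ → ℕ)
    (hinj : ∀ γ δ, xx γ = xx δ → aa γ = aa δ → γ = δ)
    (hb : ∀ γ, xx γ + 3 * aa γ < k ^ h)
    (hmf : ∀ γ₁ γ₂ γ₃ γ₄, aa γ₁ + aa γ₂ + aa γ₃ = 3 * aa γ₄ →
      aa γ₁ = aa γ₄ ∧ aa γ₂ = aa γ₄ ∧ aa γ₃ = aa γ₄) :
    ∃ φ : Fin (d + 4) → (Words h × Γ) → (Fin (2 * h) → Bool × Fin k),
      ∀ I : Fin (d + 4) → (Words h × Γ),
        tpow (A0 F d k) (2 * h) (fun j => φ j (I j)) = idT I := by
  classical
  have b0 : ∀ γ, xx γ < k ^ h := fun γ => by have := hb γ; omega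
  have b1 : ∀ γ, xx γ + aa γ < k ^ h := fun γ => by have := hb γ; omega
  have b2 : ∀ γ, xx γ + 2 * aa γ < k ^ h := fun γ => by have := hb γ; omega
  let uu : Fin (d + 4) → Γ → Fin h → Fin k := fun j γ =>
    if j = 0 ∨ j = 1 then enc h k (xx γ) (b0 γ) else enc h k (xx γ + 2 * aa γ) (b2 γ)
  let vv : Fin (d + 4) → Γ → Fin h → Fin k := fun j γ =>
    if j = 0 ∨ j = 2 then enc h k (xx γ + aa γ) (b1 γ) else enc h k (xx γ + 3 * aa γ) (hb γ)
  refine ⟨fun j c => put c.1 (uu j c.2) (vv j c.2), fun I => ?_⟩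
  have hiff := tpow_put_iff (F := F) d (fun j => (I j).1) (fun j => uu j (I j).2)
    (fun j => vv j (I j).2)
  have hor := tpow_put (F := F) d (fun j => (I j).1) (fun j => uu j (I j).2)
    (fun j => vv j (I j).2)
  have v1 : ((1 : Fin (d + 4)) : ℕ) = 1 := by
    rw [show ((1 : Fin (d + 4)) : ℕ) = 1 % (d + 4) from rfl]; exact Nat.mod_eq_of_lt (by omega)
  have v2 : ((2 : Fin (d + 4)) : ℕ) = 2 := by
    rw [show ((2 : Fin (d + 4)) : ℕ) = 2 % (d + 4) from rfl]; exact Nat.mod_eq_of_lt (by omega)
  have v3 : ((3 : Fin (d + 4)) : ℕ) = 3 := by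
    rw [show ((3 : Fin (d + 4)) : ℕ) = 3 % (d + 4) from rfl]; exact Nat.mod_eq_of_lt (by omega)
  have v0 : ((0 : Fin (d + 4)) : ℕ) = 0 := rfl
  have n10 : (1 : Fin (d + 4)) ≠ 0 := fun h => by have := congrArg Fin.val h; omega
  have n20 : (2 : Fin (d + 4)) ≠ 0 := fun h => by have := congrArg Fin.val h; omega
  have n21 : (2 : Fin (d + 4)) ≠ 1 := fun h => by have := congrArg Fin.val h; omega
  have n30 : (3 : Fin (d + 4)) ≠ 0 := fun h => by have := congrArg Fin.val h; omega
  have n31 : (3 : Fin (d + 4)) ≠ 1 := fun h => by have := congrArg Fin.val h; omega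
  have n32 : (3 : Fin (d + 4)) ≠ 2 := fun h => by have := congrArg Fin.val h; omega
  by_cases hI : ∀ j l, I j = I l
  · have : (idT I : F) = 1 := by unfold idT; rw [if_pos hI]
    rw [this]
    apply hiff.mpr
    refine ⟨fun j => by rw [hI j 0], ?_, ?_, ?_, ?_⟩
    · simp only [uu, hI 1 0]; simp
    · intro j h0 h1
      simp only [uu, hI j 0, hI 3 0]
      simp [h0, h1, n30, n31]
    · simp only [vv, hI 2 0]; simp
    · intro j h0 h2
      simp only [vv, hI j 0, hI 3 0]
      simp [h0, h2, n30, n32]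
  · have : (idT I : F) = 0 := by unfold idT; rw [if_neg hI]
    rw [this]
    rcases hor with hor | hor
    swap
    · exact hor
    exfalso
    apply hI
    obtain ⟨hs, hu1, hu2, hv1, hv2⟩ := hiff.mp hor
    simp only [uu, vv] at hu1 hu2 hv1 hv2
    have e1 : xx (I 0).2 = xx (I 1).2 := by
      rw [if_pos (by simp), if_pos (by simp)] at hu1
      exact enc_inj _ _ hu1
    have e2 : xx (I 0).2 + aa (I 0).2 = xx (I 2).2 + aa (I 2).2 := by
      rw [if_pos (by simp), if_pos (by simp)] at hv1
      exact enc_inj _ _ hv1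
    have e3 : ∀ j, j ≠ 0 → j ≠ 1 → xx (I j).2 + 2 * aa (I j).2 = xx (I 3).2 + 2 * aa (I 3).2 := by
      intro j h0 h1
      have := hu2 j h0 h1
      rw [if_neg (by simp [h0, h1]), if_neg (by simp [n30, n31])] at this
      exact enc_inj _ _ this
    have e4 : ∀ j, j ≠ 0 → j ≠ 2 → xx (I j).2 + 3 * aa (I j).2 = xx (I 3).2 + 3 * aa (I 3).2 := by
      intro j h0 h2
      have := hv2 j h0 h2
      rw [if_neg (by simp [h0, h2]), if_neg (by simp [n30, n32])] at this
      exact enc_inj _ _ this
    have e32 := e3 2 n20 n21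
    have e41 := e4 1 n10 n21.symm
    have hm := hmf (I 0).2 (I 2).2 (I 3).2 (I 1).2 (by omega)
    obtain ⟨m1, m2, m3⟩ := hm
    have main : ∀ j, I j = I 3 := by
      intro j
      have hsj : (I j).1 = (I 3).1 := (hs j).trans (hs 3).symm
      have hg : (I j).2 = (I 3).2 := by
        by_cases h0 : j = 0
        · subst h0
          exact hinj _ _ (by omega) (by omega)
        · by_cases h1 : j = 1
          · subst h1
            exact hinj _ _ (by omega) (by omega)
          · by_cases h2 : j = 2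
            · subst h2
              exact hinj _ _ (by omega) (by omega)
            · have a1 := e3 j h0 h1
              have a2 := e4 j h0 h2
              exact hinj _ _ (by omega) (by omega)
      exact Prod.ext hsj hg
    intro j l
    rw [main j, main l]

end Pool.Agent.H277R2.Tens
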