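import Mathlib
import Pool.Agent.H277R2.Tens3

set_option autoImplicit false

namespace Pool.Agent.H277R2.Tens

open Finset

theorem exists_t (K : ℝ) : ∃ t : ℕ, 1 ≤ t ∧ K * (t : ℝ) ^ 2 ≤ 2 ^ t := by
  have h1 := tendsto_pow_const_div_const_pow_of_one_lt 2 (show (1 : ℝ) < 2 by norm_num)
  have h2 := (h1.const_mul K)
  rw [mul_zero] at h2
  have h3 := (h2.eventually (gt_mem_nhds (show (0 : ℝ) < 1 by norm_num))).and
    (Filter.eventually_ge_atTop 1)
  obtain ⟨t, ht, ht1⟩ := h3.exists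
  refine ⟨t, ht1, ?_⟩
  have h4 : (0 : ℝ) < 2 ^ t := by positivity
  rw [mul_div_assoc', div_lt_one h4] at ht
  exact ht.le

theorem exists_q {c : ℝ} (h0 : 0 < c) (h1 : c < 1) {k : ℕ} (hk : 2 ≤ k) :
    ∃ q : ℕ, 1 ≤ q ∧ c ^ (2 * q) ≤ 1 / 48 ∧ 12 ≤ k ^ q := by
  obtain ⟨n, hn⟩ := exists_pow_lt_of_lt_one (show (0 : ℝ) < 1 / 48 by norm_num) h1
  refine ⟨n + 4, by omega, ?_, ?_⟩
  · refine le_trans ?_ hn.le
    exact pow_le_pow_of_le_one h0.le h1.le (by omega)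
  · calc 12 ≤ 2 ^ 4 := by norm_num
      _ ≤ 2 ^ (n + 4) := Nat.pow_le_pow_right (by norm_num) (by omega)
      _ ≤ k ^ (n + 4) := Nat.pow_le_pow_left hk _

theorem exists_count {c : ℝ} (h0 : 0 < c) (h1 : c < 1) {k : ℕ} (hk : 2 ≤ k) :
    ∃ (h : ℕ) (_ : 0 < h) (Γ : Type) (_ : Fintype Γ) (xx aa : Γ → ℕ),
      (∀ γ δ, xx γ = xx δ → aa γ = aa δ → γ = δ) ∧
      (∀ γ, xx γ + 3 * aa γ < k ^ h) ∧
      (∀ γ₁ γ₂ γ₃ γ₄, aa γ₁ + aa γ₂ + aa γ₃ = 3 * aa γ₄ →
        aa γ₁ = aa γ₄ ∧ aa γ₂ = aa γ₄ ∧ aa γ₃ = aa γ₄) ∧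
      c ^ (2 * h) * (2 * (k : ℝ)) ^ (2 * h) ≤ (Fintype.card (Words h × Γ) : ℝ) := by
  obtain ⟨q, hq1, hq2, hq3⟩ := exists_q h0 h1 hk
  set B : ℕ := k ^ q with hB
  obtain ⟨t, ht1, ht2⟩ := exists_t (6 * q * (B : ℝ) ^ 2)
  set D : ℕ := B / 12 with hD
  have hD12 : 12 * D ≤ B := Nat.mul_div_le B 12
  have hDpos : 1 ≤ D := by
    rw [hD, Nat.le_div_iff_mul_le (by norm_num)]; omega
  have hB24 : B ≤ 24 * D := by omega
  set h : ℕ := q * t with hh
  have hhpos : 0 < h := Nat.mul_pos (by omega) (by omega)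
  have hBt : B ^ t = k ^ h := by rw [hB, hh, pow_mul]
  obtain ⟨ρ, hρ⟩ := Behrend.exists_large_sphere t D
  have hkh : 2 ≤ k ^ h := by
    calc 2 = 2 ^ 1 := by norm_num
      _ ≤ 2 ^ h := Nat.pow_le_pow_right (by norm_num) hhpos
      _ ≤ k ^ h := Nat.pow_le_pow_left hk _
  have hbox : ∀ x ∈ Behrend.sphere t D ρ, ∀ i, x i < D := by
    intro x hx
    exact Behrend.mem_box.mp (Behrend.sphere_subset_box hx)
  have hmapb : ∀ x ∈ Behrend.sphere t D ρ, 11 * Behrend.map B x + 1 ≤ k ^ h := by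
    intro x hx
    rw [← hBt]
    apply map_bound
    intro i
    have := hbox x hx i
    omega
  refine ⟨h, hhpos, Fin (k ^ h / 2) × {x // x ∈ Behrend.sphere t D ρ}, inferInstance,
    fun γ => γ.1.val, fun γ => Behrend.map B γ.2.1, ?_, ?_, ?_, ?_⟩
  · rintro ⟨i, x, hx⟩ ⟨j, y, hy⟩ h1 h2
    simp only at h1 h2
    refine Prod.ext (Fin.ext h1) (Subtype.ext ?_)
    apply Behrend.map_injOn (n := t) (d := B)
    · intro i
      have := hbox x hx i
      show x i < B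
      omega
    · intro i
      have := hbox y hy i
      show y i < B
      omega
    · exact h2
  · rintro ⟨i, x, hx⟩
    have h2 := hmapb x hx
    have h3 := i.2
    simp only
    omega
  · rintro ⟨_, x1, hx1⟩ ⟨_, x2, hx2⟩ ⟨_, x3, hx3⟩ ⟨_, x4, hx4⟩ he
    simp only at he ⊢
    obtain ⟨e1, e2, e3⟩ := mean_free (by omega) hx1 hx2 hx3 hx4 he
    rw [e1, e2, e3]
    exact ⟨rfl, rfl, rfl⟩
  · rw [Fintype.card_prod, Fintype.card_prod, Fintype.card_fin, Fintype.card_coe]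
    have hW : Fintype.card (Words h) = Nat.centralBinom h := by
      rw [Fintype.card_finset_len, Fintype.card_fin, Nat.centralBinom_eq_two_mul_choose]
    rw [hW]
    push_cast
    have c1 : (4 : ℝ) ^ h ≤ 2 * h * (Nat.centralBinom h : ℝ) := by
      exact_mod_cast Nat.four_pow_le_two_mul_self_mul_centralBinom h hhpos
    have c2 : ((k : ℝ) ^ h) ≤ 3 * ((k ^ h / 2 : ℕ) : ℝ) := by
      have : k ^ h ≤ 3 * (k ^ h / 2) := by omega
      exact_mod_cast this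
    have c3 : (D : ℝ) ^ t ≤ (t * (D : ℝ) ^ 2) * ((Behrend.sphere t D ρ).card : ℝ) := by
      have : (0 : ℝ) < (t * (D : ℝ) ^ 2) := by
        have : (0 : ℝ) < t := by exact_mod_cast ht1
        have : (0 : ℝ) < D := by exact_mod_cast hDpos
        positivity
      push_cast at hρ
      rw [div_le_iff₀ this] at hρ
      linarith
    have c4 : (B : ℝ) ^ t ≤ 24 ^ t * (D : ℝ) ^ t := by
      rw [← mul_pow]
      exact pow_le_pow_left₀ (by positivity) (by exact_mod_cast hB24) _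
    have c5 : (D : ℝ) ^ 2 ≤ (B : ℝ) ^ 2 := by
      apply pow_le_pow_left₀ (by positivity)
      have : D ≤ B := by omega
      exact_mod_cast this
    have c6 : c ^ (2 * h) ≤ (1 / 48) ^ t := by
      rw [hh, ← mul_assoc, pow_mul]
      exact pow_le_pow_left₀ (by positivity) hq2 _
    have e1 : (2 * (k : ℝ)) ^ (2 * h) = 4 ^ h * (k : ℝ) ^ h * (k : ℝ) ^ h := by
      have e4 : (4 : ℝ) ^ h = 2 ^ h * 2 ^ h := by rw [← mul_pow]; norm_num
      rw [e4, two_mul h, pow_add, mul_pow]; ring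
    have e2 : (k : ℝ) ^ h = (B : ℝ) ^ t := by exact_mod_cast hBt.symm
    set W : ℝ := (Nat.centralBinom h : ℝ)
    set X : ℝ := ((k ^ h / 2 : ℕ) : ℝ)
    set Sp : ℝ := ((Behrend.sphere t D ρ).card : ℝ)
    have hW0 : 0 ≤ W := Nat.cast_nonneg _
    have hX0 : 0 ≤ X := Nat.cast_nonneg _
    have hS0 : 0 ≤ Sp := Nat.cast_nonneg _
    have hkk : (0 : ℝ) ≤ (k : ℝ) ^ h := by positivity
    have htR : (1 : ℝ) ≤ t := by exact_mod_cast ht1
    -- total
    have T1 : 4 ^ h * (k : ℝ) ^ h * (k : ℝ) ^ h ≤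
        (2 * h * W) * (3 * X) * (24 ^ t * ((t * (B : ℝ) ^ 2) * Sp)) := by
      have s3 : (k : ℝ) ^ h ≤ 24 ^ t * ((t * (B : ℝ) ^ 2) * Sp) := by
        rw [e2]
        refine c4.trans ?_
        apply mul_le_mul_of_nonneg_left _ (by positivity)
        refine c3.trans ?_
        apply mul_le_mul_of_nonneg_right _ hS0
        apply mul_le_mul_of_nonneg_left c5 (by positivity)
      have s2 : 4 ^ h * (k : ℝ) ^ h ≤ (2 * h * W) * (3 * X) :=
        mul_le_mul c1 c2 hkk (by positivity)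
      exact mul_le_mul s2 s3 hkk (by positivity)
    have T2 : (2 * h * W) * (3 * X) * (24 ^ t * ((t * (B : ℝ) ^ 2) * Sp)) =
        (24 ^ t * (6 * q * (B : ℝ) ^ 2 * (t : ℝ) ^ 2)) * (W * (X * Sp)) := by
      rw [hh]; push_cast; ring
    have T3 : (24 : ℝ) ^ t * (6 * q * (B : ℝ) ^ 2 * (t : ℝ) ^ 2) ≤ 48 ^ t := by
      calc (24 : ℝ) ^ t * (6 * q * (B : ℝ) ^ 2 * (t : ℝ) ^ 2) ≤ 24 ^ t * 2 ^ t :=
            mul_le_mul_of_nonneg_left ht2 (by positivity)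
        _ = 48 ^ t := by rw [← mul_pow]; norm_num
    rw [e1]
    calc c ^ (2 * h) * (4 ^ h * (k : ℝ) ^ h * (k : ℝ) ^ h)
        ≤ (1 / 48) ^ t * (48 ^ t * (W * (X * Sp))) := by
          apply mul_le_mul c6 _ (by positivity) (by positivity)
          rw [T2] at T1
          refine T1.trans ?_
          exact mul_le_mul_of_nonneg_right T3 (by positivity)
      _ = W * (X * Sp) := by
          rw [← mul_assoc, ← mul_pow]; norm_num

end Pool.Agent.H277R2.Tens
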