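import Mathlib
import Pool.Agent.H277R2.Tens4

set_option autoImplicit false

namespace Pool.Agent.H277R2.Tens

open Finset

/-- product pattern -/
def Q {d k : ℕ} (b : Bool) (S : Finset (Fin (d + 4))) (I : Fin (d + 4) → Bool × Fin k) : Prop :=
  (∀ j, (I j).1 = b) ∧ (∀ j ∈ S, (I j).2 = (I 0).2) ∧ ∀ j, j ∉ S → (I j).2 = (I 3).2

theorem fin_facts (d : ℕ) : (0 : Fin (d + 4)) ≠ 1 ∧ (0 : Fin (d + 4)) ≠ 2 ∧ (0 : Fin (d + 4)) ≠ 3 ∧
    (1 : Fin (d + 4)) ≠ 2 ∧ (1 : Fin (d + 4)) ≠ 3 ∧ (2 : Fin (d + 4)) ≠ 3 := by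
  have v1 : ((1 : Fin (d + 4)) : ℕ) = 1 := by
    rw [show ((1 : Fin (d + 4)) : ℕ) = 1 % (d + 4) from rfl]; exact Nat.mod_eq_of_lt (by omega)
  have v2 : ((2 : Fin (d + 4)) : ℕ) = 2 := by
    rw [show ((2 : Fin (d + 4)) : ℕ) = 2 % (d + 4) from rfl]; exact Nat.mod_eq_of_lt (by omega)
  have v3 : ((3 : Fin (d + 4)) : ℕ) = 3 := by
    rw [show ((3 : Fin (d + 4)) : ℕ) = 3 % (d + 4) from rfl]; exact Nat.mod_eq_of_lt (by omega)
  have v0 : ((0 : Fin (d + 4)) : ℕ) = 0 := rfl
  refine ⟨?_, ?_, ?_, ?_, ?_, ?_⟩ <;> intro h <;> have := congrArg Fin.val h <;> omega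

theorem P0_iff {d k : ℕ} (I : Fin (d + 4) → Bool × Fin k) : P0 I ↔ Q false {0, 1} I := by
  obtain ⟨h01, h02, h03, h12, h13, h23⟩ := fin_facts d
  unfold P0 Q
  constructor
  · rintro ⟨h1, h2, h3⟩
    refine ⟨h1, ?_, ?_⟩
    · intro j hj
      rw [Finset.mem_insert, Finset.mem_singleton] at hj
      rcases hj with rfl | rfl
      · rfl
      · exact h2.symm
    · intro j hj
      rw [Finset.mem_insert, Finset.mem_singleton, not_or] at hj
      exact h3 j hj.1 hj.2
  · rintro ⟨h1, h2, h3⟩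
    refine ⟨h1, (h2 1 (by simp)).symm, fun j hj0 hj1 => h3 j (by simp [hj0, hj1])⟩

theorem P1_iff {d k : ℕ} (I : Fin (d + 4) → Bool × Fin k) : P1 I ↔ Q true {0, 2} I := by
  unfold P1 Q
  constructor
  · rintro ⟨h1, h2, h3⟩
    refine ⟨h1, ?_, ?_⟩
    · intro j hj
      rw [Finset.mem_insert, Finset.mem_singleton] at hj
      rcases hj with rfl | rfl
      · rfl
      · exact h2.symm
    · intro j hj
      rw [Finset.mem_insert, Finset.mem_singleton, not_or] at hj
      exact h3 j hj.1 hj.2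
  · rintro ⟨h1, h2, h3⟩
    refine ⟨h1, (h2 2 (by simp)).symm, fun j hj0 hj1 => h3 j (by simp [hj0, hj1])⟩

open Classical in
theorem sum_pattern {F : Type*} [Field F] {d k : ℕ} (b : Bool) (S : Finset (Fin (d + 4)))
    (h0 : 0 ∈ S) (h3 : 3 ∉ S) (X : Fin (d + 4) → Bool × Fin k → F) :
    ∑ I : Fin (d + 4) → Bool × Fin k, (if Q b S I then (1 : F) else 0) * ∏ j, X j (I j) =
      (∑ i, ∏ j ∈ S, X j (b, i)) * (∑ i, ∏ j ∈ Sᶜ, X j (b, i)) := by
  rw [Finset.sum_mul_sum]
  rw [← Finset.sum_product' Finset.univ Finset.univ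
    (fun i i' => (∏ j ∈ S, X j (b, i)) * (∏ j ∈ Sᶜ, X j (b, i')))]
  simp only [ite_mul, one_mul, zero_mul]
  rw [← Finset.sum_filter]
  refine Finset.sum_nbij' (fun I => ((I 0).2, (I 3).2))
    (fun q => fun j => (b, if j ∈ S then q.1 else q.2)) ?_ ?_ ?_ ?_ ?_
  · intro I _; simp
  · intro q _
    simp only [Finset.mem_filter, Finset.mem_univ, true_and]
    refine ⟨fun j => rfl, fun j hj => ?_, fun j hj => ?_⟩
    · simp [hj, h0]
    · simp [hj, h3]
  · intro I hI
    simp only [Finset.mem_filter, Finset.mem_univ, true_and] at hI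
    obtain ⟨h1, h2, h4⟩ := hI
    funext j
    by_cases hj : j ∈ S
    · refine Prod.ext (h1 j).symm ?_
      simp only [hj, if_true]
      exact (h2 j hj).symm
    · refine Prod.ext (h1 j).symm ?_
      simp only [hj, if_false]
      exact (h4 j hj).symm
  · intro q _
    simp [h0, h3]
  · intro I hI
    simp only [Finset.mem_filter, Finset.mem_univ, true_and] at hI
    obtain ⟨h1, h2, h4⟩ := hI
    rw [← Finset.prod_mul_prod_compl S]
    congr 1
    · refine Finset.prod_congr rfl (fun j hj => ?_)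
      congr 1
      exact Prod.ext (h1 j) (h2 j hj)
    · refine Finset.prod_congr rfl (fun j hj => ?_)
      congr 1
      exact Prod.ext (h1 j) (h4 j (Finset.mem_compl.mp hj))

/-- the two factors of each summand -/
def gg {F : Type*} [Field F] {d k : ℕ} (b : Bool) (S : Finset (Fin (d + 4)))
    (X : Fin (d + 4) → Bool × Fin k → F) : F := ∑ i, ∏ j ∈ S, X j (b, i)

theorem form_A0 {F : Type*} [Field F] {d k : ℕ} (X : Fin (d + 4) → Bool × Fin k → F) :
    form (A0 F d k) X = gg false {0, 1} X * gg false {0, 1}ᶜ X +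
      gg true {0, 2} X * gg true {0, 2}ᶜ X := by
  classical
  obtain ⟨h01, h02, h03, h12, h13, h23⟩ := fin_facts d
  unfold gg
  rw [← sum_pattern false {0, 1} (by simp) (by simp [h03.symm, h13.symm]) X,
    ← sum_pattern true {0, 2} (by simp) (by simp [h03.symm, h23.symm]) X, ← Finset.sum_add_distrib]
  unfold form A0
  refine Finset.sum_congr rfl (fun I _ => ?_)
  rw [← add_mul]
  congr 1
  rw [P0_iff, P1_iff]
  by_cases hq0 : Q false {0, 1} I
  · have hq1 : ¬ Q true {0, 2} I := by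
      intro hc
      have e1 := hq0.1 0
      have e2 := hc.1 0
      rw [e1] at e2
      exact absurd e2 (by simp)
    simp [hq0, hq1]
  · by_cases hq1 : Q true {0, 2} I
    · simp [hq0, hq1]
    · simp [hq0, hq1]

theorem PRankLE_A0 (F : Type*) [Field F] (d k : ℕ) : PRankLE (A0 F d k) 2 := by
  obtain ⟨h01, h02, h03, h12, h13, h23⟩ := fin_facts d
  refine ⟨![{0, 1}, {0, 2}], ![gg false {0, 1}, gg true {0, 2}],
    ![gg false {0, 1}ᶜ, gg true {0, 2}ᶜ], ?_, ?_, ?_, ?_⟩
  · intro s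
    fin_cases s
    · refine ⟨⟨0, by simp⟩, fun h => ?_⟩
      have : (3 : Fin (d + 4)) ∈ ({0, 1} : Finset (Fin (d + 4))) := by
        replace h : ({0, 1} : Finset (Fin (d + 4))) = Finset.univ := h
        rw [h]; exact Finset.mem_univ _
      simp [h03.symm, h13.symm] at this
    · refine ⟨⟨0, by simp⟩, fun h => ?_⟩
      have : (3 : Fin (d + 4)) ∈ ({0, 2} : Finset (Fin (d + 4))) := by
        replace h : ({0, 2} : Finset (Fin (d + 4))) = Finset.univ := h
        rw [h]; exact Finset.mem_univ _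
      simp [h03.symm, h23.symm] at this
  · intro s X Y hXY
    fin_cases s
    · show gg false {0, 1} X = gg false {0, 1} Y
      unfold gg
      refine Finset.sum_congr rfl (fun i _ => Finset.prod_congr rfl (fun j hj => ?_))
      rw [hXY j hj]
    · show gg true {0, 2} X = gg true {0, 2} Y
      unfold gg
      refine Finset.sum_congr rfl (fun i _ => Finset.prod_congr rfl (fun j hj => ?_))
      rw [hXY j hj]
  · intro s X Y hXY
    fin_cases s
    · show gg false {0, 1}ᶜ X = gg false {0, 1}ᶜ Y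
      unfold gg
      refine Finset.sum_congr rfl (fun i _ => Finset.prod_congr rfl (fun j hj => ?_))
      rw [hXY j (Finset.mem_compl.mp hj)]
    · show gg true {0, 2}ᶜ X = gg true {0, 2}ᶜ Y
      unfold gg
      refine Finset.sum_congr rfl (fun i _ => Finset.prod_congr rfl (fun j hj => ?_))
      rw [hXY j (Finset.mem_compl.mp hj)]
  · intro X
    rw [form_A0, Fin.sum_univ_two]
    rfl

/-- The partition rank statement on the index set `Bool × Fin k`. -/
theorem prank_main (F : Type*) [Field F] (d : ℕ) {k : ℕ} (hk : 2 ≤ k) {c : ℝ} (hc : c < 1) :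
    ∃ m : ℕ, 1 ≤ m ∧ c ^ m * (prank (tpow (idT : Tensor F (d + 4) (Bool × Fin k)) m) : ℝ) ≤
      (prank (tpow (A0 F d k) m) : ℝ) := by
  rcases le_or_gt c 0 with hc0 | hc0
  · refine ⟨1, le_refl _, ?_⟩
    rw [pow_one]
    have h1 : (0 : ℝ) ≤ (prank (tpow (idT : Tensor F (d + 4) (Bool × Fin k)) 1) : ℝ) :=
      Nat.cast_nonneg _
    have h2 : (0 : ℝ) ≤ (prank (tpow (A0 F d k) 1) : ℝ) := Nat.cast_nonneg _
    nlinarith
  · obtain ⟨h, hh, Γ, hΓ, xx, aa, p1, p2, p3, p4⟩ := exists_count hc0 hc hk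
    refine ⟨2 * h, by omega, ?_⟩
    rw [tpow_idT, prank_idT]
    obtain ⟨φ, hφ⟩ := exists_restrict (F := F) d xx aa p1 p2 p3
    have h5 := card_le_prank (d := d + 2) φ hφ
    have h6 : (Fintype.card (Fin (2 * h) → Bool × Fin k) : ℝ) = (2 * (k : ℝ)) ^ (2 * h) := by
      rw [Fintype.card_fun, Fintype.card_prod, Fintype.card_bool, Fintype.card_fin,
        Fintype.card_fin]
      push_cast; rfl
    rw [h6]
    refine p4.trans ?_
    exact_mod_cast h5

end Pool.Agent.H277R2.Tens
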