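import Mathlib
import Pool.Agent.H277R2.Tens5

set_option autoImplicit false

namespace Pool.Agent.H277R2.Tens

open Finset

theorem lens_sum {W Y M : Type*} [Fintype W] [Fintype Y] [AddCommMonoid M] (get : W → Y)
    (upd : W → Y → W) (h1 : ∀ w y, get (upd w y) = y) (h2 : ∀ w y z, upd (upd w y) z = upd w z)
    (h3 : ∀ w, upd w (get w) = w) (F : W → M) :
    ∑ w, ∑ y, F (upd w y) = Fintype.card Y • ∑ w, F w := by
  let e : W × Y ≃ W × Y :=
    { toFun := fun q => (upd q.1 q.2, get q.1)
      invFun := fun q => (upd q.1 q.2, get q.1)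
      left_inv := by
        rintro ⟨w, y⟩
        simp only [h2, h3, h1]
      right_inv := by
        rintro ⟨w, y⟩
        simp only [h2, h3, h1] }
  rw [← Fintype.sum_prod_type' (fun w y => F (upd w y))]
  have : ∑ q : W × Y, F (upd q.1 q.2) = ∑ q : W × Y, F q.1 :=
    Fintype.sum_equiv e _ _ (fun q => rfl)
  rw [this, Fintype.sum_prod_type, Finset.smul_sum]
  refine Finset.sum_congr rfl (fun w _ => ?_)
  simp

section bias

variable {p : ℕ} [Fact p.Prime]

theorem char_sum {α : Type*} (s : Finset α) (f : α → ZMod p) :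
    (ZMod.stdAddChar (∑ i ∈ s, f i) : ℂ) = ∏ i ∈ s, (ZMod.stdAddChar (f i) : ℂ) := by
  classical
  induction s using Finset.induction_on with
  | empty => simp
  | insert a s ha ih => rw [Finset.sum_insert ha, Finset.prod_insert ha, AddChar.map_add_eq_mul, ih]

theorem sum_char_linear {ι : Type*} [Fintype ι] [DecidableEq ι] (l : ι → ZMod p) :
    ∑ Y : ι → ZMod p, (ZMod.stdAddChar (∑ i, Y i * l i) : ℂ) =
      if ∀ i, l i = 0 then (Fintype.card (ι → ZMod p) : ℂ) else 0 := by
  classical
  have h1 : ∀ Y : ι → ZMod p, (ZMod.stdAddChar (∑ i, Y i * l i) : ℂ) =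
      ∏ i, (ZMod.stdAddChar (Y i * l i) : ℂ) := by
    intro Y
    rw [char_sum]
  simp only [h1]
  have h2 : ∑ Y : ι → ZMod p, ∏ i, (ZMod.stdAddChar (Y i * l i) : ℂ) =
      ∏ i, ∑ y : ZMod p, (ZMod.stdAddChar (y * l i) : ℂ) := by
    rw [Finset.prod_univ_sum, Fintype.piFinset_univ]
  rw [h2]
  have h3 : ∀ i, ∑ y : ZMod p, (ZMod.stdAddChar (y * l i) : ℂ) = if l i = 0 then (p : ℂ) else 0 := by
    intro i
    rw [AddChar.sum_mulShift (l i) (ZMod.isPrimitive_stdAddChar p), ZMod.card]
    split_ifs <;> simp
  simp only [h3]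
  by_cases h : ∀ i, l i = 0
  · rw [if_pos h]
    simp only [h, if_true, Finset.prod_const, Finset.card_univ, Fintype.card_fun, ZMod.card]
    push_cast; rfl
  · rw [if_neg h]
    push Not at h
    obtain ⟨i, hi⟩ := h
    exact Finset.prod_eq_zero (Finset.mem_univ i) (by rw [if_neg hi])

/-- restrict variables to coordinates in `U` -/
def mask {d : ℕ} {ι : Type*} [DecidableEq ι] (U : Fin d → Finset ι) (X : Fin d → ι → ZMod p) :
    Fin d → ι → ZMod p := fun j i => if i ∈ U j then X j i else 0

noncomputable def Phi {d : ℕ} {ι : Type*} [Fintype ι] [DecidableEq ι] (A : Tensor (ZMod p) d ι)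
    (U : Fin d → Finset ι) : ℂ := ∑ X : Fin d → ι → ZMod p, ZMod.stdAddChar (form A (mask U X))

theorem mask_update {d : ℕ} {ι : Type*} [DecidableEq ι] (U : Fin d → Finset ι)
    (X : Fin d → ι → ZMod p) (j : Fin d) (Y : ι → ZMod p) :
    mask U (Function.update X j Y) =
      Function.update (mask U X) j (fun i => if i ∈ U j then Y i else 0) := by
  funext j' i
  by_cases h : j' = j
  · subst h; simp [mask]
  · simp [mask, Function.update_of_ne h]

open Classical in
theorem Phi_eq {d : ℕ} {ι : Type*} [Fintype ι] [DecidableEq ι] (A : Tensor (ZMod p) d ι)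
    (U : Fin d → Finset ι) (j : Fin d) :
    Phi A U = ∑ X : Fin d → ι → ZMod p,
      (if ∀ i ∈ U j, form A (Function.update (mask U X) j (Pi.single i 1)) = 0 then (1 : ℂ)
        else 0) := by
  have hcard : (Fintype.card (ι → ZMod p) : ℂ) ≠ 0 := by
    exact_mod_cast Fintype.card_ne_zero
  apply mul_left_cancel₀ hcard
  have h1 := lens_sum (W := Fin d → ι → ZMod p) (Y := ι → ZMod p) (fun X => X j)
    (fun X Y => Function.update X j Y) (by simp) (by simp) (by simp)
    (fun X => (ZMod.stdAddChar (form A (mask U X)) : ℂ))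
  rw [nsmul_eq_mul] at h1
  unfold Phi
  rw [← h1, Finset.mul_sum]
  refine Finset.sum_congr rfl (fun X _ => ?_)
  have h2 : ∀ Y : ι → ZMod p, form A (mask U (Function.update X j Y)) =
      ∑ i, Y i * (if i ∈ U j then form A (Function.update (mask U X) j (Pi.single i 1)) else 0) := by
    intro Y
    rw [mask_update, form_update_sum]
    refine Finset.sum_congr rfl (fun i _ => ?_)
    by_cases h : i ∈ U j <;> simp [h]
  simp only [h2]
  rw [sum_char_linear]
  have h3 : (∀ i, (if i ∈ U j then form A (Function.update (mask U X) j (Pi.single i 1)) else 0) = 0)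
      ↔ (∀ i ∈ U j, form A (Function.update (mask U X) j (Pi.single i 1)) = 0) := by
    constructor
    · intro h i hi
      have := h i
      rwa [if_pos hi] at this
    · intro h i
      by_cases hi : i ∈ U j
      · rw [if_pos hi]; exact h i hi
      · rw [if_neg hi]
  by_cases h : ∀ i ∈ U j, form A (Function.update (mask U X) j (Pi.single i 1)) = 0
  · rw [if_pos (h3.mpr h), if_pos h, mul_one]
  · rw [if_neg (fun hc => h (h3.mp hc)), if_neg h, mul_zero]

theorem Phi_mono {d : ℕ} {ι : Type*} [Fintype ι] [DecidableEq ι] (A : Tensor (ZMod p) d ι)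
    (U : Fin d → Finset ι) (j : Fin d) (T : Finset ι) (hT : T ⊆ U j) :
    (Phi A U).re ≤ (Phi A (Function.update U j T)).re := by
  classical
  rw [Phi_eq A U j, Phi_eq A (Function.update U j T) j, Complex.re_sum, Complex.re_sum]
  refine Finset.sum_le_sum (fun X _ => ?_)
  have hm : ∀ i, Function.update (mask (Function.update U j T) X) j (Pi.single i 1) =
      Function.update (mask U X) j (Pi.single i (1 : ZMod p)) := by
    intro i
    funext j'
    by_cases h : j' = j
    · subst h; simp
    · rw [Function.update_of_ne h, Function.update_of_ne h]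
      funext i'
      simp [mask, Function.update_of_ne h]
  simp only [hm, Function.update_self]
  by_cases h : ∀ i ∈ U j, form A (Function.update (mask U X) j (Pi.single i 1)) = 0
  · rw [if_pos h, if_pos (fun i hi => h i (hT hi))]
  · rw [if_neg h]
    split_ifs <;> simp

theorem Phi_univ {d : ℕ} {ι : Type*} [Fintype ι] [DecidableEq ι] (A : Tensor (ZMod p) d ι) :
    Phi A (fun _ => Finset.univ) = ∑ X : Fin d → ι → ZMod p, ZMod.stdAddChar (form A X) := by
  unfold Phi
  refine Finset.sum_congr rfl (fun X _ => ?_)
  congr 2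
  funext j i
  simp [mask]

theorem Phi_mono_all {d : ℕ} {ι : Type*} [Fintype ι] [DecidableEq ι] (A : Tensor (ZMod p) d ι)
    (U : Fin d → Finset ι) : (Phi A (fun _ => Finset.univ)).re ≤ (Phi A U).re := by
  classical
  have key : ∀ T : Finset (Fin d), (Phi A (fun _ => Finset.univ)).re ≤
      (Phi A (fun j => if j ∈ T then U j else Finset.univ)).re := by
    intro T
    induction T using Finset.induction_on with
    | empty => simp
    | insert j T hj ih =>
      refine ih.trans ?_
      have h := Phi_mono A (fun j => if j ∈ T then U j else Finset.univ) j (U j) (by simp [hj])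
      refine h.trans (le_of_eq ?_)
      congr 2
      funext j'
      by_cases h' : j' = j
      · subst h'; simp
      · rw [Function.update_of_ne h']; simp [h']
  have := key Finset.univ
  simpa using this

/-- The bias does not decrease under restriction of the index sets. -/
theorem bias_le_restrict {d : ℕ} {ι κ : Type*} [Fintype ι] [DecidableEq ι] [Fintype κ]
    [DecidableEq κ] (A : Tensor (ZMod p) d ι) (φ : Fin d → κ → ι)
    (hφ : ∀ j, Function.Injective (φ j)) :
    bias A ≤ bias (fun I : Fin d → κ => A (fun j => φ j (I j))) := by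
  classical
  set B : Tensor (ZMod p) d κ := fun I : Fin d → κ => A (fun j => φ j (I j)) with hB
  let U : Fin d → Finset ι := fun j => Finset.univ.image (φ j)
  have h1 := Phi_mono_all A U
  -- the masked form
  have hform : ∀ X : Fin d → ι → ZMod p, form A (mask U X) = form B (fun j a => X j (φ j a)) := by
    intro X
    unfold form
    symm
    refine Finset.sum_of_injOn (fun I : Fin d → κ => fun j => φ j (I j)) ?_ ?_ ?_ ?_
    · intro I _ J _ h
      funext j
      exact hφ j (congrFun h j)
    · intro I _; simp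
    · intro I _ hI
      have : ∃ j, I j ∉ U j := by
        by_contra hc
        push Not at hc
        apply hI
        have h2 : ∀ j, ∃ a, φ j a = I j := by
          intro j
          have := hc j
          simpa [U] using this
        choose J hJ using h2
        exact ⟨J, by simp, funext hJ⟩
      obtain ⟨j, hj⟩ := this
      rw [Finset.prod_eq_zero (Finset.mem_univ j), mul_zero]
      simp [mask, hj]
    · intro I _
      rw [hB]
      congr 1
      refine Finset.prod_congr rfl (fun j _ => ?_)
      simp [mask, U]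
  have h2 := lens_sum (W := Fin d → ι → ZMod p) (Y := Fin d → κ → ZMod p)
    (fun X j a => X j (φ j a)) (fun X Y j => Function.extend (φ j) (Y j) (X j))
    (by
      intro w y
      funext j a
      exact (hφ j).extend_apply _ _ _)
    (by
      intro w y z
      funext j i
      by_cases h : ∃ a, φ j a = i
      · obtain ⟨a, rfl⟩ := h
        rw [(hφ j).extend_apply, (hφ j).extend_apply]
      · simp only [Function.extend_apply' _ _ _ h])
    (by
      intro w
      funext j i
      by_cases h : ∃ a, φ j a = i
      · obtain ⟨a, rfl⟩ := h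
        rw [(hφ j).extend_apply]
      · rw [Function.extend_apply' _ _ _ h])
    (fun X => (ZMod.stdAddChar (form B (fun j a => X j (φ j a))) : ℂ))
  have h3 : ∀ (w : Fin d → ι → ZMod p) (y : Fin d → κ → ZMod p),
      (fun j a => Function.extend (φ j) (y j) (w j) (φ j a)) = y := by
    intro w y
    funext j a
    exact (hφ j).extend_apply _ _ _
  simp only [h3] at h2
  rw [Finset.sum_const, nsmul_eq_mul, nsmul_eq_mul, Finset.card_univ] at h2
  have h4 : Phi A U = ∑ X : Fin d → ι → ZMod p,
      (ZMod.stdAddChar (form B (fun j a => X j (φ j a))) : ℂ) := by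
    unfold Phi
    refine Finset.sum_congr rfl (fun X _ => ?_)
    rw [hform]
  rw [← h4] at h2
  have c1 : (Fintype.card (Fin d → ι → ZMod p) : ℂ) ≠ 0 := by
    exact_mod_cast Fintype.card_ne_zero
  have c2 : (Fintype.card (Fin d → κ → ZMod p) : ℂ) ≠ 0 := by
    exact_mod_cast Fintype.card_ne_zero
  have h5 : (∑ X : Fin d → κ → ZMod p, (ZMod.stdAddChar (form B X) : ℂ)) /
      (Fintype.card (Fin d → κ → ZMod p) : ℂ) =
      Phi A U / (Fintype.card (Fin d → ι → ZMod p) : ℂ) := by
    rw [div_eq_div_iff c2 c1, mul_comm, h2, mul_comm]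
  unfold bias
  rw [h5, ← Phi_univ]
  have hpos : (0 : ℝ) < (Fintype.card (Fin d → ι → ZMod p) : ℝ) := by
    exact_mod_cast Fintype.card_pos
  have e1 : ∀ z : ℂ, (z / (Fintype.card (Fin d → ι → ZMod p) : ℂ)).re =
      z.re / (Fintype.card (Fin d → ι → ZMod p) : ℝ) := by
    intro z
    have : (Fintype.card (Fin d → ι → ZMod p) : ℂ) =
        ((Fintype.card (Fin d → ι → ZMod p) : ℝ) : ℂ) := by push_cast; rfl
    rw [this, Complex.div_ofReal_re]
  rw [e1, e1]
  exact div_le_div_of_nonneg_right h1 hpos.le

end bias

end Pool.Agent.H277R2.Tens
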