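import Mathlib
import Pool.Agent.H277R2.Tens6

set_option autoImplicit false

namespace Pool.Agent.H277R2.Tens

open Finset

section bias

variable {p : ℕ} [Fact p.Prime]

theorem form_idT {F : Type*} [Field F] {d : ℕ} {κ : Type*} [Fintype κ]
    (X : Fin (d + 1) → κ → F) : form (idT : Tensor F (d + 1) κ) X = ∑ a, ∏ j, X j a := by
  classical
  unfold form
  symm
  refine Finset.sum_of_injOn (fun a : κ => fun _ => a) ?_ ?_ ?_ ?_
  · intro a _ b _ h
    exact congrFun h 0
  · intro a _; simp
  · intro I _ hI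
    have : ¬ ∀ j k, I j = I k := by
      intro hc
      apply hI
      refine ⟨I 0, by simp, ?_⟩
      funext j
      exact hc 0 j
    simp [idT, this]
  · intro a _
    simp [idT]

open Classical in
/-- number of `y ∈ F_p^{d}` with vanishing product of coordinates -/
noncomputable def Zc (p d : ℕ) [Fact p.Prime] : ℕ :=
  (Finset.univ.filter (fun y : Fin d → ZMod p => ∏ j, y j = 0)).card

theorem Zc_pos (d : ℕ) : 0 < Zc p (d + 1) := by
  classical
  unfold Zc
  rw [Finset.card_pos]
  exact ⟨0, by simp⟩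

theorem Zc_lt (d : ℕ) : Zc p (d + 1) < p ^ (d + 1) := by
  classical
  have h1 : (Finset.univ.filter (fun y : Fin (d + 1) → ZMod p => ∏ j, y j = 0)) ⊂ Finset.univ := by
    rw [Finset.ssubset_univ_iff]
    intro h
    have : (fun _ => 1 : Fin (d + 1) → ZMod p) ∈
        (Finset.univ.filter (fun y : Fin (d + 1) → ZMod p => ∏ j, y j = 0)) := by
      rw [h]; exact Finset.mem_univ _
    simp at this
  have h2 := Finset.card_lt_card h1
  simpa [Zc] using h2

theorem sum_char_prod (d : ℕ) :
    ∑ x : Fin (d + 1) → ZMod p, (ZMod.stdAddChar (∏ j, x j) : ℂ) = (p : ℂ) * (Zc p d : ℂ) := by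
  classical
  rw [← (Fin.consEquiv (fun _ : Fin (d + 1) => ZMod p)).sum_comp, Fintype.sum_prod_type,
    Finset.sum_comm]
  have h1 : ∀ y : Fin d → ZMod p, ∑ a : ZMod p,
      (ZMod.stdAddChar (∏ j, (Fin.consEquiv (fun _ : Fin (d + 1) => ZMod p)) (a, y) j) : ℂ) =
      if ∏ j, y j = 0 then (p : ℂ) else 0 := by
    intro y
    have : ∀ a : ZMod p, ∏ j, (Fin.consEquiv (fun _ : Fin (d + 1) => ZMod p)) (a, y) j =
        a * ∏ j, y j := by
      intro a
      rw [Fin.prod_univ_succ]
      rfl
    simp only [this]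
    rw [AddChar.sum_mulShift _ (ZMod.isPrimitive_stdAddChar p), ZMod.card]
    split_ifs <;> simp
  calc _ = ∑ y : Fin d → ZMod p, (if ∏ j, y j = 0 then (p : ℂ) else 0) :=
        Finset.sum_congr rfl (fun y _ => h1 y)
    _ = _ := by
        rw [← Finset.sum_filter, Finset.sum_const, nsmul_eq_mul, Zc, mul_comm]

theorem bias_idT (d : ℕ) {κ : Type*} [Fintype κ] [DecidableEq κ] :
    bias (idT : Tensor (ZMod p) (d + 1) κ) = ((Zc p d : ℝ) / (p : ℝ) ^ d) ^ Fintype.card κ := by
  classical
  have hp : (p : ℝ) ≠ 0 := by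
    have := (Fact.out : p.Prime).pos
    positivity
  have hsum : ∑ X : Fin (d + 1) → κ → ZMod p,
      (ZMod.stdAddChar (form (idT : Tensor (ZMod p) (d + 1) κ) X) : ℂ) =
      ((p : ℂ) * (Zc p d : ℂ)) ^ Fintype.card κ := by
    have h1 : ∀ X : Fin (d + 1) → κ → ZMod p,
        (ZMod.stdAddChar (form (idT : Tensor (ZMod p) (d + 1) κ) X) : ℂ) =
        ∏ a, (ZMod.stdAddChar (∏ j, X j a) : ℂ) := by
      intro X
      rw [form_idT, char_sum]
    simp only [h1]
    rw [← (Equiv.piComm (fun (_ : κ) (_ : Fin (d + 1)) => ZMod p)).sum_comp]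
    have h2 : ∀ X : κ → Fin (d + 1) → ZMod p,
        ∏ a, (ZMod.stdAddChar (∏ j, (Equiv.piComm (fun (_ : κ) (_ : Fin (d + 1)) => ZMod p)) X j a) : ℂ)
        = ∏ a, (ZMod.stdAddChar (∏ j, X a j) : ℂ) := fun X => rfl
    simp only [h2]
    have h3 : ∑ X : κ → Fin (d + 1) → ZMod p, ∏ a, (ZMod.stdAddChar (∏ j, X a j) : ℂ) =
        ∏ _a : κ, ∑ x : Fin (d + 1) → ZMod p, (ZMod.stdAddChar (∏ j, x j) : ℂ) := by
      rw [Finset.prod_univ_sum, Fintype.piFinset_univ]
    rw [h3, Finset.prod_const, Finset.card_univ, sum_char_prod]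
  unfold bias
  rw [hsum]
  have hcard : (Fintype.card (Fin (d + 1) → κ → ZMod p) : ℂ) =
      (((p : ℝ) ^ (d + 1)) ^ Fintype.card κ : ℝ) := by
    rw [Fintype.card_fun, Fintype.card_fun, ZMod.card, Fintype.card_fin]
    push_cast
    rw [← pow_mul, ← pow_mul, mul_comm]
  have hnum : ((p : ℂ) * (Zc p d : ℂ)) ^ Fintype.card κ =
      ((((p : ℝ) * (Zc p d : ℝ)) ^ Fintype.card κ : ℝ) : ℂ) := by push_cast; rfl
  rw [hcard, hnum, ← Complex.ofReal_div, Complex.ofReal_re, ← div_pow]
  congr 1
  rw [pow_succ]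
  field_simp

/-- the analytic rank of the one-dimensional identity tensor -/
noncomputable def alpha (p d : ℕ) [Fact p.Prime] : ℝ := - Real.logb p ((Zc p d : ℝ) / (p : ℝ) ^ d)

theorem ratio_pos (d : ℕ) : 0 < (Zc p (d + 1) : ℝ) / (p : ℝ) ^ (d + 1) := by
  have h1 : (0 : ℝ) < (Zc p (d + 1) : ℝ) := by exact_mod_cast Zc_pos d
  have h2 : (0 : ℝ) < p := by exact_mod_cast (Fact.out : p.Prime).pos
  positivity

theorem ratio_lt (d : ℕ) : (Zc p (d + 1) : ℝ) / (p : ℝ) ^ (d + 1) < 1 := by
  have h2 : (0 : ℝ) < p := by exact_mod_cast (Fact.out : p.Prime).pos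
  rw [div_lt_one (by positivity)]
  exact_mod_cast Zc_lt d

theorem one_lt_p : (1 : ℝ) < p := by exact_mod_cast (Fact.out : p.Prime).one_lt

theorem alpha_pos (d : ℕ) : 0 < alpha p (d + 1) := by
  unfold alpha
  have := Real.logb_neg (one_lt_p (p := p)) (ratio_pos (p := p) d) (ratio_lt d)
  linarith

theorem arank_idT (d : ℕ) {κ : Type*} [Fintype κ] [DecidableEq κ] :
    arank (idT : Tensor (ZMod p) (d + 1) κ) = Fintype.card κ * alpha p d := by
  unfold arank alpha
  rw [bias_idT, Real.logb_pow]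
  ring

/-- Bias as a count of zeros. -/
theorem bias_eq_count {d : ℕ} {ι : Type*} [Fintype ι] [DecidableEq ι] (A : Tensor (ZMod p) d ι)
    (j : Fin d) [DecidablePred (fun X : Fin d → ι → ZMod p =>
      ∀ i, form A (Function.update X j (Pi.single i 1)) = 0)] :
    bias A = ((Finset.univ.filter (fun X : Fin d → ι → ZMod p =>
      ∀ i, form A (Function.update X j (Pi.single i 1)) = 0)).card : ℝ) /
      (Fintype.card (Fin d → ι → ZMod p) : ℝ) := by
  classical
  unfold bias
  rw [← Phi_univ, Phi_eq A _ j]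
  have hm : ∀ X : Fin d → ι → ZMod p, mask (fun _ => Finset.univ) X = X := by
    intro X
    funext j i
    simp [mask]
  simp only [hm, Finset.mem_univ, forall_true_left]
  rw [← Finset.sum_filter, Finset.sum_const, nsmul_eq_mul, mul_one]
  have e : (Fintype.card (Fin d → ι → ZMod p) : ℂ) =
        ((Fintype.card (Fin d → ι → ZMod p) : ℝ) : ℂ) := by push_cast; rfl
  rw [e, Complex.div_ofReal_re, Complex.natCast_re]

theorem bias_nonneg {d : ℕ} {ι : Type*} [Fintype ι] [DecidableEq ι]
    (A : Tensor (ZMod p) (d + 1) ι) : 0 ≤ bias A := by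
  classical
  rw [bias_eq_count A 0]
  positivity

theorem bias_pos {d : ℕ} {ι : Type*} [Fintype ι] [DecidableEq ι]
    (A : Tensor (ZMod p) (d + 2) ι) : 0 < bias A := by
  classical
  rw [bias_eq_count A 0]
  apply div_pos
  · have : 0 < (Finset.univ.filter (fun X : Fin (d + 2) → ι → ZMod p =>
      ∀ i, form A (Function.update X 0 (Pi.single i 1)) = 0)).card := by
      rw [Finset.card_pos]
      refine ⟨0, ?_⟩
      simp only [Finset.mem_filter, Finset.mem_univ, true_and]
      intro i
      unfold form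
      apply Finset.sum_eq_zero
      intro I _
      rw [Finset.prod_eq_zero (Finset.mem_univ (1 : Fin (d + 2)))]
      · simp
      · rw [Function.update_of_ne (by simp)]
        rfl
    exact_mod_cast this
  · exact_mod_cast Fintype.card_pos

theorem bias_le_one {d : ℕ} {ι : Type*} [Fintype ι] [DecidableEq ι]
    (A : Tensor (ZMod p) (d + 1) ι) : bias A ≤ 1 := by
  classical
  rw [bias_eq_count A 0]
  have hpos : (0 : ℝ) < (Fintype.card (Fin (d + 1) → ι → ZMod p) : ℝ) := by
    exact_mod_cast Fintype.card_pos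
  rw [div_le_one hpos]
  exact_mod_cast Finset.card_le_univ _

theorem arank_nonneg {d : ℕ} {ι : Type*} [Fintype ι] [DecidableEq ι]
    (A : Tensor (ZMod p) (d + 1) ι) : 0 ≤ arank A := by
  unfold arank
  have := Real.logb_nonpos (one_lt_p (p := p)) (bias_nonneg A) (bias_le_one A)
  linarith

/-- lower bound for the analytic rank from a diagonal restriction -/
theorem arank_ge {d : ℕ} {ι κ : Type*} [Fintype ι] [DecidableEq ι] [Fintype κ] [DecidableEq κ]
    {B : Tensor (ZMod p) (d + 2) ι} (φ : Fin (d + 2) → κ → ι) (hφ : ∀ j, Function.Injective (φ j))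
    (hB : ∀ I : Fin (d + 2) → κ, B (fun j => φ j (I j)) = idT I) :
    Fintype.card κ * alpha p (d + 1) ≤ arank B := by
  have h1 := bias_le_restrict B φ hφ
  have h2 : (fun I : Fin (d + 2) → κ => B (fun j => φ j (I j))) = idT := funext hB
  rw [h2] at h1
  rw [← arank_idT (d + 1) (κ := κ)]
  unfold arank
  have := Real.logb_le_logb_of_le (one_lt_p (p := p)) (bias_pos B) h1
  linarith

/-- a diagonal restriction is automatically given by injective maps -/
theorem inj_of_diag {F : Type*} [Field F] {d : ℕ} {ι κ : Type*}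
    {B : Tensor F (d + 2) ι} (φ : Fin (d + 2) → κ → ι)
    (hB : ∀ I : Fin (d + 2) → κ, B (fun j => φ j (I j)) = idT I) (j : Fin (d + 2)) :
    Function.Injective (φ j) := by
  classical
  intro a b hab
  by_contra hne
  have h1 := hB (fun _ => a)
  have h2 := hB (Function.update (fun _ => a) j b)
  have h3 : (fun j' => φ j' (Function.update (fun _ => a) j b j')) = (fun j' => φ j' a) := by
    funext j'
    by_cases h : j' = j
    · subst h; simp [hab]
    · rw [Function.update_of_ne h]
  rw [h3, h1] at h2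
  have h4 : (idT (fun _ => a : Fin (d + 2) → κ) : F) = 1 := by simp [idT]
  have h5 : (idT (Function.update (fun _ => a) j b : Fin (d + 2) → κ) : F) = 0 := by
    unfold idT
    rw [if_neg]
    intro hc
    obtain ⟨j', hj'⟩ := exists_ne j
    have := hc j j'
    rw [Function.update_self, Function.update_of_ne hj'] at this
    exact hne this.symm
  rw [h4, h5] at h2
  exact one_ne_zero h2

end bias

end Pool.Agent.H277R2.Tens
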