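import Mathlib
import Pool.Agent.H277R2.Tens7

set_option autoImplicit false

namespace Pool.Agent.H277R2.Tens

open Finset

section bias

variable {p : ℕ} [Fact p.Prime]

theorem card_kernel {κ : Type*} [Fintype κ] [DecidableEq κ] (c : κ → ZMod p) :
    Fintype.card (κ → ZMod p) ≤
      p * (Finset.univ.filter (fun y : κ → ZMod p => ∑ i, y i * c i = 0)).card := by
  classical
  have h1 := Finset.card_eq_sum_card_fiberwise (s := (Finset.univ : Finset (κ → ZMod p)))
    (t := (Finset.univ : Finset (ZMod p))) (f := fun y => ∑ i, y i * c i)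
    (fun _ _ => Finset.mem_coe.mpr (Finset.mem_univ _))
  rw [Finset.card_univ] at h1
  rw [h1]
  have h2 : ∀ v ∈ (Finset.univ : Finset (ZMod p)),
      (Finset.univ.filter (fun y : κ → ZMod p => ∑ i, y i * c i = v)).card ≤
      (Finset.univ.filter (fun y : κ → ZMod p => ∑ i, y i * c i = 0)).card := by
    intro v _
    rcases Finset.eq_empty_or_nonempty
      (Finset.univ.filter (fun y : κ → ZMod p => ∑ i, y i * c i = v)) with he | ⟨y0, hy0⟩
    · rw [he]; simp
    · simp only [Finset.mem_filter, Finset.mem_univ, true_and] at hy0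
      refine Finset.card_le_card_of_injOn (fun y => y - y0) ?_ ?_
      · intro y hy
        simp only [Finset.coe_filter, Finset.mem_univ, true_and, Set.mem_ofPred_eq] at hy ⊢
        simp only [Pi.sub_apply, sub_mul, Finset.sum_sub_distrib, hy, hy0, sub_self]
      · intro y _ y' _ h
        exact sub_left_injective h
  refine (Finset.sum_le_sum h2).trans ?_
  rw [Finset.sum_const, Finset.card_univ, ZMod.card, smul_eq_mul]

theorem gg_congr {F : Type*} [Field F] {d k : ℕ} (b : Bool) (S : Finset (Fin (d + 4)))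
    (X X' : Fin (d + 4) → Bool × Fin k → F) (h : ∀ j ∈ S, ∀ i, X j (b, i) = X' j (b, i)) :
    gg b S X = gg b S X' := by
  unfold gg
  exact Finset.sum_congr rfl (fun i _ => Finset.prod_congr rfl (fun j hj => h j hj i))

theorem bias_A0 (d k : ℕ) : 1 / (p : ℝ) ^ 2 ≤ bias (A0 (ZMod p) d k) := by
  classical
  obtain ⟨h01, h02, h03, h12, h13, h23⟩ := fin_facts d
  set W := Fin (d + 4) → Bool × Fin k → ZMod p with hW
  let Zs : Finset W := Finset.univ.filter
    (fun X : W => gg false {0, 1}ᶜ X = 0 ∧ gg true {0, 2}ᶜ X = 0)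
  have hsub : Zs ⊆ (Finset.univ.filter (fun X : W =>
      ∀ i, form (A0 (ZMod p) d k) (Function.update X 0 (Pi.single i 1)) = 0)) := by
    intro X hX
    simp only [Zs, Finset.mem_filter, Finset.mem_univ, true_and] at hX ⊢
    intro i
    rw [form_A0, gg_congr false {0, 1}ᶜ _ X, gg_congr true {0, 2}ᶜ _ X, hX.1, hX.2]
    · ring
    · intro j hj i'
      rw [Function.update_of_ne]
      rintro rfl
      simp at hj
    · intro j hj i'
      rw [Function.update_of_ne]
      rintro rfl
      simp at hj
  -- count the zeros of the two factors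
  have hlens := lens_sum (W := W) (Y := (Fin k → ZMod p) × (Fin k → ZMod p))
    (fun X => (fun i => X 2 (false, i), fun i => X 1 (true, i)))
    (fun X y j c => if j = 2 ∧ c.1 = false then y.1 c.2 else if j = 1 ∧ c.1 = true then y.2 c.2
      else X j c)
    (by
      intro w y
      refine Prod.ext ?_ ?_
      · funext i; simp
      · funext i; simp [h12])
    (by
      intro w y z
      funext j c
      by_cases h1 : j = 2 ∧ c.1 = false
      · simp [h1]
      · by_cases h2 : j = 1 ∧ c.1 = true
        · simp [h2, h12]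
        · simp only [h1, h2, if_false])
    (by
      intro w
      funext j c
      obtain ⟨b, i⟩ := c
      by_cases h1 : j = 2 ∧ b = false
      · obtain ⟨rfl, rfl⟩ := h1; simp
      · by_cases h2 : j = 1 ∧ b = true
        · obtain ⟨rfl, rfl⟩ := h2; simp [h12]
        · simp only [h1, h2, if_false])
    (fun X : W => if X ∈ Zs then 1 else 0)
  have hinner : ∀ X : W, Fintype.card ((Fin k → ZMod p) × (Fin k → ZMod p)) ≤ p * p *
      ∑ y : (Fin k → ZMod p) × (Fin k → ZMod p),
        (if (fun j c => if j = 2 ∧ c.1 = false then y.1 c.2 else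
          if j = 1 ∧ c.1 = true then y.2 c.2 else X j c : W) ∈ Zs then 1 else 0) := by
    intro X
    let c : Fin k → ZMod p := fun i => ∏ j ∈ ({0, 1, 2} : Finset (Fin (d + 4)))ᶜ, X j (false, i)
    let e : Fin k → ZMod p := fun i => ∏ j ∈ ({0, 1, 2} : Finset (Fin (d + 4)))ᶜ, X j (true, i)
    have hz : ∀ y : (Fin k → ZMod p) × (Fin k → ZMod p),
        ((fun j c => if j = 2 ∧ c.1 = false then y.1 c.2 else
          if j = 1 ∧ c.1 = true then y.2 c.2 else X j c : W) ∈ Zs) ↔
        (∑ i, y.1 i * c i = 0 ∧ ∑ i, y.2 i * e i = 0) := by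
      intro y
      simp only [Zs, Finset.mem_filter, Finset.mem_univ, true_and]
      have hs1 : ({0, 1} : Finset (Fin (d + 4)))ᶜ = insert 2 ({0, 1, 2} : Finset (Fin (d + 4)))ᶜ := by
        ext j
        simp only [Finset.mem_compl, Finset.mem_insert, Finset.mem_singleton]
        constructor
        · intro h
          by_cases h2 : j = 2
          · exact Or.inl h2
          · right; push Not at h ⊢; exact ⟨h.1, h.2, h2⟩
        · rintro (rfl | h)
          · push Not; exact ⟨h02.symm, h12.symm⟩
          · push Not at h ⊢; exact ⟨h.1, h.2.1⟩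
      have hs2 : ({0, 2} : Finset (Fin (d + 4)))ᶜ = insert 1 ({0, 1, 2} : Finset (Fin (d + 4)))ᶜ := by
        ext j
        simp only [Finset.mem_compl, Finset.mem_insert, Finset.mem_singleton]
        constructor
        · intro h
          by_cases h2 : j = 1
          · exact Or.inl h2
          · right; push Not at h ⊢; exact ⟨h.1, h2, h.2⟩
        · rintro (rfl | h)
          · push Not; exact ⟨h01.symm, h12⟩
          · push Not at h ⊢; exact ⟨h.1, h.2.2⟩
      have e1 : gg false {0, 1}ᶜ (fun j c => if j = 2 ∧ c.1 = false then y.1 c.2 else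
          if j = 1 ∧ c.1 = true then y.2 c.2 else X j c : W) = ∑ i, y.1 i * c i := by
        unfold gg
        refine Finset.sum_congr rfl (fun i _ => ?_)
        rw [hs1, Finset.prod_insert (by simp)]
        refine congrArg₂ (· * ·) ?_ ?_
        · simp
        · refine Finset.prod_congr rfl (fun j hj => ?_)
          have hj2 : j ≠ 2 := by rintro rfl; simp at hj
          simp [hj2]
      have e2 : gg true {0, 2}ᶜ (fun j c => if j = 2 ∧ c.1 = false then y.1 c.2 else
          if j = 1 ∧ c.1 = true then y.2 c.2 else X j c : W) = ∑ i, y.2 i * e i := by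
        unfold gg
        refine Finset.sum_congr rfl (fun i _ => ?_)
        rw [hs2, Finset.prod_insert (by simp)]
        refine congrArg₂ (· * ·) ?_ ?_
        · simp
        · refine Finset.prod_congr rfl (fun j hj => ?_)
          have hj2 : j ≠ 1 := by rintro rfl; simp at hj
          simp [hj2]
      rw [e1, e2]
    simp only [hz]
    rw [← Finset.sum_filter, Finset.sum_const, smul_eq_mul, mul_one]
    have hprod : (Finset.univ.filter (fun y : (Fin k → ZMod p) × (Fin k → ZMod p) =>
        ∑ i, y.1 i * c i = 0 ∧ ∑ i, y.2 i * e i = 0)) =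
        (Finset.univ.filter (fun y : Fin k → ZMod p => ∑ i, y i * c i = 0)) ×ˢ
        (Finset.univ.filter (fun y : Fin k → ZMod p => ∑ i, y i * e i = 0)) := by
      ext y
      simp [Finset.mem_product]
    rw [hprod, Finset.card_product, Fintype.card_prod]
    have k1 := card_kernel c
    have k2 := card_kernel e
    calc _ ≤ (p * (Finset.univ.filter (fun y : Fin k → ZMod p => ∑ i, y i * c i = 0)).card) *
          (p * (Finset.univ.filter (fun y : Fin k → ZMod p => ∑ i, y i * e i = 0)).card) :=
          Nat.mul_le_mul k1 k2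
      _ = _ := by ring
  have htot : Fintype.card W ≤ p * p * Zs.card := by
    have hY : 0 < Fintype.card ((Fin k → ZMod p) × (Fin k → ZMod p)) := Fintype.card_pos
    apply Nat.le_of_mul_le_mul_left _ hY
    have h1 : Fintype.card ((Fin k → ZMod p) × (Fin k → ZMod p)) * Fintype.card W =
        ∑ _X : W, Fintype.card ((Fin k → ZMod p) × (Fin k → ZMod p)) := by
      rw [Finset.sum_const, Finset.card_univ, smul_eq_mul, mul_comm]
    rw [h1]
    refine (Finset.sum_le_sum (fun X _ => hinner X)).trans ?_
    rw [← Finset.mul_sum, hlens, ← Finset.sum_filter, Finset.sum_const, smul_eq_mul,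
      smul_eq_mul, mul_one, Finset.filter_mem_eq_inter, Finset.univ_inter]
    apply le_of_eq; ring
  rw [bias_eq_count _ (0 : Fin (d + 4))]
  have hp : (0 : ℝ) < p := by exact_mod_cast (Fact.out : p.Prime).pos
  have hWpos : (0 : ℝ) < (Fintype.card W : ℝ) := by exact_mod_cast Fintype.card_pos
  rw [div_le_div_iff₀ (by positivity) hWpos, one_mul]
  have h2 : (Fintype.card W : ℝ) ≤ (p : ℝ) * p * (Zs.card : ℝ) := by exact_mod_cast htot
  have h3 := Finset.card_le_card hsub
  have h4 : (Zs.card : ℝ) ≤ ((Finset.univ.filter (fun X : W =>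
      ∀ i, form (A0 (ZMod p) d k) (Function.update X 0 (Pi.single i 1)) = 0)).card : ℝ) := by
    exact_mod_cast h3
  refine h2.trans ?_
  calc (p : ℝ) * p * (Zs.card : ℝ) ≤ (p : ℝ) * p * ((Finset.univ.filter (fun X : W =>
      ∀ i, form (A0 (ZMod p) d k) (Function.update X 0 (Pi.single i 1)) = 0)).card : ℝ) :=
        mul_le_mul_of_nonneg_left h4 (by positivity)
    _ = _ := by ring

theorem arank_A0_le (d k : ℕ) : arank (A0 (ZMod p) d k) ≤ 2 := by
  unfold arank
  have h1 := Real.logb_le_logb_of_le (one_lt_p (p := p))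
    (by
      have hp : (0 : ℝ) < p := by exact_mod_cast (Fact.out : p.Prime).pos
      positivity) (bias_A0 (p := p) d k)
  have h2 : Real.logb p (1 / (p : ℝ) ^ 2) = -2 := by
    rw [one_div, Real.logb_inv, Real.logb_pow, Real.logb_self_eq_one (one_lt_p (p := p))]
    norm_num
  linarith

/-- The analytic rank statement on the index set `Bool × Fin k`. -/
theorem arank_main (d : ℕ) {k : ℕ} (hk : 2 ≤ k) {c : ℝ} (hc : c < 1) :
    ∃ m : ℕ, 1 ≤ m ∧ c ^ m * arank (tpow (idT : Tensor (ZMod p) (d + 4) (Bool × Fin k)) m) ≤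
      arank (tpow (A0 (ZMod p) d k) m) := by
  classical
  rcases le_or_gt c 0 with hc0 | hc0
  · refine ⟨1, le_refl _, ?_⟩
    rw [pow_one]
    have h1 : 0 ≤ arank (tpow (idT : Tensor (ZMod p) (d + 4) (Bool × Fin k)) 1) :=
      arank_nonneg (d := d + 3) _
    have h2 : 0 ≤ arank (tpow (A0 (ZMod p) d k) 1) := arank_nonneg (d := d + 3) _
    nlinarith
  · obtain ⟨h, hh, Γ, hΓ, xx, aa, p1, p2, p3, p4⟩ := exists_count hc0 hc hk
    refine ⟨2 * h, by omega, ?_⟩
    rw [tpow_idT, arank_idT (d + 3)]
    obtain ⟨φ, hφ⟩ := exists_restrict (F := ZMod p) d xx aa p1 p2 p3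
    have h5 := arank_ge (d := d + 2) φ (inj_of_diag (d := d + 2) φ hφ) hφ
    have h6 : (Fintype.card (Fin (2 * h) → Bool × Fin k) : ℝ) = (2 * (k : ℝ)) ^ (2 * h) := by
      rw [Fintype.card_fun, Fintype.card_prod, Fintype.card_bool, Fintype.card_fin,
        Fintype.card_fin]
      push_cast; rfl
    rw [h6, ← mul_assoc]
    refine le_trans ?_ h5
    exact mul_le_mul_of_nonneg_right p4 (alpha_pos (d + 2)).le

end bias

end Pool.Agent.H277R2.Tens
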