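import Mathlib
import Pool.Agent.H423R2.ZH.Stubs

set_option autoImplicit false

open Finset Filter Topology

namespace Pool.Agent.H277R2.ZHG

theorem gle : Pool.Agent.H423R2.ZH.S_GLE := by
  intro N A hA hf
  unfold Ne40b1b74.g
  refine le_csSup ⟨(Icc 1 N).card, ?_⟩ ⟨A, hA, hf, rfl⟩
  rintro k ⟨B, hB, _, rfl⟩
  exact Finset.card_le_card hB

end Pool.Agent.H277R2.ZHG
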