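import Mathlib
import Pool.Agent.H423R2.ZH.Stubs

set_option autoImplicit false

open Finset Filter Topology

namespace Pool.Agent.H277R2.ZHL

theorem lit : Pool.Agent.H423R2.ZH.S_LIT := by
  intro G hG
  set h : ℕ → ℝ := fun N => if 0 < G N ∧ 2 ≤ N then max 0 (1 / 4 - Real.log (G N) / Real.log N) else 0
    with hh
  have h0 : ∀ N, 0 ≤ h N := by
    intro N
    simp only [hh]
    split_ifs
    · exact le_max_left _ _
    · exact le_refl _
  have hpos : ∀ᶠ N : ℕ in atTop, 0 < G N := by
    filter_upwards [hG 1 one_pos, eventually_ge_atTop 1] with N hN hN1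
    have : (0 : ℝ) < (N : ℝ) ^ ((1 : ℝ) / 4 - 1) := Real.rpow_pos_of_pos (by exact_mod_cast hN1) _
    exact this.trans_le hN
  refine ⟨h, ?_, ?_⟩
  · rw [Metric.tendsto_atTop']
    intro ε hε
    have hev : ∀ᶠ N : ℕ in atTop, h N ≤ ε / 2 := by
      filter_upwards [hG (ε / 2) (by positivity), hpos, eventually_ge_atTop 2] with N hN hp hN2
      have hlogN : 0 < Real.log N := Real.log_pos (by exact_mod_cast hN2)
      have hNpos : (0 : ℝ) < N := by positivity
      have h1 : (1 / 4 - ε / 2) * Real.log N ≤ Real.log (G N) := by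
        rw [← Real.log_rpow hNpos]
        exact Real.log_le_log (Real.rpow_pos_of_pos hNpos _) hN
      have h2 : 1 / 4 - ε / 2 ≤ Real.log (G N) / Real.log N := by
        rw [le_div_iff₀ hlogN]; exact h1
      simp only [hh, hp, hN2, and_self, if_true]
      exact max_le (by positivity) (by linarith)
    obtain ⟨n0, hn0⟩ := Filter.eventually_atTop.mp hev
    refine ⟨n0, fun n hn => ?_⟩
    rw [Real.dist_eq, sub_zero, abs_of_nonneg (h0 n)]
    have := hn0 n (le_of_lt hn)
    linarith
  · filter_upwards [hpos, eventually_ge_atTop 2] with N hp hN2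
    have hlogN : 0 < Real.log N := Real.log_pos (by exact_mod_cast hN2)
    have hNpos : (0 : ℝ) < N := by positivity
    have h1 : 1 / 4 - Real.log (G N) / Real.log N ≤ h N := by
      simp only [hh, hp, hN2, and_self, if_true]
      exact le_max_right _ _
    have h2 : (1 / 4 - h N) * Real.log N ≤ Real.log (G N) := by
      have h3 : 1 / 4 - h N ≤ Real.log (G N) / Real.log N := by linarith
      calc (1 / 4 - h N) * Real.log N ≤ Real.log (G N) / Real.log N * Real.log N :=
            mul_le_mul_of_nonneg_right h3 hlogN.le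
        _ = Real.log (G N) := div_mul_cancel₀ _ hlogN.ne'
    rw [Real.rpow_def_of_pos hNpos]
    calc Real.exp (Real.log N * (1 / 4 - h N)) ≤ Real.exp (Real.log (G N)) := by
          apply Real.exp_le_exp.mpr; linarith [mul_comm (Real.log N) (1 / 4 - h N)]
      _ = G N := Real.exp_log hp

end Pool.Agent.H277R2.ZHL
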